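import Mathlib

/-! Basic objects for the construction of non-ellipsoidal bodies homothetic to a floating body. -/

namespace Pool.Agent.Lib.MP_5b78b3_gt

open MeasureTheory Metric Set

/-- Euclidean space -/
abbrev E (d : ℕ) : Type := EuclideanSpace ℝ (Fin d)

/-- the unit sphere -/
abbrev S (d : ℕ) : Type := Metric.sphere (0 : E d) 1

/-- continuous functions on the sphere -/
abbrev X (d : ℕ) : Type := C(S d, ℝ)

variable {d : ℕ}

/-- surface measure on the sphere -/
noncomputable def sig (d : ℕ) : Measure (S d) := (volume : Measure (E d)).toSphere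

instance : IsFiniteMeasure (sig d) := by unfold sig; infer_instance

instance : (sig d).IsOpenPosMeasure := by unfold sig; infer_instance

/-- open spherical cap -/
def cap (l : ℝ) (u : E d) : Set (S d) := {v | l < inner ℝ u (v : E d)}

/-- a linear form restricted to the sphere -/
noncomputable def lin (a : E d) : X d := ⟨fun v => inner ℝ a (v : E d), by fun_prop⟩

/-- polynomial functions of degree at most `n` on the sphere -/
def PP (d n : ℕ) : Submodule ℝ (X d) :=
  Submodule.span ℝ {f | ∃ (a : E d) (k : ℕ), k ≤ n ∧ f = lin a ^ k}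

/-- normalising constant of the linearised operator -/
noncomputable def Bc (l : ℝ) (u : E d) : ℝ :=
  ∫ v in cap l u, (l / inner ℝ u (v : E d)) ^ d ∂(sig d)

/-- cap integral of the real part of `(v 0 + i v 1) ^ n` -/
noncomputable def Ic (l : ℝ) (e0 e1 : E d) (n : ℕ) : ℝ :=
  ∫ v in cap l e0, ((((inner ℝ e0 (v : E d) : ℝ) : ℂ) +
    ((inner ℝ e1 (v : E d) : ℝ) : ℂ) * Complex.I) ^ n).re ∂(sig d)

/-- even moments of a coordinate in the unit ball of dimension `d - 1` -/
noncomputable def gam (d : ℕ) : ℕ → ℝ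
  | 0 => 1
  | j + 1 => gam d j * (2 * j + 1) / (2 * j + d + 1)

/-- `Re E (l + i y) ^ k` -/
noncomputable def QQ (d k : ℕ) (l : ℝ) : ℝ :=
  ∑ j ∈ Finset.range (k / 2 + 1),
    (-1) ^ j * (k.choose (2 * j) : ℝ) * l ^ (k - 2 * j) * (1 - l ^ 2) ^ j * gam d j

/-- `E (l ^ 2 + y ^ 2) ^ k` -/
noncomputable def tl (d k : ℕ) (l : ℝ) : ℝ :=
  ∑ j ∈ Finset.range (k + 1),
    (k.choose j : ℝ) * (l ^ 2) ^ (k - j) * (1 - l ^ 2) ^ j * gam d j

/-- numerical facts about the multipliers on an interval of parameters -/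
def Num (d m j : ℕ) (a b g : ℝ) : Prop :=
  0 < a ∧ a < b ∧ b < 1 ∧ 0 < g ∧ a < QQ d m a ∧ QQ d m b < b ∧
    ∀ l ∈ Icc a b, (∀ k, k < 2 * j → k ≠ 1 → k ≠ m → g ≤ |QQ d k l - l|) ∧ tl d j l ≤ l - g

lemma rot_mem (g : E d ≃ₗᵢ[ℝ] E d) (v : S d) : g (v : E d) ∈ Metric.sphere (0 : E d) 1 := by
  rw [mem_sphere_zero_iff_norm, g.norm_map]
  exact norm_eq_of_mem_sphere v

/-- a linear isometry acting on the sphere -/
noncomputable def rot (g : E d ≃ₗᵢ[ℝ] E d) : C(S d, S d) where
  toFun v := ⟨g (v : E d), rot_mem g v⟩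
  continuous_toFun := (g.continuous.comp continuous_subtype_val).subtype_mk _

/-- sum of a function over a group orbit -/
noncomputable def sumG {G : Type} [Group G] [Fintype G] (ρ : G →* (E d ≃ₗᵢ[ℝ] E d))
    (f : X d) : X d :=
  ∑ g, f.comp (rot (ρ g))

/-- A finite group of isometries without fixed vectors, without invariant quadratic forms other
than the norm, and with exactly one new invariant in degree `k`. -/
structure Good (k : ℕ) {G : Type} [Group G] [Fintype G] (ρ : G →* (E d ≃ₗᵢ[ℝ] E d)) : Prop where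
  fix : ∀ x : E d, (∀ g, ρ g x = x) → x = 0
  two : ∀ a : E d, sumG ρ (lin a ^ 2) ∈ PP d 1
  ex : ∃ f ∈ PP d k, (∀ g, f.comp (rot (ρ g)) = f) ∧ f ∉ PP d (k - 1) ∧
    ∀ a : E d, sumG ρ (lin a ^ k) ∈ Submodule.span ℝ {f} ⊔ PP d (k - 1)

/-- truncated negative power -/
noncomputable def hh (d : ℕ) (t : ℝ) : ℝ := (max t (1 / 2))⁻¹ ^ d

/-- `d` times the volume cut off by a half space, in polar coordinates -/
noncomputable def FF (l : ℝ) (p : X d) (k : ℝ) (u : E d) : ℝ :=
  ∫ v, max (p v - k * hh d (inner ℝ u (v : E d) / l)) 0 ∂(sig d)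

/-- the level at which the prescribed volume is cut off -/
noncomputable def kk (l : ℝ) (p : X d) (u : E d) : ℝ :=
  sInf {k | FF l p k u ≤ FF l 1 1 u}

/-- radial function (to the power `d`) of an intersection of half spaces -/
noncomputable def HH (k : S d → ℝ) (v : S d) : ℝ :=
  ⨅ u : S d, k u * hh d (inner ℝ (u : E d) (v : E d))

/-- the rescaled floating body map -/
noncomputable def Psi (l : ℝ) (p : X d) : X d :=
  ContinuousMap.mkD (HH fun u => kk l p u) 1

/-- `T` is the cap averaging operator -/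
def IsT (l : ℝ) (T : X d →L[ℝ] X d) : Prop :=
  ∀ (η : X d) (u : S d), T η u = (∫ v in cap l (u : E d), η v ∂(sig d)) / Bc l (u : E d)

/-- the star body whose radial function has `d`-th power `p` -/
def body (p : X d) : Set (E d) :=
  {y | ∃ (v : S d) (r : ℝ), 0 ≤ r ∧ r ^ d ≤ p v ∧ y = r • (v : E d)}

end Pool.Agent.Lib.MP_5b78b3_gt
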