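import Mathlib
import Pool.Agent.Lib.MP_5b78b3_gt.Defs

/-! Rotation invariance of the surface measure, polar coordinates, thin bands. -/

namespace Pool.Agent.Lib.MP_5b78b3_gt

open MeasureTheory Metric Set
open scoped Pointwise

variable {d : ℕ}

@[simp] lemma rot_coe (g : E d ≃ₗᵢ[ℝ] E d) (v : S d) : ((rot g v : S d) : E d) = g (v : E d) := rfl

@[simp] lemma lin_apply (a : E d) (v : S d) : lin a v = inner ℝ a (v : E d) := rfl

lemma norm_S (v : S d) : ‖(v : E d)‖ = 1 := norm_eq_of_mem_sphere v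

lemma rot_rot (g h : E d ≃ₗᵢ[ℝ] E d) (v : S d) : rot g (rot h v) = rot (g * h) v := rfl

lemma rot_one (v : S d) : rot (1 : E d ≃ₗᵢ[ℝ] E d) v = v := rfl

lemma abs_inner_S (u v : S d) : |inner ℝ (u : E d) (v : E d)| ≤ 1 := by
  simpa [norm_S] using abs_real_inner_le_norm (u : E d) (v : E d)

lemma inner_S_self (u : S d) : inner ℝ (u : E d) (u : E d) = (1 : ℝ) := by
  rw [real_inner_self_eq_norm_sq, norm_S]; norm_num

/-- the action on the sphere as a homeomorphism -/
noncomputable def rotH (g : E d ≃ₗᵢ[ℝ] E d) : S d ≃ₜ S d where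
  toFun := rot g
  invFun := rot g.symm
  left_inv v := by ext1; simp
  right_inv v := by ext1; simp
  continuous_toFun := (rot g).continuous
  continuous_invFun := (rot g.symm).continuous

lemma measurePreserving_rot (g : E d ≃ₗᵢ[ℝ] E d) :
    MeasurePreserving (rot g) (sig d) (sig d) := by
  refine ⟨(rot g).continuous.measurable, ?_⟩
  ext s hs
  rw [Measure.map_apply (rot g).continuous.measurable hs]
  unfold sig
  rw [Measure.toSphere_apply' _ hs,
    Measure.toSphere_apply' _ ((rot g).continuous.measurable hs),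
    ← g.measurePreserving.measure_preimage_emb g.toHomeomorph.measurableEmbedding
      (Set.Ioo (0 : ℝ) 1 • (Subtype.val '' s))]
  congr 2
  ext x
  simp only [Set.mem_preimage, Set.mem_smul, Set.mem_image]
  constructor
  · rintro ⟨r, hr, y, ⟨u, hu, rfl⟩, rfl⟩
    exact ⟨r, hr, _, ⟨rot g u, hu, rfl⟩, by simp⟩
  · rintro ⟨r, hr, y, ⟨u, hu, rfl⟩, h⟩
    refine ⟨r, hr, _, ⟨rot g.symm u, ?_, rfl⟩, ?_⟩
    · have : rot g (rot g.symm u) = u := by
        ext1; simp
      rwa [this]
    · apply g.injective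
      have h' : r • (u : E d) = g x := h
      rw [← h']; simp

lemma integral_rot {F : Type*} [NormedAddCommGroup F] [NormedSpace ℝ F]
    (g : E d ≃ₗᵢ[ℝ] E d) (f : S d → F) :
    ∫ v, f (rot g v) ∂(sig d) = ∫ v, f v ∂(sig d) :=
  (measurePreserving_rot g).integral_comp (rotH g).measurableEmbedding f

lemma measure_rot (g : E d ≃ₗᵢ[ℝ] E d) (s : Set (S d)) : sig d (rot g ⁻¹' s) = sig d s :=
  (measurePreserving_rot g).measure_preimage_emb (rotH g).measurableEmbedding s

lemma isOpen_cap (l : ℝ) (u : E d) : IsOpen (cap l u) :=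
  isOpen_lt continuous_const (by fun_prop)

lemma measurableSet_cap (l : ℝ) (u : E d) : MeasurableSet (cap l u) :=
  (isOpen_cap l u).measurableSet

lemma setIntegral_cap_rot {F : Type*} [NormedAddCommGroup F] [NormedSpace ℝ F]
    (g : E d ≃ₗᵢ[ℝ] E d) (l : ℝ) (u : E d) (f : S d → F) :
    ∫ v in cap l (g u), f v ∂(sig d) = ∫ v in cap l u, f (rot g v) ∂(sig d) := by
  rw [← integral_indicator (measurableSet_cap _ _), ← integral_indicator (measurableSet_cap _ _),
    ← integral_rot g]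
  congr 1
  ext v
  have : rot g v ∈ cap l (g u) ↔ v ∈ cap l u := by simp [cap]
  by_cases h : v ∈ cap l u
  · rw [indicator_of_mem h, indicator_of_mem (this.2 h)]
  · rw [indicator_of_notMem h, indicator_of_notMem (fun h' => h (this.1 h'))]

lemma exists_rot {u w : E d} (h : ‖u‖ = ‖w‖) : ∃ g : E d ≃ₗᵢ[ℝ] E d, g u = w :=
  ⟨_, Submodule.reflection_sub h⟩

lemma exists_rot2 {u w a b : E d} (h : ‖u‖ = ‖w‖) (h' : ‖a‖ = ‖b‖) (hua : inner ℝ u a = (0 : ℝ))
    (hwb : inner ℝ w b = (0 : ℝ)) : ∃ g : E d ≃ₗᵢ[ℝ] E d, g u = w ∧ g a = b := by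
  obtain ⟨g, hg⟩ := exists_rot h
  have h1 : ‖g a‖ = ‖b‖ := by rw [g.norm_map, h']
  have h2 : inner ℝ w (g a) = (0 : ℝ) := by rw [← hg, g.inner_map_map, hua]
  refine ⟨g.trans (Submodule.reflection (ℝ ∙ (g a - b))ᗮ), ?_, ?_⟩
  · rw [LinearIsometryEquiv.trans_apply, hg]
    apply Submodule.reflection_mem_subspace_eq_self
    rw [Submodule.mem_orthogonal_singleton_iff_inner_left, inner_sub_right, h2, hwb, sub_zero]
  · rw [LinearIsometryEquiv.trans_apply]
    exact Submodule.reflection_sub h1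

lemma Bc_rot (g : E d ≃ₗᵢ[ℝ] E d) (l : ℝ) (u : E d) : Bc l (g u) = Bc l u := by
  unfold Bc
  rw [setIntegral_cap_rot]
  simp

lemma Bc_eq (l : ℝ) {u w : E d} (h : ‖u‖ = ‖w‖) : Bc l u = Bc l w := by
  obtain ⟨g, rfl⟩ := exists_rot h
  rw [Bc_rot]

lemma integrable_cont {F : Type*} [NormedAddCommGroup F] {g : S d → F} (hg : Continuous g) :
    Integrable g (sig d) :=
  hg.integrable_of_hasCompactSupport (HasCompactSupport.of_compactSpace _)

/-- polar coordinates for a product -/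
lemma integral_polar_prod (hd : 0 < d) (F : E d → ℝ) (h : S d → ℝ) (ψ : ℝ → ℝ)
    (H : ∀ (v : S d) (r : ℝ), 0 < r → F (r • (v : E d)) = h v * ψ r) :
    ∫ y, F y = (∫ v, h v ∂(sig d)) * ∫ r in Ioi (0 : ℝ), r ^ (d - 1) * ψ r := by
  have : Nonempty (Fin d) := ⟨⟨0, hd⟩⟩
  have hdim : Module.finrank ℝ (E d) = d := by simp
  calc ∫ y, F y = ∫ x : ({(0)}ᶜ : Set (E d)), F x.1 ∂((volume : Measure (E d)).comap (↑)) := by
        rw [integral_subtype_comap (measurableSet_singleton _).compl F, restrict_compl_singleton]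
    _ = ∫ x, h x.1 * ψ x.2.1 ∂(sig d).prod (.volumeIoiPow (d - 1)) := by
        have := (volume : Measure (E d)).measurePreserving_homeomorphUnitSphereProd.integral_comp
          (Homeomorph.measurableEmbedding _) (fun x : S d × Ioi (0 : ℝ) => h x.1 * ψ x.2.1)
        rw [hdim] at this
        unfold sig
        rw [← this]
        congr 1
        ext x
        rw [← H _ _ (homeomorphUnitSphereProd (E d) x).2.2]
        congr 1
        have := homeomorphUnitSphereProd_symm_apply_coe (E d) (homeomorphUnitSphereProd (E d) x)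
        rw [Homeomorph.symm_apply_apply] at this
        exact this
    _ = (∫ v, h v ∂(sig d)) * ∫ x : Ioi (0 : ℝ), ψ x ∂.volumeIoiPow (d - 1) :=
        integral_prod_mul h (fun x : Ioi (0 : ℝ) => ψ x)
    _ = _ := by
        congr 1
        simp only [Measure.volumeIoiPow, ENNReal.ofReal]
        rw [integral_withDensity_eq_integral_smul,
          integral_subtype_comap measurableSet_Ioi fun a ↦ Real.toNNReal (a ^ (d - 1)) • ψ a,
          setIntegral_congr_fun measurableSet_Ioi fun x hx ↦ ?_]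
        · rw [NNReal.smul_def, Real.coe_toNNReal _ (pow_nonneg hx.out.le _), smul_eq_mul]
        · exact (measurable_subtype_coe.pow_const _).real_toNNReal

lemma volumeIoiPow_le (hd : 0 < d) (c : ℝ) :
    Measure.volumeIoiPow (d - 1) {r : Ioi (0 : ℝ) | r.1 ^ d ≤ c} = ENNReal.ofReal (c / d) := by
  have hd' : (0 : ℝ) < d := by exact_mod_cast hd
  rcases le_or_gt c 0 with hc | hc
  · have : {r : Ioi (0 : ℝ) | r.1 ^ d ≤ c} = ∅ := by
      ext r
      simp only [mem_ofPred_eq, mem_empty_iff_false, iff_false, not_le]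
      exact hc.trans_lt (pow_pos r.2 d)
    rw [this, measure_empty, eq_comm, ENNReal.ofReal_eq_zero]
    exact div_nonpos_of_nonpos_of_nonneg hc hd'.le
  · have h0 : 0 < c ^ ((d : ℝ)⁻¹) := Real.rpow_pos_of_pos hc _
    have h1 : (c ^ ((d : ℝ)⁻¹)) ^ d = c := Real.rpow_inv_natCast_pow hc.le hd.ne'
    let r0 : Ioi (0 : ℝ) := ⟨_, h0⟩
    have hI : {r : Ioi (0 : ℝ) | r.1 ^ d ≤ c} = Iic r0 := by
      ext r
      simp only [mem_ofPred_eq, mem_Iic]
      rw [← Subtype.coe_le_coe]
      conv_lhs => rw [← h1]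
      exact pow_le_pow_iff_left₀ (le_of_lt r.2) h0.le hd.ne'
    have : NullSingletonClass ((volume : Measure ℝ).comap (Subtype.val : Ioi (0 : ℝ) → ℝ)) := by
      constructor
      intro x
      rw [(MeasurableEmbedding.subtype_coe measurableSet_Ioi).comap_apply]
      simp
    have : NullSingletonClass (Measure.volumeIoiPow (d - 1)) := by
      unfold Measure.volumeIoiPow; infer_instance
    rw [hI, ← measure_congr Iio_ae_eq_Iic, Measure.volumeIoiPow_apply_Iio,
      Nat.sub_add_cancel hd, Nat.cast_pred hd, sub_add_cancel]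
    exact congrArg _ (congrArg (· / (d : ℝ)) h1)

/-- polar coordinates for the volume of a radial shell -/
lemma volume_polar (hd : 0 < d) {A : Set (E d)} (hA : MeasurableSet A) (α β : S d → ℝ)
    (hα : ∀ v, 0 ≤ α v)
    (H : ∀ (v : S d) (r : ℝ), 0 < r → (r • (v : E d) ∈ A ↔ α v < r ^ d ∧ r ^ d ≤ β v)) :
    volume A = ∫⁻ v, ENNReal.ofReal ((β v - α v) / d) ∂(sig d) := by
  have : Nonempty (Fin d) := ⟨⟨0, hd⟩⟩
  have hd' : (0 : ℝ) < d := by exact_mod_cast hd
  have hdim : Module.finrank ℝ (E d) = d := by simp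
  have hmp := (volume : Measure (E d)).measurePreserving_homeomorphUnitSphereProd
  rw [hdim] at hmp
  set B : Set (S d × Ioi (0 : ℝ)) := {x | x.2.1 • (x.1 : E d) ∈ A} with hB
  have hBm : MeasurableSet B := by
    have : Continuous fun x : S d × Ioi (0 : ℝ) => x.2.1 • (x.1 : E d) := by fun_prop
    exact this.measurable hA
  have h1 : volume A = (sig d).prod (.volumeIoiPow (d - 1)) B := by
    unfold sig
    rw [← hmp.measure_preimage hBm.nullMeasurableSet,
      (MeasurableEmbedding.subtype_coe (measurableSet_singleton _).compl).comap_apply,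
      ← measure_sdiff_null (s := A) (measure_singleton (0 : E d))]
    congr 1
    ext y
    constructor
    · rintro ⟨hy, hy0⟩
      refine ⟨⟨y, hy0⟩, ?_, rfl⟩
      have := homeomorphUnitSphereProd_symm_apply_coe (E d)
        (homeomorphUnitSphereProd (E d) ⟨y, hy0⟩)
      rw [Homeomorph.symm_apply_apply] at this
      show _ • _ ∈ A
      rw [← this]; exact hy
    · rintro ⟨x, hx, rfl⟩
      refine ⟨?_, x.2⟩
      have := homeomorphUnitSphereProd_symm_apply_coe (E d) (homeomorphUnitSphereProd (E d) x)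
      rw [Homeomorph.symm_apply_apply] at this
      rw [this]; exact hx
  rw [h1, Measure.prod_apply hBm]
  congr 1
  ext v
  have h2 : Prod.mk v ⁻¹' B = {r : Ioi (0 : ℝ) | r.1 ^ d ≤ β v} \ {r : Ioi (0 : ℝ) | r.1 ^ d ≤ α v} := by
    ext r
    simp only [hB, mem_preimage, mem_ofPred_eq, mem_sdiff, not_le]
    rw [H v r r.2, and_comm]
  rw [h2]
  rcases le_total (β v) (α v) with h | h
  · have hs : {r : Ioi (0 : ℝ) | r.1 ^ d ≤ β v} ⊆ {r : Ioi (0 : ℝ) | r.1 ^ d ≤ α v} :=
      fun r hr => le_trans hr h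
    rw [sdiff_eq_empty.2 hs, measure_empty, eq_comm, ENNReal.ofReal_eq_zero]
    exact div_nonpos_of_nonpos_of_nonneg (by linarith) hd'.le
  · have hm : MeasurableSet {r : Ioi (0 : ℝ) | r.1 ^ d ≤ α v} :=
      measurableSet_le (measurable_subtype_coe.pow_const _) measurable_const
    have hs : {r : Ioi (0 : ℝ) | r.1 ^ d ≤ α v} ⊆ {r : Ioi (0 : ℝ) | r.1 ^ d ≤ β v} :=
      fun r hr => le_trans hr h
    rw [measure_sdiff hs hm.nullMeasurableSet
      (by rw [volumeIoiPow_le hd]; exact ENNReal.ofReal_ne_top),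
      volumeIoiPow_le hd, volumeIoiPow_le hd,
      ← ENNReal.ofReal_sub _ (div_nonneg (hα v) hd'.le), sub_div]

/-- the boundary of a circular cone is a null set -/
lemma volume_cone_bdry {u : E d} (hu : ‖u‖ = 1) {l : ℝ} (h0 : 0 ≤ l) (h1 : l < 1) :
    volume {y : E d | inner ℝ u y = l * ‖y‖} = 0 := by
  have hc : Convex ℝ {y : E d | l * ‖y‖ ≤ inner ℝ u y} := by
    intro x hx y hy a b ha hb hab
    simp only [mem_ofPred_eq] at hx hy ⊢
    have h2 : ‖a • x + b • y‖ ≤ a * ‖x‖ + b * ‖y‖ := by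
      refine (norm_add_le _ _).trans ?_
      rw [norm_smul, norm_smul, Real.norm_of_nonneg ha, Real.norm_of_nonneg hb]
    rw [inner_add_right, inner_smul_right, inner_smul_right]
    nlinarith [mul_le_mul_of_nonneg_left hx ha, mul_le_mul_of_nonneg_left hy hb,
      mul_le_mul_of_nonneg_left h2 h0]
  refine measure_mono_null ?_ (hc.addHaar_frontier volume)
  intro y hy
  have hy' : inner ℝ u y = l * ‖y‖ := hy
  refine ⟨subset_closure (le_of_eq hy'.symm), fun hi => ?_⟩
  have hcont : Continuous fun t : ℝ => y - t • u := by fun_prop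
  have hn : ∀ᶠ t in nhds (0 : ℝ), y - t • u ∈ {y : E d | l * ‖y‖ ≤ inner ℝ u y} := by
    apply hcont.continuousAt.eventually_mem
    simpa using mem_interior_iff_mem_nhds.1 hi
  obtain ⟨t, ht, ht0⟩ := ((hn.filter_mono nhdsWithin_le_nhds).and
    (self_mem_nhdsWithin (s := Ioi (0 : ℝ)) (a := 0))).exists
  have ht0' : 0 < t := ht0
  have ht' : l * ‖y - t • u‖ ≤ inner ℝ u (y - t • u) := ht
  rw [inner_sub_right, inner_smul_right, real_inner_self_eq_norm_sq, hu, hy'] at ht'
  have h3 : ‖y‖ - t ≤ ‖y - t • u‖ := by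
    have := norm_sub_norm_le y (t • u)
    rwa [norm_smul, hu, Real.norm_of_nonneg ht0'.le, mul_one] at this
  nlinarith [mul_le_mul_of_nonneg_left h3 h0]

lemma sig_level {u : E d} (hu : ‖u‖ = 1) {l : ℝ} (h0 : 0 ≤ l) (h1 : l < 1) :
    sig d {v : S d | inner ℝ u (v : E d) = l} = 0 := by
  have hm : MeasurableSet {v : S d | inner ℝ u (v : E d) = l} :=
    (isClosed_eq (by fun_prop) continuous_const).measurableSet
  unfold sig
  rw [Measure.toSphere_apply' _ hm, measure_mono_null ?_ (volume_cone_bdry hu h0 h1), mul_zero]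
  rintro _ ⟨r, hr, _, ⟨v, hv, rfl⟩, rfl⟩
  have hv' : inner ℝ u (v : E d) = l := hv
  show inner ℝ u (r • (v : E d)) = l * ‖r • (v : E d)‖
  rw [inner_smul_right, hv', norm_smul, norm_S, Real.norm_of_nonneg hr.1.le]
  ring

/-- thin bands have uniformly small measure -/
lemma band_small {a b : ℝ} (ha : 0 ≤ a) (hb : b < 1) {η : ℝ} (hη : 0 < η) :
    ∃ ε > 0, ∀ l ∈ Icc a b, ∀ u : S d,
      (sig d).real {v : S d | |inner ℝ (u : E d) (v : E d) - l| ≤ ε} ≤ η := by
  rcases isEmpty_or_nonempty (S d) with hS | ⟨⟨e⟩⟩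
  · exact ⟨1, one_pos, fun l _ u => hS.elim u⟩
  have hm : Measurable fun v : S d => inner ℝ (e : E d) (v : E d) :=
    (lin (e : E d)).continuous.measurable
  set ν : Measure ℝ := (sig d).map fun v : S d => inner ℝ (e : E d) (v : E d) with hν
  have hU : ∀ l : Icc a b, ∃ U : Set ℝ, IsOpen U ∧ (l : ℝ) ∈ U ∧ ν U < ENNReal.ofReal η := by
    intro l
    have h0 : ν {(l : ℝ)} < ENNReal.ofReal η := by
      rw [hν, Measure.map_apply hm (measurableSet_singleton _)]
      have := sig_level (norm_S e) (ha.trans l.2.1) (l.2.2.trans_lt hb)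
      have h' : (fun v : S d => inner ℝ (e : E d) (v : E d)) ⁻¹' {(l : ℝ)}
          = {v : S d | inner ℝ (e : E d) (v : E d) = l} := rfl
      rw [h', this]
      exact ENNReal.ofReal_pos.2 hη
    obtain ⟨U, hU1, hU2, hU3⟩ := Set.exists_isOpen_lt_of_lt _ _ h0
    exact ⟨U, hU2, hU1 rfl, hU3⟩
  choose U hU1 hU2 hU3 using hU
  obtain ⟨δ, hδ, hδ'⟩ := lebesgue_number_lemma_of_metric (s := Icc a b) isCompact_Icc hU1
    (fun x hx => mem_iUnion.2 ⟨⟨x, hx⟩, hU2 _⟩)
  refine ⟨δ / 2, half_pos hδ, fun l hl u => ?_⟩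
  obtain ⟨i, hi⟩ := hδ' l hl
  obtain ⟨g, hg⟩ := exists_rot (u := (e : E d)) (w := (u : E d)) (by rw [norm_S, norm_S])
  rw [measureReal_def, ← measure_rot g]
  refine ENNReal.toReal_le_of_le_ofReal hη.le (le_trans ?_ (hU3 i).le)
  rw [hν, Measure.map_apply hm (hU1 i).measurableSet]
  apply measure_mono
  intro v hv
  apply hi
  simp only [mem_preimage, mem_ofPred_eq, rot_coe, ← hg, LinearIsometryEquiv.inner_map_map] at hv
  rw [mem_ball, Real.dist_eq]
  linarith

end Pool.Agent.Lib.MP_5b78b3_gt
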