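import Mathlib
import Pool.Agent.Lib.MP_5b78b3_gt.Base

/-! First variation of the cut off volume. -/

namespace Pool.Agent.Lib.MP_5b78b3_gt

open MeasureTheory Metric Set

variable {d : ℕ}

lemma hh_cont : Continuous (hh d) := by
  unfold hh
  refine Continuous.pow (Continuous.inv₀ (by fun_prop) fun t => ?_) d
  exact (lt_of_lt_of_le (by norm_num) (le_max_right t (1 / 2))).ne'

lemma hh_pos (t : ℝ) : 0 < hh d t :=
  pow_pos (inv_pos.2 (lt_of_lt_of_le (by norm_num) (le_max_right t (1 / 2)))) d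

lemma hh_anti : Antitone (hh d) := by
  intro s t hst
  have h0 : (0 : ℝ) < max s (1 / 2) := lt_of_lt_of_le (by norm_num) (le_max_right s (1 / 2))
  exact pow_le_pow_left₀ (inv_nonneg.2 (h0.le.trans (max_le_max_right _ hst)))
    (inv_anti₀ h0 (max_le_max_right _ hst)) d

lemma hh_of_ge {t : ℝ} (h : 1 / 2 ≤ t) : hh d t = t⁻¹ ^ d := by
  unfold hh; rw [max_eq_left h]

lemma hh_of_le {t : ℝ} (h : t ≤ 1 / 2) : hh d t = 2 ^ d := by
  unfold hh; rw [max_eq_right h]; norm_num

lemma hh_le (t : ℝ) : hh d t ≤ 2 ^ d := by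
  rcases le_total t (1 / 2) with h | h
  · exact (hh_of_le h).le
  · exact (hh_anti h).trans (hh_of_le le_rfl).le

lemma hh_one : hh d 1 = 1 := by rw [hh_of_ge (by norm_num)]; simp

lemma one_le_hh {t : ℝ} (h : t ≤ 1) : 1 ≤ hh d t := hh_one.symm.le.trans (hh_anti h)

lemma hh_gap_low (hd : 0 < d) {ε t : ℝ} (h0 : 0 ≤ ε) (h1 : ε ≤ 1 / 2) (h : t ≤ 1 - ε) :
    1 + ε ≤ hh d t := by
  refine le_trans ?_ (hh_anti h)
  rw [hh_of_ge (by linarith)]
  have h2 : 1 + ε ≤ (1 - ε)⁻¹ := by
    rw [le_inv_comm₀ (by linarith) (by linarith), inv_eq_one_div, le_div_iff₀ (by linarith)]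
    nlinarith
  exact h2.trans (le_self_pow₀ (by linarith) hd.ne')

lemma hh_gap_high (hd : 0 < d) {ε t : ℝ} (h0 : 0 ≤ ε) (h1 : ε ≤ 1) (h : 1 + ε ≤ t) :
    hh d t ≤ 1 - ε / 2 := by
  refine le_trans (hh_anti h) ?_
  rw [hh_of_ge (by linarith)]
  have h2 : (1 + ε)⁻¹ ≤ 1 - ε / 2 := by
    rw [inv_eq_one_div, div_le_iff₀ (by linarith)]
    nlinarith
  refine le_trans (pow_le_of_le_one (by positivity) ?_ hd.ne') h2
  linarith

/-- a thin band around the boundary of a cap -/
def band (l ε : ℝ) (u : E d) : Set (S d) := {v | |inner ℝ u (v : E d) - l| ≤ ε}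

lemma measurableSet_band (l ε : ℝ) (u : E d) : MeasurableSet (band l ε u) :=
  (isClosed_le (by fun_prop) continuous_const).measurableSet

lemma abs_integral_le_band {f : S d → ℝ} {l ε C : ℝ} {u : E d}
    (h1 : ∀ v, |f v| ≤ C) (h2 : ∀ v, v ∉ band l ε u → f v = 0) :
    |∫ v, f v ∂(sig d)| ≤ C * (sig d).real (band l ε u) := by
  rw [← setIntegral_eq_integral_of_forall_compl_eq_zero h2, ← Real.norm_eq_abs]
  exact norm_setIntegral_le_of_norm_le_const (measure_lt_top _ _) fun v _ => h1 v

lemma Bc_eq_hh {l : ℝ} (h0 : 0 < l) (u : E d) :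
    Bc l u = ∫ v in cap l u, hh d (inner ℝ u (v : E d) / l) ∂(sig d) := by
  refine setIntegral_congr_fun (measurableSet_cap l u) fun v hv => ?_
  have hv' : l < inner ℝ u (v : E d) := hv
  have : 1 ≤ inner ℝ u (v : E d) / l := by rw [le_div_iff₀ h0]; linarith
  rw [hh_of_ge (by linarith), inv_div]

lemma cont_hh_inner (l : ℝ) (u : E d) :
    Continuous fun v : S d => hh d (inner ℝ u (v : E d) / l) :=
  hh_cont.comp (by fun_prop)

lemma abs_apply_le (p : X d) (v : S d) : |p v| ≤ ‖p‖ := p.norm_coe_le_norm v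

lemma abs_sub_one_le {p : X d} {r : ℝ} (h : ‖p - 1‖ ≤ r) (v : S d) : |p v - 1| ≤ r :=
  (abs_apply_le (p - 1) v).trans h

lemma max_aux (a a' : ℝ) : |max a 0 - max a' 0 - (a - a')| ≤ |a - a'| ∧
    |max a 0 - max a' 0| ≤ |a - a'| := by
  constructor
  · rcases le_total a 0 with h | h <;> rcases le_total a' 0 with h' | h' <;>
      simp only [max_eq_left, max_eq_right, h, h'] <;>
      rw [abs_le] <;> constructor <;>
      linarith [le_abs_self (a - a'), neg_abs_le (a - a'), abs_nonneg (a - a')]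
  · exact abs_max_sub_max_le_abs a a' 0

lemma FF_diff (hd : 0 < d) {l r ε : ℝ} (h0 : 0 < l) (h1 : l < 1) (hε0 : 0 ≤ ε) (hε : ε ≤ 1 / 2)
    (hr : r * (1 + 2 ^ d) ≤ ε / 2) {p p' : X d} {k k' : ℝ} (hp : ‖p - 1‖ ≤ r) (hp' : ‖p' - 1‖ ≤ r)
    (hk : |k - 1| ≤ r) (hk' : |k' - 1| ≤ r) (u : E d) :
    |FF l p k u - FF l p' k' u - ((∫ v in cap l u, (p - p') v ∂(sig d)) - (k - k') * Bc l u)|
      ≤ (‖p - p'‖ + 2 ^ d * |k - k'|) * (sig d).real (band l ε u) := by
  set c : S d → ℝ := fun v => hh d (inner ℝ u (v : E d) / l) with hc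
  have hcc : Continuous c := cont_hh_inner l u
  have hi1 : ∀ (q : X d) (j : ℝ), Integrable (fun v => max (q v - j * c v) 0) (sig d) :=
    fun q j => integrable_cont (by fun_prop)
  have hi2 : Integrable (fun v => (p v - k * c v) - (p' v - k' * c v)) (sig d) :=
    integrable_cont (by fun_prop)
  have e1 : (∫ v in cap l u, (p - p') v ∂(sig d)) - (k - k') * Bc l u
      = ∫ v, (cap l u).indicator (fun v => (p v - k * c v) - (p' v - k' * c v)) v ∂(sig d) := by
    rw [integral_indicator (measurableSet_cap l u), Bc_eq_hh h0, ← integral_const_mul,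
      ← integral_sub (integrable_cont (p - p').continuous).integrableOn
        (integrable_cont (g := fun v => (k - k') * c v) (by fun_prop)).integrableOn]
    congr 1
    ext v
    simp only [ContinuousMap.sub_apply, hc]
    ring
  rw [e1]
  unfold FF
  have hi3 : Integrable (fun v => max (p v - k * c v) 0 - max (p' v - k' * c v) 0) (sig d) :=
    (hi1 p k).sub (hi1 p' k')
  rw [← integral_sub (hi1 p k) (hi1 p' k'), ← integral_sub hi3
    (hi2.indicator (measurableSet_cap l u))]
  have hb : ∀ v, |(p v - k * c v) - (p' v - k' * c v)| ≤ ‖p - p'‖ + 2 ^ d * |k - k'| := by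
    intro v
    have : (p v - k * c v) - (p' v - k' * c v) = (p - p') v - (k - k') * c v := by
      simp only [ContinuousMap.sub_apply]; ring
    rw [this]
    refine (abs_sub _ _).trans (add_le_add (abs_apply_le _ v) ?_)
    rw [abs_mul, abs_of_pos (hh_pos _), mul_comm]
    exact mul_le_mul_of_nonneg_right (hh_le _) (abs_nonneg _)
  apply abs_integral_le_band
  · intro v
    refine le_trans ?_ (hb v)
    by_cases hv : v ∈ cap l u
    · simp only [indicator_of_mem hv]
      exact (max_aux _ _).1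
    · simp only [indicator_of_notMem hv, sub_zero]
      exact (max_aux _ _).2
  · intro v hv
    have hv1 : ε < |inner ℝ u (v : E d) - l| := not_le.1 hv
    have hr0 : 0 ≤ r := (norm_nonneg _).trans hp
    have hc0 : 0 < c v := hh_pos _
    have hc1 : c v ≤ 2 ^ d := hh_le _
    have key : ∀ (q : X d) (j : ℝ), ‖q - 1‖ ≤ r → |j - 1| ≤ r →
        |(q v - j * c v) - (1 - c v)| ≤ ε / 2 := by
      intro q j hq hj
      have : (q v - j * c v) - (1 - c v) = (q v - 1) - (j - 1) * c v := by ring
      rw [this]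
      refine (abs_sub _ _).trans ?_
      rw [abs_mul, abs_of_pos hc0]
      have := abs_sub_one_le hq v
      nlinarith [mul_le_mul hj hc1 hc0.le hr0]
    have k1 := abs_le.1 (key p k hp hk)
    have k2 := abs_le.1 (key p' k' hp' hk')
    by_cases hvc : v ∈ cap l u
    · have hv2 : l < inner ℝ u (v : E d) := hvc
      rw [abs_of_pos (by linarith)] at hv1
      have : c v ≤ 1 - ε / 2 := by
        refine hh_gap_high hd hε0 (by linarith) ?_
        rw [le_div_iff₀ h0]
        nlinarith
      simp only [indicator_of_mem hvc]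
      rw [max_eq_left (by linarith), max_eq_left (by linarith)]
      ring
    · have hv2 : inner ℝ u (v : E d) ≤ l := not_lt.1 hvc
      rw [abs_of_nonpos (by linarith)] at hv1
      have : 1 + ε ≤ c v := by
        refine hh_gap_low hd hε0 hε ?_
        rw [div_le_iff₀ h0]
        nlinarith
      simp only [indicator_of_notMem hvc]
      rw [max_eq_right (by linarith), max_eq_right (by linarith)]
      ring

lemma FF_lip (l : ℝ) (p p' : X d) (k : ℝ) (u : E d) :
    |FF l p k u - FF l p' k u| ≤ ‖p - p'‖ * (sig d).real univ := by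
  unfold FF
  have hcc := cont_hh_inner l u
  rw [← integral_sub (integrable_cont (by fun_prop)) (integrable_cont (by fun_prop)),
    ← Real.norm_eq_abs]
  refine norm_integral_le_of_norm_le_const (Filter.Eventually.of_forall fun v => ?_)
  refine (max_aux _ _).2.trans ?_
  rw [sub_sub_sub_cancel_right]
  exact abs_apply_le (p - p') v

lemma FF_anti (l : ℝ) (p : X d) (u : E d) : Antitone fun k => FF l p k u := by
  intro k k' h
  have hcc := cont_hh_inner l u
  refine integral_mono (integrable_cont (by fun_prop)) (integrable_cont (by fun_prop)) fun v => ?_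
  refine max_le_max_right _ ?_
  have := hh_pos (d := d) (inner ℝ u (v : E d) / l)
  nlinarith

lemma FF_rot (l : ℝ) (p : X d) (k : ℝ) (u : E d) (g : E d ≃ₗᵢ[ℝ] E d) :
    FF l (p.comp (rot g)) k u = FF l p k (g u) := by
  unfold FF
  rw [← integral_rot g (fun v => max (p v - k * hh d (inner ℝ (g u) (v : E d) / l)) 0)]
  simp

lemma FF_one_eq (l : ℝ) {u w : E d} (h : ‖u‖ = ‖w‖) : FF l 1 1 u = FF l (1 : X d) 1 w := by
  obtain ⟨g, rfl⟩ := exists_rot h
  rw [← FF_rot]
  rfl

lemma FF_cont {Z : Type} [TopologicalSpace Z] [FirstCountableTopology Z] [LocallyCompactSpace Z]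
    {l k : Z → ℝ} {u : Z → E d} (p : X d) (hl : Continuous l) (hl0 : ∀ z, l z ≠ 0)
    (hk : Continuous k) (hu : Continuous u) : Continuous fun z => FF (l z) p (k z) (u z) := by
  have h := continuous_parametric_integral_of_continuous (μ := sig d)
    (f := fun (z : Z) (v : S d) => max (p v - k z * hh d (inner ℝ (u z) (v : E d) / l z)) 0)
    ?_ isCompact_univ
  · simpa only [Measure.restrict_univ, FF] using h
  · have h1 : Continuous fun x : Z × S d => hh d (inner ℝ (u x.1) (x.2 : E d) / l x.1) :=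
      hh_cont.comp (Continuous.div (by fun_prop) (by fun_prop) fun x => hl0 x.1)
    unfold Function.uncurry
    fun_prop

lemma FF_pos (hd : 0 < d) {l : ℝ} (h0 : 0 < l) (h1 : l < 1) (u : S d) :
    0 < FF l (1 : X d) 1 (u : E d) := by
  have hcc := cont_hh_inner l (u : E d)
  refine Continuous.integral_pos_of_hasCompactSupport_nonneg_nonzero (x := u) (by fun_prop)
    (HasCompactSupport.of_compactSpace _) (fun v => le_max_right _ _) ?_
  have h2 : 1 < l⁻¹ := (one_lt_inv₀ h0).2 h1
  have : hh d (inner ℝ (u : E d) (u : E d) / l) < 1 := by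
    rw [inner_S_self, hh_of_ge (by rw [one_div l]; linarith), one_div, inv_inv]
    exact pow_lt_one₀ h0.le h1 hd.ne'
  simp only [ContinuousMap.one_apply, one_mul]
  rw [max_eq_left (by linarith)]
  linarith

lemma Bc_lower {a b : ℝ} (ha : 0 < a) (hb : b < 1) :
    ∃ B > 0, ∀ l ∈ Icc a b, ∀ u : S d, B ≤ Bc l (u : E d) := by
  rcases isEmpty_or_nonempty (S d) with hS | ⟨⟨e⟩⟩
  · exact ⟨1, one_pos, fun l _ u => hS.elim u⟩
  have hpos : 0 < (sig d).real (cap b (e : E d)) := by
    refine ENNReal.toReal_pos ((isOpen_cap b _).measure_ne_zero _ ⟨e, ?_⟩) (measure_ne_top _ _)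
    show b < _
    rw [inner_S_self]; exact hb
  refine ⟨a ^ d * (sig d).real (cap b (e : E d)), by positivity, fun l hl u => ?_⟩
  have h0 : 0 < l := ha.trans_le hl.1
  rw [Bc_eq l (w := (e : E d)) (by rw [norm_S, norm_S]), Bc_eq_hh h0]
  have hcc := cont_hh_inner l (e : E d)
  calc a ^ d * (sig d).real (cap b (e : E d)) = ∫ _ in cap b (e : E d), a ^ d ∂(sig d) := by
        rw [setIntegral_const, smul_eq_mul, mul_comm]
    _ ≤ ∫ v in cap b (e : E d), hh d (inner ℝ (e : E d) (v : E d) / l) ∂(sig d) := by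
        refine setIntegral_mono_on (integrable_const _).integrableOn
          (integrable_cont hcc).integrableOn (measurableSet_cap _ _) fun v _ => ?_
        have h2 : inner ℝ (e : E d) (v : E d) / l ≤ a⁻¹ := by
          rw [div_le_iff₀ h0, ← div_eq_inv_mul, le_div_iff₀ ha]
          have := (abs_le.1 (abs_inner_S e v)).2
          nlinarith [hl.1]
        refine le_trans ?_ (hh_anti h2)
        have h3 : 1 ≤ a⁻¹ := (one_le_inv₀ ha).2 (by linarith [hl.1, hl.2])
        rw [hh_of_ge (by linarith), inv_inv]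
    _ ≤ _ := by
        refine setIntegral_mono_set (integrable_cont hcc).integrableOn
          (Filter.Eventually.of_forall fun v => (hh_pos _).le) ?_
        exact HasSubset.Subset.eventuallyLE fun v hv => lt_of_le_of_lt hl.2 hv

lemma cap_equi (η : X d) {l ε : ℝ} {u u' : E d} (h : ‖u - u'‖ ≤ ε) :
    |(∫ v in cap l u, η v ∂(sig d)) - ∫ v in cap l u', η v ∂(sig d)|
      ≤ ‖η‖ * (sig d).real (band l ε u) := by
  rw [← integral_indicator (measurableSet_cap l u), ← integral_indicator (measurableSet_cap l u'),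
    ← integral_sub ((integrable_cont η.continuous).indicator (measurableSet_cap l u))
      ((integrable_cont η.continuous).indicator (measurableSet_cap l u'))]
  apply abs_integral_le_band
  · intro v
    have := abs_apply_le η v
    by_cases h1 : v ∈ cap l u <;> by_cases h2 : v ∈ cap l u' <;> simp [h1, h2, this]
  · intro v hv
    have hv1 : ε < |inner ℝ u (v : E d) - l| := not_le.1 hv
    have h3 : |inner ℝ u (v : E d) - inner ℝ u' (v : E d)| ≤ ε := by
      rw [← inner_sub_left]
      refine (abs_real_inner_le_norm _ _).trans ?_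
      rwa [norm_S, mul_one]
    have h4 : v ∈ cap l u ↔ v ∈ cap l u' := by
      simp only [cap, mem_ofPred_eq]
      rw [abs_le] at h3
      rcases lt_abs.1 hv1 with h5 | h5 <;> constructor <;> intro h6 <;> linarith
    by_cases h1 : v ∈ cap l u
    · rw [indicator_of_mem h1, indicator_of_mem (h4.1 h1), sub_self]
    · rw [indicator_of_notMem h1, indicator_of_notMem (fun h2 => h1 (h4.2 h2)), sub_self]

lemma abs_cap_le (η : X d) (l : ℝ) (u : E d) :
    |∫ v in cap l u, η v ∂(sig d)| ≤ ‖η‖ * (sig d).real univ := by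
  rw [← Real.norm_eq_abs]
  refine (norm_setIntegral_le_of_norm_le_const (measure_lt_top _ _)
    fun v _ => η.norm_coe_le_norm v).trans ?_
  exact mul_le_mul_of_nonneg_left (measureReal_mono (subset_univ _)) (norm_nonneg _)

lemma continuous_cap {l : ℝ} (h0 : 0 < l) (h1 : l < 1) (η : X d) :
    Continuous fun u : S d => ∫ v in cap l (u : E d), η v ∂(sig d) := by
  rw [Metric.continuous_iff]
  intro u θ hθ
  obtain ⟨ε, hε, hε'⟩ := band_small (d := d) (a := l) (b := l) h0.le h1
    (η := θ / (‖η‖ + 1) / 2) (by positivity)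
  refine ⟨ε, hε, fun u' hu' => ?_⟩
  rw [Real.dist_eq]
  have h2 : ‖(u' : E d) - (u : E d)‖ ≤ ε := by
    rw [← dist_eq_norm]; exact hu'.le
  refine (cap_equi η h2).trans_lt ?_
  have h3 := hε' l ⟨le_rfl, le_rfl⟩ u'
  have h4 : ‖η‖ * (θ / (‖η‖ + 1) / 2) < θ := by
    have : ‖η‖ * (θ / (‖η‖ + 1) / 2) = θ * (‖η‖ / (‖η‖ + 1)) / 2 := by ring
    rw [this]
    have h5 : ‖η‖ / (‖η‖ + 1) ≤ 1 := by
      rw [div_le_one (by positivity)]; linarith
    nlinarith
  exact lt_of_le_of_lt (mul_le_mul_of_nonneg_left h3 (norm_nonneg _)) h4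

lemma exists_T {l : ℝ} (h0 : 0 < l) (h1 : l < 1) : ∃ T : X d →L[ℝ] X d, IsT l T := by
  obtain ⟨B, hB, hB'⟩ := Bc_lower (d := d) (a := l) (b := l) h0 h1
  have hBc : Continuous fun u : S d => Bc l (u : E d) := by
    rcases isEmpty_or_nonempty (S d) with hS | ⟨⟨e⟩⟩
    · exact continuous_of_discreteTopology
    have : (fun u : S d => Bc l (u : E d)) = fun _ => Bc l (e : E d) := by
      ext u; exact Bc_eq l (by rw [norm_S, norm_S])
    rw [this]; exact continuous_const
  have hB0 : ∀ u : S d, 0 < Bc l (u : E d) := fun u => hB.trans_le (hB' l ⟨le_rfl, le_rfl⟩ u)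
  let L : X d →ₗ[ℝ] X d :=
    { toFun := fun η => ⟨fun u => (∫ v in cap l (u : E d), η v ∂(sig d)) / Bc l (u : E d),
        (continuous_cap h0 h1 η).div hBc fun u => (hB0 u).ne'⟩
      map_add' := by
        intro η ζ
        ext u
        simp only [ContinuousMap.add_apply, ContinuousMap.coe_mk]
        rw [integral_add (integrable_cont η.continuous).integrableOn
          (integrable_cont ζ.continuous).integrableOn, add_div]
      map_smul' := by
        intro c η
        ext u
        simp only [ContinuousMap.smul_apply, ContinuousMap.coe_mk, smul_eq_mul, RingHom.id_apply]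
        rw [integral_const_mul, mul_div_assoc] }
  refine ⟨L.mkContinuous ((sig d).real univ / B) fun η => ?_, fun η u => rfl⟩
  refine (ContinuousMap.norm_le _ (by positivity)).2 fun u => ?_
  show |(∫ v in cap l (u : E d), η v ∂(sig d)) / Bc l (u : E d)| ≤ _
  rw [abs_div, abs_of_pos (hB0 u), div_mul_eq_mul_div, mul_comm]
  exact div_le_div₀ (by positivity) (abs_cap_le η l _) hB (hB' l ⟨le_rfl, le_rfl⟩ u)

end Pool.Agent.Lib.MP_5b78b3_gt
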