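import Mathlib
import Pool.Agent.Lib.MP_5b78b3_gt.Ana1

/-! The rescaled floating body map is strictly differentiable at the ball. -/

namespace Pool.Agent.Lib.MP_5b78b3_gt

open MeasureTheory Metric Set Filter Topology

variable {d : ℕ}

lemma band_mono (l : ℝ) {ε ε' : ℝ} (h : ε ≤ ε') (u : E d) :
    (sig d).real (band l ε u) ≤ (sig d).real (band l ε' u) :=
  measureReal_mono (fun _ hv => le_trans hv h) (measure_ne_top _ _)

/-- uniform monotonicity data on a parameter interval -/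
structure Ctx (d : ℕ) (a b B r : ℝ) : Prop where
  hd : 0 < d
  ha : 0 < a
  hb : b < 1
  hB : 0 < B
  hr : 0 < r
  hr4 : r ≤ 1 / 4
  low : ∀ l ∈ Icc a b, ∀ u : S d, B ≤ Bc l (u : E d)
  slope : ∀ l ∈ Icc a b, ∀ (u : S d) (p : X d) (k k' : ℝ), ‖p - 1‖ ≤ r → |k - 1| ≤ r →
    |k' - 1| ≤ r → k' ≤ k → (k - k') * B / 2 ≤ FF l p k' (u : E d) - FF l p k (u : E d)

lemma exists_Ctx (hd : 0 < d) {a b : ℝ} (ha : 0 < a) (hb : b < 1) : ∃ B r, Ctx d a b B r := by
  obtain ⟨B, hB, hB'⟩ := Bc_lower (d := d) ha hb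
  obtain ⟨ε, hε, hε'⟩ := band_small (d := d) ha.le hb (η := B / 2 / 2 ^ d) (by positivity)
  set ε1 := min ε (1 / 2) with hε1
  have h1 : 0 < ε1 := lt_min hε (by norm_num)
  have h2 : (1 : ℝ) ≤ 2 ^ d := one_le_pow₀ (by norm_num)
  refine ⟨B, ε1 / 2 / (1 + 2 ^ d), hd, ha, hb, hB, by positivity, ?_, hB', ?_⟩
  · rw [div_le_iff₀ (by positivity)]
    have := min_le_right ε (1 / 2)
    linarith
  · intro l hl u p k k' hp hk hk' hkk
    have h3 := FF_diff hd (ha.trans_le hl.1) (hl.2.trans_lt hb) h1.le (min_le_right _ _)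
      (le_of_eq (div_mul_cancel₀ _ (by positivity))) hp hp hk hk' (u : E d)
    have h4 : (sig d).real (band l ε1 (u : E d)) ≤ B / 2 / 2 ^ d :=
      le_trans (band_mono l (min_le_left _ _) _) (hε' l hl u)
    simp only [sub_self, ContinuousMap.zero_apply, integral_zero, norm_zero, zero_add,
      zero_sub] at h3
    rw [abs_of_nonneg (sub_nonneg.2 hkk)] at h3
    have h5 : 2 ^ d * (k - k') * (sig d).real (band l ε1 (u : E d)) ≤ (k - k') * B / 2 := by
      refine (mul_le_mul_of_nonneg_left h4 (by have := sub_nonneg.2 hkk; positivity)).trans ?_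
      apply le_of_eq
      field_simp
    have h6 := (abs_le.1 (h3.trans h5)).2
    nlinarith [mul_le_mul_of_nonneg_left (hB' l hl u) (sub_nonneg.2 hkk)]

lemma kk_spec {a b B r : ℝ} (c : Ctx d a b B r) {l ρ : ℝ} (hl : l ∈ Icc a b) (hρ0 : 0 ≤ ρ)
    (hρ : ρ < r) {p : X d} (hp : ‖p - 1‖ ≤ r) (hp' : ‖p - 1‖ * (sig d).real univ ≤ ρ * B / 2)
    (u : S d) :
    |kk l p (u : E d) - 1| ≤ ρ ∧ FF l p (kk l p u) (u : E d) = FF l 1 1 (u : E d) ∧
      ∀ k < kk l p (u : E d), FF l 1 1 (u : E d) < FF l p k (u : E d) := by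
  have hr := c.hr
  have hB := c.hB
  have h11 : ‖(1 : X d) - 1‖ ≤ r := by simpa using hr.le
  have e1 : |1 + ρ - 1| ≤ r := by rw [add_sub_cancel_left, abs_of_nonneg hρ0]; exact hρ.le
  have e2 : |1 - ρ - 1| ≤ r := by rw [sub_sub_cancel_left, abs_neg, abs_of_nonneg hρ0]; exact hρ.le
  have e3 : |(1 : ℝ) - 1| ≤ r := by simpa using hr.le
  have h1 : FF l p (1 + ρ) (u : E d) ≤ FF l 1 1 (u : E d) := by
    have := c.slope l hl u 1 (1 + ρ) 1 h11 e1 e3 (by linarith)
    have := (abs_le.1 (FF_lip l p 1 (1 + ρ) (u : E d))).2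
    linarith
  have h2 : FF l 1 1 (u : E d) ≤ FF l p (1 - ρ) (u : E d) := by
    have := c.slope l hl u 1 1 (1 - ρ) h11 e3 e2 (by linarith)
    have := (abs_le.1 (FF_lip l p 1 (1 - ρ) (u : E d))).1
    linarith
  have hc : Continuous fun k : ℝ => FF l p k (u : E d) :=
    FF_cont p continuous_const (fun _ => (c.ha.trans_le hl.1).ne') continuous_id continuous_const
  obtain ⟨k0, hk0, hk0'⟩ := intermediate_value_Icc' (by linarith : 1 - ρ ≤ 1 + ρ)
    hc.continuousOn ⟨h1, h2⟩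
  have hk0'' : FF l p k0 (u : E d) = FF l 1 1 (u : E d) := hk0'
  have e4 : |k0 - 1| ≤ ρ := abs_le.2 ⟨by linarith [hk0.1], by linarith [hk0.2]⟩
  have h3 : ∀ k < k0, FF l 1 1 (u : E d) < FF l p k (u : E d) := by
    intro k hk
    have h4 : max k (1 - r) < k0 := max_lt hk (by linarith [hk0.1])
    have h5 : |max k (1 - r) - 1| ≤ r :=
      abs_le.2 ⟨by linarith [le_max_right k (1 - r)], by linarith [hk0.2]⟩
    have h6 := c.slope l hl u p k0 (max k (1 - r)) hp (e4.trans hρ.le) h5 h4.le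
    have h7 : FF l p (max k (1 - r)) (u : E d) ≤ FF l p k (u : E d) :=
      FF_anti l p (u : E d) (le_max_left _ _)
    have h8 : 0 < (k0 - max k (1 - r)) * B / 2 := by have := sub_pos.2 h4; positivity
    linarith
  have h9 : kk l p (u : E d) = k0 :=
    IsLeast.csInf_eq ⟨hk0''.le, fun k hk => not_lt.1 fun h => absurd (h3 k h) (not_lt.2 hk)⟩
  rw [h9]
  exact ⟨e4, hk0'', h3⟩

lemma kk_cont {a b B r : ℝ} (c : Ctx d a b B r) {ρ : ℝ} (hρ0 : 0 ≤ ρ)
    (hρ : ρ < r) {p : X d} (hp : ‖p - 1‖ ≤ r) (hp' : ‖p - 1‖ * (sig d).real univ ≤ ρ * B / 2) :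
    Continuous fun z : Icc a b × S d => kk (z.1 : ℝ) p (z.2 : E d) := by
  have hB := c.hB
  rw [continuous_iff_continuousAt]
  intro z0
  set k0 := kk (z0.1 : ℝ) p (z0.2 : E d) with hk0
  have hl0 : ∀ z : Icc a b × S d, (z.1 : ℝ) ≠ 0 := fun z => (c.ha.trans_le z.1.2.1).ne'
  have hc : Continuous fun z : Icc a b × S d =>
      2 / B * |FF (z.1 : ℝ) 1 1 (z.2 : E d) - FF (z.1 : ℝ) p k0 (z.2 : E d)| := by
    have h1 : Continuous fun z : Icc a b × S d => FF (z.1 : ℝ) (1 : X d) 1 (z.2 : E d) :=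
      FF_cont 1 (by fun_prop) hl0 continuous_const (by fun_prop)
    have h2 : Continuous fun z : Icc a b × S d => FF (z.1 : ℝ) p k0 (z.2 : E d) :=
      FF_cont p (by fun_prop) hl0 continuous_const (by fun_prop)
    fun_prop
  have s0 := kk_spec c z0.1.2 hρ0 hρ hp hp' z0.2
  have ht := hc.tendsto z0
  rw [hk0, s0.2.1, sub_self, abs_zero, mul_zero, ← hk0] at ht
  rw [ContinuousAt, tendsto_iff_dist_tendsto_zero]
  refine squeeze_zero (fun _ => dist_nonneg) (fun z => ?_) ht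
  have s1 := kk_spec c z.1.2 hρ0 hρ hp hp' z.2
  rw [Real.dist_eq, ← s1.2.1, ← hk0, div_mul_eq_mul_div, le_div_iff₀ hB]
  rcases le_total (kk (z.1 : ℝ) p (z.2 : E d)) k0 with h | h
  · have := c.slope _ z.1.2 z.2 p _ _ hp (s0.1.trans hρ.le) (s1.1.trans hρ.le) h
    rw [abs_of_nonpos (by linarith)]
    have h' := le_abs_self
      (FF (z.1 : ℝ) p (kk (z.1 : ℝ) p (z.2 : E d)) (z.2 : E d) - FF (z.1 : ℝ) p k0 (z.2 : E d))
    linarith
  · have := c.slope _ z.1.2 z.2 p _ _ hp (s1.1.trans hρ.le) (s0.1.trans hρ.le) h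
    rw [abs_of_nonneg (by linarith)]
    have h' := neg_abs_le
      (FF (z.1 : ℝ) p (kk (z.1 : ℝ) p (z.2 : E d)) (z.2 : E d) - FF (z.1 : ℝ) p k0 (z.2 : E d))
    linarith

lemma HH_eq (k : S d → ℝ) (v : S d) :
    HH k v = sInf ((fun u : S d => k u * hh d (inner ℝ (u : E d) (v : E d))) '' univ) := by
  rw [image_univ]; rfl

lemma HH_spec {k : S d → ℝ} (hk : Continuous k) (v : S d) :
    ∃ u : S d, HH k v = k u * hh d (inner ℝ (u : E d) (v : E d)) ∧
      ∀ w : S d, HH k v ≤ k w * hh d (inner ℝ (w : E d) (v : E d)) := by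
  have hc : Continuous fun u : S d => k u * hh d (inner ℝ (u : E d) (v : E d)) :=
    hk.mul (hh_cont.comp (by fun_prop))
  obtain ⟨u, -, hu⟩ := isCompact_univ.exists_isMinOn ⟨v, mem_univ v⟩ hc.continuousOn
  have h : HH k v = k u * hh d (inner ℝ (u : E d) (v : E d)) :=
    IsLeast.csInf_eq ⟨⟨u, rfl⟩, by rintro _ ⟨w, rfl⟩; exact hu (mem_univ w)⟩
  exact ⟨u, h, fun w => h ▸ hu (mem_univ w)⟩

lemma HH_cont {Z : Type} [TopologicalSpace Z] {k : Z → S d → ℝ}
    (hk : Continuous fun z : Z × S d => k z.1 z.2) :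
    Continuous fun z : Z × S d => HH (k z.1) z.2 := by
  simp only [HH_eq]
  refine isCompact_univ.continuous_sInf (f := fun (z : Z × S d) (u : S d) =>
    k z.1 u * hh d (inner ℝ (u : E d) (z.2 : E d))) ?_
  have h1 : Continuous fun x : (Z × S d) × S d => k x.1.1 x.2 :=
    hk.comp (f := fun x : (Z × S d) × S d => (x.1.1, x.2)) (by fun_prop)
  have h2 : Continuous fun x : (Z × S d) × S d => hh d (inner ℝ (x.2 : E d) (x.1.2 : E d)) :=
    hh_cont.comp (by fun_prop)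
  exact h1.mul h2

lemma HH_min_loc (hd : 0 < d) {k : S d → ℝ} {ρ ε : ℝ} (hρ : ρ ≤ 1 / 3) (hε : ε ≤ 1 / 2)
    (hρε : 3 * ρ < ε) (hk : ∀ u, |k u - 1| ≤ ρ) {u v : S d}
    (h : k u * hh d (inner ℝ (u : E d) (v : E d)) ≤ k v * hh d (inner ℝ (v : E d) (v : E d))) :
    hh d (inner ℝ (u : E d) (v : E d)) ≤ 1 + 3 * ρ ∧ 1 - ε < inner ℝ (u : E d) (v : E d) := by
  rw [inner_S_self, hh_one, mul_one] at h
  have h1 := abs_le.1 (hk u)
  have h2 := abs_le.1 (hk v)
  have h3 := hh_pos (d := d) (inner ℝ (u : E d) (v : E d))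
  have h0 : 0 ≤ ρ := (abs_nonneg _).trans (hk u)
  have h4 : hh d (inner ℝ (u : E d) (v : E d)) ≤ 1 + 3 * ρ := by
    by_contra h5
    push Not at h5
    nlinarith [mul_le_mul_of_nonneg_right (by linarith : 1 - ρ ≤ k u) h3.le]
  refine ⟨h4, ?_⟩
  by_contra h5
  have := hh_gap_low hd (by linarith) hε (not_lt.1 h5)
  linarith

lemma Psi_apply {a b B r : ℝ} (c : Ctx d a b B r) {l ρ : ℝ} (hl : l ∈ Icc a b) (hρ0 : 0 ≤ ρ)
    (hρ : ρ < r) {p : X d} (hp : ‖p - 1‖ ≤ r) (hp' : ‖p - 1‖ * (sig d).real univ ≤ ρ * B / 2) :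
    Continuous (fun u : S d => kk l p (u : E d)) ∧
      ∀ v, Psi l p v = HH (fun u : S d => kk l p (u : E d)) v := by
  have h := kk_cont c hρ0 hρ hp hp'
  have h' := HH_cont (k := fun (z : Icc a b) (u : S d) => kk (z : ℝ) p (u : E d)) h
  refine ⟨h.comp (f := fun u : S d => ((⟨l, hl⟩ : Icc a b), u)) (by fun_prop), fun v => ?_⟩
  exact ContinuousMap.mkD_apply_of_continuous
    (h'.comp (f := fun u : S d => ((⟨l, hl⟩ : Icc a b), u)) (by fun_prop))

lemma Psi_one {a b B r : ℝ} (c : Ctx d a b B r) {l : ℝ} (hl : l ∈ Icc a b) :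
    Psi l (1 : X d) = 1 := by
  have hp : ‖(1 : X d) - 1‖ ≤ r := by simpa using c.hr.le
  have hp' : ‖(1 : X d) - 1‖ * (sig d).real univ ≤ 0 * B / 2 := by simp
  obtain ⟨h1, h2⟩ := Psi_apply c hl le_rfl c.hr hp hp'
  have h3 : ∀ u : S d, kk l (1 : X d) (u : E d) = 1 := fun u =>
    sub_eq_zero.1 (abs_nonpos_iff.1 (kk_spec c hl le_rfl c.hr hp hp' u).1)
  ext v
  obtain ⟨u, hu, hu'⟩ := HH_spec h1 v
  rw [h2, ContinuousMap.one_apply]
  apply le_antisymm
  · have := hu' v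
    rwa [h3, inner_S_self, hh_one, mul_one] at this
  · rw [hu, h3, one_mul]
    exact one_le_hh (abs_le.1 (abs_inner_S u v)).2

lemma Psi_cont {a b B r : ℝ} (c : Ctx d a b B r) :
    ∃ r1 > 0, ∀ p : X d, ‖p - 1‖ ≤ r1 → ContinuousOn (fun l => Psi l p) (Icc a b) := by
  have hr := c.hr
  have hB := c.hB
  have hσ : 0 ≤ (sig d).real univ := measureReal_nonneg
  refine ⟨min r (r / 2 * B / 2 / ((sig d).real univ + 1)), by positivity, fun p hp => ?_⟩
  have hp1 : ‖p - 1‖ ≤ r := hp.trans (min_le_left _ _)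
  have hp2 : ‖p - 1‖ * (sig d).real univ ≤ r / 2 * B / 2 := by
    have := hp.trans (min_le_right _ _)
    rw [le_div_iff₀ (by positivity)] at this
    nlinarith [norm_nonneg (p - 1)]
  have h := kk_cont c (by positivity) (half_lt_self hr) hp1 hp2
  have h' := HH_cont (k := fun (z : Icc a b) (u : S d) => kk (z : ℝ) p (u : E d)) h
  rw [continuousOn_iff_continuous_restrict]
  have h2 := (ContinuousMap.curry ⟨_, h'⟩).continuous
  convert h2 using 1
  ext l v
  exact (Psi_apply c l.2 (by positivity) (half_lt_self hr) hp1 hp2).2 v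

lemma Psi_inv (l : ℝ) (p : X d) (g : E d ≃ₗᵢ[ℝ] E d) (hp : p.comp (rot g) = p) :
    (Psi l p).comp (rot g) = Psi l p := by
  have h1 : ∀ u : E d, kk l p (g u) = kk l p u := by
    intro u
    unfold kk
    rw [FF_one_eq l (g.norm_map u)]
    simp only [← FF_rot, hp]
  have h2 : ∀ v, HH (fun u : S d => kk l p (u : E d)) (rot g v)
      = HH (fun u : S d => kk l p (u : E d)) v := by
    intro v
    unfold HH
    refine ((rotH g).toEquiv.iInf_congr fun u => ?_).symm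
    show kk l p (g u) * hh d (inner ℝ (g u) (g v)) = _
    rw [h1, g.inner_map_map]
  by_cases h : Continuous (HH fun u : S d => kk l p (u : E d))
  · ext v
    unfold Psi
    rw [ContinuousMap.comp_apply, ContinuousMap.mkD_apply_of_continuous h,
      ContinuousMap.mkD_apply_of_continuous h, h2]
  · unfold Psi
    rw [ContinuousMap.mkD_of_not_continuous h]
    rfl

theorem strict_diff {a b B r : ℝ} (c : Ctx d a b B r) {θ : ℝ} (hθ : 0 < θ) :
    ∃ r1 > 0, ∀ l ∈ Icc a b, ∀ T : X d →L[ℝ] X d, IsT l T → ∀ p p' : X d,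
      ‖p - 1‖ ≤ r1 → ‖p' - 1‖ ≤ r1 → ‖Psi l p - Psi l p' - T (p - p')‖ ≤ θ * ‖p - p'‖ := by
  have hr := c.hr
  have hB := c.hB
  have hσ : 0 ≤ (sig d).real univ := measureReal_nonneg
  set M := (sig d).real univ / B with hM
  have hM0 : 0 ≤ M := by positivity
  have h2d : (1 : ℝ) ≤ 2 ^ d := one_le_pow₀ (by norm_num)
  set q : ℝ := 2 ^ d with hq
  set β := min (1 / (2 * q)) (θ / 2 / (2 + q * (2 * (M + 1)))) with hβ
  have hβ0 : 0 < β := by positivity
  have hβ1 : β * q ≤ 1 / 2 := by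
    have := min_le_left (1 / (2 * q)) (θ / 2 / (2 + q * (2 * (M + 1))))
    rw [← hβ, le_div_iff₀ (by positivity)] at this
    linarith
  have hβ2 : β * (2 + q * (2 * (M + 1))) ≤ θ / 2 := by
    have := min_le_right (1 / (2 * q)) (θ / 2 / (2 + q * (2 * (M + 1))))
    rwa [← hβ, le_div_iff₀ (by positivity)] at this
  obtain ⟨ε0, hε0, hε0'⟩ := band_small (d := d) c.ha.le c.hb (η := β * B) (by positivity)
  set ε := min ε0 (1 / 2) with hε
  have hε1 : 0 < ε := lt_min hε0 (by norm_num)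
  have hε2 : ε ≤ 1 / 2 := min_le_right _ _
  have hband : ∀ l ∈ Icc a b, ∀ u : S d, (sig d).real (band l ε (u : E d)) ≤ β * B :=
    fun l hl u => le_trans (band_mono l (min_le_left _ _) _) (hε0' l hl u)
  set ρ := min (min (r / 2) (ε / 2 / (1 + q))) (min (ε ^ 2 / 8) (θ / 2 / (6 * (M + 1)))) with hρ
  have hρ0 : 0 < ρ := by positivity
  have hρ1 : ρ < r := lt_of_le_of_lt ((min_le_left _ _).trans (min_le_left _ _)) (half_lt_self hr)
  have hρ2 : ρ * (1 + q) ≤ ε / 2 := by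
    have : ρ ≤ ε / 2 / (1 + q) := (min_le_left _ _).trans (min_le_right _ _)
    rwa [le_div_iff₀ (by positivity)] at this
  have hρ3 : ρ ≤ ε ^ 2 / 8 := (min_le_right _ _).trans (min_le_left _ _)
  have hρ4 : ρ * (6 * (M + 1)) ≤ θ / 2 := by
    have : ρ ≤ θ / 2 / (6 * (M + 1)) := (min_le_right _ _).trans (min_le_right _ _)
    rwa [le_div_iff₀ (by positivity)] at this
  refine ⟨min ρ (ρ * B / 2 / ((sig d).real univ + 1)), by positivity, ?_⟩
  intro l hl T hT p p' hp hp'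
  have h0 : 0 < l := c.ha.trans_le hl.1
  have h1 : l < 1 := hl.2.trans_lt c.hb
  have aux : ∀ q : X d, ‖q - 1‖ ≤ min ρ (ρ * B / 2 / ((sig d).real univ + 1)) →
      ‖q - 1‖ ≤ ρ ∧ ‖q - 1‖ * (sig d).real univ ≤ ρ * B / 2 := by
    intro q hq
    refine ⟨hq.trans (min_le_left _ _), ?_⟩
    have := hq.trans (min_le_right _ _)
    rw [le_div_iff₀ (by positivity)] at this
    nlinarith [norm_nonneg (q - 1)]
  obtain ⟨hp1, hp2⟩ := aux p hp
  obtain ⟨hp1', hp2'⟩ := aux p' hp'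
  have s := kk_spec c hl hρ0.le hρ1 (hp1.trans hρ1.le) hp2
  have s' := kk_spec c hl hρ0.le hρ1 (hp1'.trans hρ1.le) hp2'
  obtain ⟨hc, hP⟩ := Psi_apply c hl hρ0.le hρ1 (hp1.trans hρ1.le) hp2
  obtain ⟨hc', hP'⟩ := Psi_apply c hl hρ0.le hρ1 (hp1'.trans hρ1.le) hp2'
  set N := ‖p - p'‖ with hN
  have hN0 : 0 ≤ N := norm_nonneg _
  have hBu : ∀ u : S d, B ≤ Bc l (u : E d) := c.low l hl
  have hTb : ∀ u : S d, |T (p - p') u| ≤ M * N := by
    intro u
    rw [hT, abs_div, abs_of_pos (hB.trans_le (hBu u)), hM, div_mul_eq_mul_div, mul_comm]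
    exact div_le_div₀ (by positivity) (abs_cap_le _ l _) hB (hBu u)
  have hTe : ∀ u v : S d, ‖(u : E d) - (v : E d)‖ ≤ ε →
      |T (p - p') u - T (p - p') v| ≤ β * N := by
    intro u v huv
    rw [hT, hT, Bc_eq l (u := (v : E d)) (w := (u : E d)) (by rw [norm_S, norm_S]), ← sub_div,
      abs_div, abs_of_pos (hB.trans_le (hBu u)), div_le_iff₀ (hB.trans_le (hBu u))]
    refine (cap_equi (p - p') huv).trans ?_
    calc N * (sig d).real (band l ε (u : E d)) ≤ N * (β * B) :=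
          mul_le_mul_of_nonneg_left (hband l hl u) hN0
      _ ≤ N * (β * Bc l (u : E d)) := by gcongr; exact hBu u
      _ = _ := by ring
  have step1 : ∀ u : S d, |kk l p (u : E d) - kk l p' (u : E d)| ≤ 2 * (M + 1) * N ∧
      |kk l p (u : E d) - kk l p' (u : E d) - T (p - p') u| ≤ β * (1 + q * (2 * (M + 1))) * N := by
    intro u
    have h3 := FF_diff c.hd h0 h1 hε1.le hε2 hρ2 hp1 hp1' (s u).1 (s' u).1 (u : E d)
    rw [(s u).2.1, (s' u).2.1, sub_self, zero_sub, abs_neg] at h3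
    set D := kk l p (u : E d) - kk l p' (u : E d) with hD
    have hBu0 := hB.trans_le (hBu u)
    have h4 : |D - T (p - p') u| ≤ β * (N + q * |D|) := by
      have e : D - T (p - p') u = -((∫ v in cap l (u : E d), (p - p') v ∂(sig d))
          - D * Bc l (u : E d)) / Bc l (u : E d) := by
        rw [hT]; field_simp; ring
      rw [e, abs_div, abs_neg, abs_of_pos hBu0, div_le_iff₀ hBu0]
      refine h3.trans ?_
      calc (N + q * |D|) * (sig d).real (band l ε (u : E d)) ≤ (N + q * |D|) * (β * B) :=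
            mul_le_mul_of_nonneg_left (hband l hl u) (by positivity)
        _ ≤ (N + q * |D|) * (β * Bc l (u : E d)) := by gcongr; exact hBu u
        _ = _ := by ring
    have h5 : |D| ≤ |D - T (p - p') u| + |T (p - p') u| := by
      simpa using abs_add_le (D - T (p - p') u) (T (p - p') u)
    have hβ3 : β ≤ 1 := by nlinarith
    have h6 : |D| ≤ 2 * (M + 1) * N := by
      have := hTb u
      nlinarith [abs_nonneg D, mul_le_mul_of_nonneg_right hβ1 (abs_nonneg D),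
        mul_le_mul_of_nonneg_right hβ3 hN0]
    refine ⟨h6, h4.trans ?_⟩
    calc β * (N + q * |D|) ≤ β * (N + q * (2 * (M + 1) * N)) := by gcongr
      _ = _ := by ring
  have step2 : ∀ u v : S d, hh d (inner ℝ (u : E d) (v : E d)) ≤ 1 + 3 * ρ →
      1 - ε ^ 2 / 2 < inner ℝ (u : E d) (v : E d) →
      |(kk l p (u : E d) - kk l p' (u : E d)) * hh d (inner ℝ (u : E d) (v : E d)) - T (p - p') v|
        ≤ θ * N := by
    intro u v h3 h4
    have h5 : ‖(u : E d) - (v : E d)‖ ≤ ε := by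
      apply le_of_sq_le_sq _ hε1.le
      rw [norm_sub_sq_real, norm_S, norm_S]
      linarith
    have h6 := one_le_hh (d := d) (abs_le.1 (abs_inner_S u v)).2
    set D := kk l p (u : E d) - kk l p' (u : E d) with hD
    set h := hh d (inner ℝ (u : E d) (v : E d))
    have e : D * h - T (p - p') v
        = D * (h - 1) + (D - T (p - p') u) + (T (p - p') u - T (p - p') v) := by ring
    rw [e]
    have h7 : |D * (h - 1)| ≤ 2 * (M + 1) * N * (3 * ρ) := by
      rw [abs_mul, abs_of_nonneg (by linarith : 0 ≤ h - 1)]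
      exact mul_le_mul (step1 u).1 (by linarith) (by linarith) (by positivity)
    refine (abs_add_three _ _ _).trans ?_
    have := (step1 u).2
    have := hTe u v h5
    nlinarith [mul_le_mul_of_nonneg_right hβ2 hN0, mul_le_mul_of_nonneg_right hρ4 hN0]
  refine (ContinuousMap.norm_le _ (by positivity)).2 fun v => ?_
  rw [Real.norm_eq_abs, ContinuousMap.sub_apply, ContinuousMap.sub_apply, hP, hP']
  obtain ⟨u, hu, hu2⟩ := HH_spec hc v
  obtain ⟨u', hu', hu2'⟩ := HH_spec hc' v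
  have hε3 : ε ^ 2 / 2 ≤ 1 / 2 := by nlinarith
  have hρ5 : ρ ≤ 1 / 3 := by nlinarith
  have hρ6 : 3 * ρ < ε ^ 2 / 2 := by nlinarith [pow_pos hε1 2]
  have l1 := HH_min_loc c.hd hρ5 hε3 hρ6 (fun w => (s w).1) (hu ▸ hu2 v)
  have l2 := HH_min_loc c.hd hρ5 hε3 hρ6 (fun w => (s' w).1) (hu' ▸ hu2' v)
  have t1 := abs_le.1 (step2 u v l1.1 l1.2)
  have t2 := abs_le.1 (step2 u' v l2.1 l2.2)
  have t3 := hu2 u'
  have t4 := hu2' u
  rw [abs_le]
  constructor
  · nlinarith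
  · nlinarith

end Pool.Agent.Lib.MP_5b78b3_gt
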