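import Mathlib
import Pool.Agent.Lib.MP_5b78b3_gt.Base

/-! Divergence identity: cap integrals of `(v 0 + i v 1) ^ (k + 1)` as cone integrals. -/

namespace Pool.Agent.Lib.MP_5b78b3_gt

open MeasureTheory Metric Set Filter Topology

variable {d : ℕ}

/-- integration by parts of a Lipschitz function vanishing outside the unit ball against a `C¹`
function -/
lemma capdiv_ibp {ψ f f' : E d → ℝ} {C : NNReal} (hψ : LipschitzWith C ψ)
    (hψ0 : ∀ y, 1 ≤ ‖y‖ → ψ y = 0) (hf : ContDiff ℝ 1 f) {v : E d}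
    (hf' : ∀ y, HasLineDerivAt ℝ f (f' y) y v) :
    Integrable (fun y => lineDeriv ℝ ψ y v * f y) ∧
      ∫ y, lineDeriv ℝ ψ y v * f y = -∫ y, f' y * ψ y := by
  let b : ContDiffBump (0 : E d) := ⟨2, 3, by norm_num, by norm_num⟩
  have hg : ContDiff ℝ 1 fun y => b y * f y := b.contDiff.mul hf
  have hc : HasCompactSupport fun y => b y * f y := b.hasCompactSupport.mul_right
  obtain ⟨D, hD⟩ := ContDiff.lipschitzWith_of_hasCompactSupport hc hg (by simp)
  have h1 : (fun y => lineDeriv ℝ ψ y v * f y) = fun y => lineDeriv ℝ ψ y v * (b y * f y) := by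
    ext y
    rcases le_or_gt ‖y‖ 2 with h | h
    · rw [b.one_of_mem_closedBall (by simpa using h), one_mul]
    · have : ψ =ᶠ[𝓝 y] fun _ => 0 := by
        filter_upwards [(continuous_norm.tendsto y).eventually
          (lt_mem_nhds (show (1 : ℝ) < ‖y‖ by linarith))] with z hz using hψ0 z hz.le
      rw [this.lineDeriv_eq]
      simp [lineDeriv]
  refine ⟨?_, ?_⟩
  · rw [h1]
    exact (hg.continuous.integrable_of_hasCompactSupport hc).mul_of_top_right
      (hψ.memLp_lineDeriv v)
  · rw [h1, hψ.integral_lineDeriv_mul_eq hD hc v, ← integral_neg]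
    refine integral_congr_ae (Eventually.of_forall fun y => ?_)
    rcases lt_or_ge ‖y‖ 2 with h | h
    · have : (fun y => b y * f y) =ᶠ[𝓝 y] f := by
        filter_upwards [(continuous_norm.tendsto y).eventually (gt_mem_nhds h)] with z hz
        rw [b.one_of_mem_closedBall (by simpa using hz.le), one_mul]
      simp only
      rw [this.lineDeriv_eq, lineDeriv_neg, (hf' y).lineDeriv, neg_mul]
    · simp [hψ0 y (by linarith)]

lemma capdiv_norm {y : E d} (hy : y ≠ 0) (v : E d) :
    HasLineDerivAt ℝ (fun z : E d => ‖z‖) (inner ℝ y v / ‖y‖) y v := by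
  have h1 : HasDerivAt (fun t : ℝ => y + t • v) v 0 := by
    simpa using ((hasDerivAt_id (0 : ℝ)).smul_const v).const_add y
  have h2 := h1.norm_sq.sqrt (by simpa using hy)
  simp only [Real.sqrt_sq (norm_nonneg _), zero_smul, add_zero] at h2
  rw [mul_div_mul_left _ _ two_ne_zero] at h2
  exact h2

lemma capdiv_inner (e y v : E d) :
    HasLineDerivAt ℝ (fun z : E d => (inner ℝ e z : ℝ)) (inner ℝ e v) y v :=
  (innerSL ℝ e).hasFDerivAt.hasLineDerivAt v

/-- the Lipschitz test function -/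
noncomputable def capdivPsi (l : ℝ) (e : E d) (y : E d) : ℝ :=
  max (min 1 (inner ℝ e y / l) - ‖y‖) 0

lemma capdiv_lip (l : ℝ) (e : E d) : ∃ C, LipschitzWith C (capdivPsi l e) := by
  have h1 : LipschitzWith _ fun y : E d => (l⁻¹ • innerSL ℝ e) y := (l⁻¹ • innerSL ℝ e).lipschitz
  have h2 : (fun y : E d => (l⁻¹ • innerSL ℝ e) y) = fun y : E d => inner ℝ e y / l := by
    ext y
    simp [div_eq_inv_mul]
  rw [h2] at h1
  exact ⟨_, ((h1.const_min 1).sub lipschitzWith_one_norm).max_const 0⟩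

lemma capdiv_deriv {l : ℝ} (h0 : 0 < l) (e v : E d) {y : E d} (h1 : ‖y‖ ≠ 1)
    (h2 : inner ℝ e y ≠ l) (h3 : inner ℝ e y ≠ l * ‖y‖) :
    lineDeriv ℝ (capdivPsi l e) y v =
      if l * ‖y‖ < inner ℝ e y ∧ ‖y‖ < 1 then
        (if inner ℝ e y < l then inner ℝ e v / l else 0) - inner ℝ y v / ‖y‖ else 0 := by
  have hc : Continuous fun z : E d => min 1 (inner ℝ e z / l) - ‖z‖ := by fun_prop
  have hi : Continuous fun z : E d => (inner ℝ e z : ℝ) := by fun_prop
  split_ifs with h h'
  · have hy : y ≠ 0 := by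
      rintro rfl
      simp at h
    have hp : 0 < min 1 (inner ℝ e y / l) - ‖y‖ := by
      rw [sub_pos, lt_min_iff, lt_div_iff₀ h0]
      exact ⟨h.2, by linarith [h.1]⟩
    have : capdivPsi l e =ᶠ[𝓝 y] fun z => inner ℝ e z / l - ‖z‖ := by
      filter_upwards [(hc.tendsto y).eventually (lt_mem_nhds hp),
        (hi.tendsto y).eventually (gt_mem_nhds h')] with z hz hz'
      rw [capdivPsi, max_eq_left hz.le, min_eq_right ((div_le_one h0).2 hz'.le)]
    rw [this.lineDeriv_eq]
    exact HasLineDerivAt.lineDeriv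
      (HasDerivAt.sub (HasDerivAt.div_const (capdiv_inner e y v) l) (capdiv_norm hy v))
  · have hy : y ≠ 0 := by
      rintro rfl
      simp at h
    have hp : 0 < min 1 (inner ℝ e y / l) - ‖y‖ := by
      rw [sub_pos, lt_min_iff, lt_div_iff₀ h0]
      exact ⟨h.2, by linarith [h.1]⟩
    have h'' : l < inner ℝ e y := lt_of_le_of_ne (not_lt.1 h') h2.symm
    have : capdivPsi l e =ᶠ[𝓝 y] fun z => 1 - ‖z‖ := by
      filter_upwards [(hc.tendsto y).eventually (lt_mem_nhds hp),
        (hi.tendsto y).eventually (lt_mem_nhds h'')] with z hz hz'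
      rw [capdivPsi, max_eq_left hz.le, min_eq_left ((one_le_div h0).2 hz'.le)]
    rw [this.lineDeriv_eq]
    exact HasLineDerivAt.lineDeriv
      (HasDerivAt.sub (hasDerivAt_const (0 : ℝ) (1 : ℝ)) (capdiv_norm hy v))
  · have hp : min 1 (inner ℝ e y / l) - ‖y‖ < 0 := by
      rw [sub_neg, min_lt_iff, div_lt_iff₀ h0]
      rcases not_and_or.1 h with h | h
      · exact Or.inr (by rw [mul_comm]; exact lt_of_le_of_ne (not_lt.1 h) h3)
      · exact Or.inl (lt_of_le_of_ne (not_lt.1 h) h1.symm)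
    have : capdivPsi l e =ᶠ[𝓝 y] fun _ => 0 := by
      filter_upwards [(hc.tendsto y).eventually (gt_mem_nhds hp)] with z hz
      rw [capdivPsi, max_eq_right hz.le]
    rw [this.lineDeriv_eq]
    simp [lineDeriv]

lemma capdiv_plane {e : E d} (he : ‖e‖ = 1) (l : ℝ) :
    volume {y : E d | inner ℝ e y = l} = 0 := by
  rw [← volume_cone_bdry he le_rfl one_pos, ← measure_preimage_add_right volume (l • e)]
  congr 1
  ext y
  simp [inner_add_right, inner_smul_right, he]

/-- the complex power -/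
noncomputable def capdivF (e0 e1 : E d) (k : ℕ) (y : E d) : ℂ :=
  (((inner ℝ e0 y : ℝ) : ℂ) + ((inner ℝ e1 y : ℝ) : ℂ) * Complex.I) ^ k

lemma capdiv_smooth (e0 e1 : E d) (k : ℕ) : ContDiff ℝ 1 (capdivF e0 e1 k) :=
  ((Complex.ofRealCLM.contDiff.comp (innerSL ℝ e0).contDiff).add
    ((Complex.ofRealCLM.contDiff.comp (innerSL ℝ e1).contDiff).mul contDiff_const)).pow k

lemma capdiv_dF (e0 e1 : E d) (k : ℕ) (y v : E d) :
    HasLineDerivAt ℝ (capdivF e0 e1 k) (k * capdivF e0 e1 (k - 1) y *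
      (((inner ℝ e0 v : ℝ) : ℂ) + ((inner ℝ e1 v : ℝ) : ℂ) * Complex.I)) y v := by
  have h := ((HasDerivAt.ofReal_comp (capdiv_inner e0 y v)).add
    ((HasDerivAt.ofReal_comp (capdiv_inner e1 y v)).mul_const Complex.I)).pow k
  simp only [Pi.add_apply, zero_smul, add_zero] at h
  exact h

lemma capdiv_pos {e : E d} (he : ‖e‖ = 1) : 0 < d := by
  rcases Nat.eq_zero_or_pos d with rfl | h
  · rw [Subsingleton.elim e 0] at he
    simp at he
  · exact h

lemma capdiv_polar {l : ℝ} (hd : 0 < d) (e0 e1 : E d) (k : ℕ) :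
    ∫ y : E d, (if l * ‖y‖ < inner ℝ e0 y ∧ ‖y‖ < 1 then (capdivF e0 e1 (k + 1) y).re / ‖y‖
      else 0) = Ic l e0 e1 (k + 1) / (k + d) := by
  rw [integral_polar_prod hd _
    ((cap l e0).indicator fun v : S d => (capdivF e0 e1 (k + 1) (v : E d)).re)
    ((Iio (1 : ℝ)).indicator fun r => r ^ k), integral_indicator (measurableSet_cap _ _)]
  · rw [div_eq_mul_one_div]
    congr 1
    have e : ∀ r : ℝ, r ^ (d - 1) * (Iio (1 : ℝ)).indicator (fun r => r ^ k) r =
        (Iio (1 : ℝ)).indicator (fun r => r ^ (d - 1 + k)) r := fun r => by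
      by_cases h : r ∈ Iio (1 : ℝ) <;> simp [h, pow_add]
    simp only [e]
    rw [setIntegral_indicator measurableSet_Iio, Ioi_inter_Iio, ← integral_Ioc_eq_integral_Ioo,
      ← intervalIntegral.integral_of_le zero_le_one]
    simp only [integral_pow]
    obtain ⟨m, rfl⟩ := Nat.exists_eq_succ_of_ne_zero hd.ne'
    simp
    ring
  · intro v r hr
    have hn : ‖r • (v : E d)‖ = r := by
      rw [norm_smul, norm_S, mul_one, Real.norm_of_nonneg hr.le]
    have hF : capdivF e0 e1 (k + 1) (r • (v : E d)) =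
        ((r ^ (k + 1) : ℝ) : ℂ) * capdivF e0 e1 (k + 1) v := by
      simp only [capdivF, inner_smul_right]
      push_cast
      rw [← mul_pow]
      ring
    have hc : l * r < inner ℝ e0 (r • (v : E d)) ↔ v ∈ cap l e0 := by
      rw [inner_smul_right, mul_comm l r]
      exact mul_lt_mul_iff_right₀ hr
    rw [hn, hF, Complex.re_ofReal_mul]
    by_cases h1 : v ∈ cap l e0
    · by_cases h2 : r < 1
      · rw [if_pos ⟨hc.2 h1, h2⟩, indicator_of_mem h1, indicator_of_mem (show r ∈ Iio 1 from h2)]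
        field_simp
        ring
      · rw [if_neg fun h => h2 h.2, indicator_of_notMem (show r ∉ Iio 1 from h2), mul_zero]
    · rw [if_neg fun h => h1 (hc.1 h.1), indicator_of_notMem h1, zero_mul]

theorem cap_div {l : ℝ} (h0 : 0 < l) (h1 : l < 1) {e0 e1 : E d} (he0 : ‖e0‖ = 1)
    (he1 : ‖e1‖ = 1) (he : inner ℝ e0 e1 = (0 : ℝ)) (k : ℕ) :
    l * Ic l e0 e1 (k + 1) = (k + d : ℝ) *
      ∫ y in {y : E d | l * ‖y‖ < inner ℝ e0 y ∧ inner ℝ e0 y < l},
        ((((inner ℝ e0 y : ℝ) : ℂ) + ((inner ℝ e1 y : ℝ) : ℂ) * Complex.I) ^ k).re := by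
  have hd := capdiv_pos he0
  have : Nonempty (Fin d) := ⟨⟨0, hd⟩⟩
  obtain ⟨C, hC⟩ := capdiv_lip l e0
  have hz : ∀ y : E d, 1 ≤ ‖y‖ → capdivPsi l e0 y = 0 := fun y hy =>
    max_eq_right (by linarith [min_le_left 1 (inner ℝ e0 y / l)])
  have i0 : inner ℝ e0 e0 = (1 : ℝ) := by rw [real_inner_self_eq_norm_sq, he0]; norm_num
  have i1 : inner ℝ e1 e1 = (1 : ℝ) := by rw [real_inner_self_eq_norm_sq, he1]; norm_num
  have i2 : inner ℝ e1 e0 = (0 : ℝ) := by rw [real_inner_comm, he]
  obtain ⟨a1, a2⟩ := capdiv_ibp (f := fun y => (capdivF e0 e1 k y).re)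
    (f' := fun y => (k * capdivF e0 e1 (k - 1) y).re) (v := e0) hC hz
    (Complex.reCLM.contDiff.comp (capdiv_smooth e0 e1 k)) fun y => by
      have := Complex.reCLM.hasFDerivAt.comp_hasDerivAt _ (capdiv_dF e0 e1 k y e0)
      rw [i0, i2] at this
      simpa [HasLineDerivAt, Function.comp_def] using this
  obtain ⟨b1, b2⟩ := capdiv_ibp (f := fun y => (capdivF e0 e1 k y).im)
    (f' := fun y => (k * capdivF e0 e1 (k - 1) y).re) (v := e1) hC hz
    (Complex.imCLM.contDiff.comp (capdiv_smooth e0 e1 k)) fun y => by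
      have := Complex.imCLM.hasFDerivAt.comp_hasDerivAt _ (capdiv_dF e0 e1 k y e1)
      rw [i1, he] at this
      simpa [HasLineDerivAt, Function.comp_def] using this
  set K : Set (E d) := {y : E d | l * ‖y‖ < inner ℝ e0 y ∧ inner ℝ e0 y < l} with hK
  have hKm : MeasurableSet K :=
    (measurableSet_lt (f := fun y : E d => l * ‖y‖) (g := fun y : E d => (inner ℝ e0 y : ℝ))
      (by fun_prop) (by fun_prop)).inter (measurableSet_lt
        (f := fun y : E d => (inner ℝ e0 y : ℝ)) (by fun_prop) measurable_const)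
  have hK1 : ∀ y ∈ K, ‖y‖ < 1 := fun y hy => by
    have := hy.1.trans hy.2
    nlinarith
  have c1 : Integrable (K.indicator fun y => (capdivF e0 e1 k y).re) :=
    (integrable_indicator_iff hKm).2 (((Complex.continuous_re.comp
      (capdiv_smooth e0 e1 k).continuous).continuousOn.integrableOn_compact
        (isCompact_closedBall 0 1)).mono_set fun y hy => by simpa using (hK1 y hy).le)
  have n1 : ∀ᵐ y : E d, ‖y‖ ≠ 1 := by
    rw [ae_iff]
    simpa [sphere] using Measure.addHaar_sphere (volume : Measure (E d)) 0 1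
  have n2 : ∀ᵐ y : E d, inner ℝ e0 y ≠ l := by
    rw [ae_iff]
    simpa using capdiv_plane he0 l
  have n3 : ∀ᵐ y : E d, inner ℝ e0 y ≠ l * ‖y‖ := by
    rw [ae_iff]
    simpa using volume_cone_bdry he0 h0.le h1
  have key : Ic l e0 e1 (k + 1) / (k + d) = l⁻¹ * ∫ y in K, (capdivF e0 e1 k y).re := by
    have q := integral_sub (c1.const_mul l⁻¹) (a1.sub b1)
    simp only [Pi.sub_apply] at q
    rw [integral_sub a1 b1, a2, b2, sub_self, sub_zero] at q
    rw [← capdiv_polar hd, ← integral_indicator hKm, ← integral_const_mul, ← q]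
    refine integral_congr_ae ?_
    filter_upwards [n1, n2, n3] with y m1 m2 m3
    rw [capdiv_deriv h0 e0 e0 m1 m2 m3, capdiv_deriv h0 e0 e1 m1 m2 m3, i0, he]
    have hF : (capdivF e0 e1 (k + 1) y).re = inner ℝ y e0 * (capdivF e0 e1 k y).re -
        inner ℝ y e1 * (capdivF e0 e1 k y).im := by
      rw [real_inner_comm e0, real_inner_comm e1]
      simp [capdivF, pow_succ']
    split_ifs with h h'
    · rw [indicator_of_mem (show y ∈ K from ⟨h.1, h'⟩), hF]
      ring
    · rw [indicator_of_notMem (show y ∉ K from fun hy => h' hy.2), hF]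
      ring
    · rw [indicator_of_notMem (show y ∉ K from fun hy => h ⟨hy.1, hK1 y hy⟩)]
      ring
  have hkd : (0 : ℝ) < k + d := by
    have : (0 : ℝ) < d := by exact_mod_cast hd
    positivity
  rw [div_eq_iff hkd.ne'] at key
  rw [key, ← mul_assoc, mul_inv_cancel_left₀ h0.ne', mul_comm]
  rfl

theorem Bc_cone {l : ℝ} (h0 : 0 < l) (h1 : l < 1) {e0 : E d} (he0 : ‖e0‖ = 1) :
    Bc l e0 = (d : ℝ) *
      (volume : Measure (E d)).real {y : E d | l * ‖y‖ < inner ℝ e0 y ∧ inner ℝ e0 y < l} := by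
  have hd := capdiv_pos he0
  have hd' : (0 : ℝ) < d := by exact_mod_cast hd
  set β : S d → ℝ := (cap l e0).indicator fun v => (l / inner ℝ e0 (v : E d)) ^ d with hβ
  have hb : ∀ v, 0 ≤ β v ∧ β v ≤ 1 := fun v => by
    by_cases h : v ∈ cap l e0
    · have h2 : l < inner ℝ e0 (v : E d) := h
      have h3 : 0 ≤ l / inner ℝ e0 (v : E d) := div_nonneg h0.le (by linarith)
      rw [hβ, indicator_of_mem h]
      exact ⟨pow_nonneg h3 _, pow_le_one₀ h3 ((div_le_one (by linarith)).2 h2.le)⟩
    · rw [hβ, indicator_of_notMem h]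
      exact ⟨le_rfl, zero_le_one⟩
  have hm : Measurable β :=
    ((measurable_const.div (lin e0).continuous.measurable).pow_const d).indicator
      (measurableSet_cap _ _)
  have hi : Integrable β (sig d) := Integrable.of_bound hm.aestronglyMeasurable 1
    (Eventually.of_forall fun v => by rw [Real.norm_of_nonneg (hb v).1]; exact (hb v).2)
  have hA := volume_polar hd (A := {y : E d | l * ‖y‖ < inner ℝ e0 y ∧ inner ℝ e0 y ≤ l})
    ((measurableSet_lt (f := fun y : E d => l * ‖y‖) (g := fun y : E d => (inner ℝ e0 y : ℝ))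
      (by fun_prop) (by fun_prop)).inter (measurableSet_le
        (f := fun y : E d => (inner ℝ e0 y : ℝ)) (by fun_prop) measurable_const)) (fun _ => 0) β (fun _ => le_rfl)
    fun v r hr => by
      have hn : ‖r • (v : E d)‖ = r := by
        rw [norm_smul, norm_S, mul_one, Real.norm_of_nonneg hr.le]
      have hc : l * r < r * inner ℝ e0 (v : E d) ↔ v ∈ cap l e0 := by
        rw [mul_comm l r]
        exact mul_lt_mul_iff_right₀ hr
      simp only [mem_ofPred_eq, hn, inner_smul_right, hc, pow_pos hr, true_and]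
      by_cases h : v ∈ cap l e0
      · have h2 : 0 < inner ℝ e0 (v : E d) := h0.trans h
        rw [hβ, indicator_of_mem h, pow_le_pow_iff_left₀ hr.le (div_pos h0 h2).le hd.ne',
          le_div_iff₀ h2]
        exact and_iff_right h
      · rw [hβ, indicator_of_notMem h]
        exact iff_of_false (fun h' => h h'.1) (not_le.2 (pow_pos hr d))
  have hK : {y : E d | l * ‖y‖ < inner ℝ e0 y ∧ inner ℝ e0 y < l} =ᵐ[volume]
      {y : E d | l * ‖y‖ < inner ℝ e0 y ∧ inner ℝ e0 y ≤ l} := by
    have n2 : ∀ᵐ y : E d, inner ℝ e0 y ≠ l := by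
      rw [ae_iff]
      simpa using capdiv_plane he0 l
    filter_upwards [n2] with y hy
    exact propext (and_congr_right fun _ => ⟨le_of_lt, fun h => lt_of_le_of_ne h hy⟩)
  simp only [sub_zero] at hA
  rw [measureReal_def, measure_congr hK, hA, ← ofReal_integral_eq_lintegral_ofReal (hi.div_const _)
    (Eventually.of_forall fun v => div_nonneg (hb v).1 hd'.le), ENNReal.toReal_ofReal
    (integral_nonneg fun v => div_nonneg (hb v).1 hd'.le), integral_div, hβ,
    integral_indicator (measurableSet_cap _ _), Bc]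
  field_simp

end Pool.Agent.Lib.MP_5b78b3_gt
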