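import Mathlib
import Pool.Agent.Lib.MP_5b78b3_gt.Once
import Pool.Agent.Lib.MP_5b78b3_gt.Base

/-! Cone integrals of `(y 0 + i y 1) ^ k` through the moments of a ball. -/

namespace Pool.Agent.Lib.MP_5b78b3_gt

open MeasureTheory Metric Set

/-- a vector with given first coordinate and given remaining coordinates -/
noncomputable def capmomCons {n : ℕ} (t : ℝ) (z : E n) : E (n + 1) :=
  WithLp.toLp 2 (Fin.cons t z.ofLp : Fin (n + 1) → ℝ)

lemma capmom_norm {n : ℕ} (t : ℝ) (z : E n) : ‖capmomCons t z‖ ^ 2 = t ^ 2 + ‖z‖ ^ 2 := by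
  simp [capmomCons, EuclideanSpace.real_norm_sq_eq, Fin.sum_univ_succ]

lemma capmom_mp (n : ℕ) :
    MeasurePreserving (fun p : ℝ × E n => capmomCons p.1 p.2) (volume.prod volume) volume := by
  have h1 := (volume_preserving_piFinSuccAbove (fun _ : Fin (n + 1) => ℝ) 0).symm
  have h2 := (MeasurePreserving.id (volume : Measure ℝ)).prod
    (PiLp.volume_preserving_ofLp (Fin n))
  have h3 := ((PiLp.volume_preserving_toLp (Fin (n + 1))).comp h1).comp h2
  have e : (fun p : ℝ × E n => capmomCons p.1 p.2) = (WithLp.toLp 2 ∘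
      (MeasurableEquiv.piFinSuccAbove (fun _ : Fin (n + 1) => ℝ) 0).symm) ∘
        Prod.map id WithLp.ofLp := by
    ext p i
    simp [capmomCons, MeasurableEquiv.piFinSuccAbove]
  rw [e]
  exact h3

lemma capmom_slice {n : ℕ} {f : E (n + 1) → ℝ} (hf : Integrable f) :
    ∫ y, f y = ∫ t : ℝ, ∫ z : E n, f (capmomCons t z) := by
  have h := capmom_mp n
  rw [← integral_prod (fun p : ℝ × E n => f (capmomCons p.1 p.2)) (h.integrable_comp_of_integrable hf),
    ← h.map_eq, integral_map h.measurable.aemeasurable (by rw [h.map_eq]; exact hf.1)]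

lemma capmom_rec (m j : ℕ) {ρ : ℝ} (hρ : 0 < ρ) :
    (2 * j + m + 3 : ℝ) * ∫ t in -ρ..ρ, t ^ (2 * (j + 1)) * √(ρ ^ 2 - t ^ 2) ^ m =
      (2 * j + 1) * ρ ^ 2 * ∫ t in -ρ..ρ, t ^ (2 * j) * √(ρ ^ 2 - t ^ 2) ^ m := by
  have h := intervalIntegral.integral_eq_sub_of_hasDerivAt_of_le (a := -ρ) (b := ρ) (by linarith)
    (f := fun t => t ^ (2 * j + 1) * √(ρ ^ 2 - t ^ 2) ^ (m + 2))
    (f' := fun t => (2 * j + 1) * ρ ^ 2 * (t ^ (2 * j) * √(ρ ^ 2 - t ^ 2) ^ m) -
      (2 * j + m + 3 : ℝ) * (t ^ (2 * (j + 1)) * √(ρ ^ 2 - t ^ 2) ^ m))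
    (by fun_prop) ?_ (Continuous.intervalIntegrable (by fun_prop) _ _)
  · rw [intervalIntegral.integral_sub (Continuous.intervalIntegrable (by fun_prop) _ _)
      (Continuous.intervalIntegrable (by fun_prop) _ _), intervalIntegral.integral_const_mul,
      intervalIntegral.integral_const_mul] at h
    simp only [even_two, Even.neg_pow, sub_self, Real.sqrt_zero, ne_eq, Nat.add_eq_zero_iff,
      OfNat.ofNat_ne_zero, and_false, not_false_eq_true, zero_pow, mul_zero] at h
    linarith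
  · intro t ht
    have hp : 0 < ρ ^ 2 - t ^ 2 := by nlinarith [ht.1, ht.2]
    have hs := Real.sqrt_pos.2 hp
    have e := Real.sq_sqrt hp.le
    have h1 : HasDerivAt (fun t : ℝ => ρ ^ 2 - t ^ 2) (-(2 * t)) t := by
      simpa using (hasDerivAt_pow 2 t).const_sub (ρ ^ 2)
    refine HasDerivAt.congr_deriv ((hasDerivAt_pow (2 * j + 1) t).mul
      ((h1.sqrt hp.ne').fun_pow (m + 2))) ?_
    generalize √(ρ ^ 2 - t ^ 2) = s at hs e
    have e' : ρ ^ 2 = s ^ 2 + t ^ 2 := by linarith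
    rw [e']
    simp only [Nat.add_sub_cancel, show m + 2 - 1 = m + 1 by omega]
    push_cast
    field_simp
    ring

lemma capmom_ball_slice (m j : ℕ) {ρ : ℝ} (hρ : 0 < ρ) :
    ∫ z in ball (0 : E (m + 1)) ρ, z 0 ^ j =
      (volume : Measure (E m)).real (ball 0 1) * ∫ t in -ρ..ρ, t ^ j * √(ρ ^ 2 - t ^ 2) ^ m := by
  have hi : IntegrableOn (fun z : E (m + 1) => z 0 ^ j) (ball 0 ρ) :=
    (ContinuousOn.integrableOn_compact (isCompact_closedBall 0 ρ) (by fun_prop)).mono_set
      ball_subset_closedBall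
  rw [← integral_indicator measurableSet_ball,
    capmom_slice ((integrable_indicator_iff measurableSet_ball).2 hi),
    intervalIntegral.integral_of_le (by linarith), integral_Ioc_eq_integral_Ioo,
    ← integral_const_mul, ← integral_indicator measurableSet_Ioo]
  refine integral_congr_ae (Filter.Eventually.of_forall fun t => ?_)
  have key : ∀ z : E m, capmomCons t z ∈ ball (0 : E (m + 1)) ρ ↔ t ^ 2 + ‖z‖ ^ 2 < ρ ^ 2 := by
    intro z
    rw [mem_ball_zero_iff, ← capmom_norm, sq_lt_sq₀ (norm_nonneg _) hρ.le]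
  by_cases ht : t ∈ Ioo (-ρ) ρ
  · have hp : 0 < ρ ^ 2 - t ^ 2 := by nlinarith [ht.1, ht.2]
    have hs := Real.sqrt_pos.2 hp
    have : ∀ z : E m, (ball (0 : E (m + 1)) ρ).indicator (fun z => z 0 ^ j) (capmomCons t z) =
        (ball (0 : E m) √(ρ ^ 2 - t ^ 2)).indicator (fun _ => t ^ j) z := by
      intro z
      have : capmomCons t z ∈ ball (0 : E (m + 1)) ρ ↔ z ∈ ball (0 : E m) √(ρ ^ 2 - t ^ 2) := by
        rw [key, mem_ball_zero_iff, Real.lt_sqrt (norm_nonneg _)]
        constructor <;> intro h <;> linarith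
      by_cases hz : z ∈ ball (0 : E m) √(ρ ^ 2 - t ^ 2)
      · rw [indicator_of_mem hz, indicator_of_mem (this.2 hz)]
        simp [capmomCons]
      · rw [indicator_of_notMem hz, indicator_of_notMem (fun h => hz (this.1 h))]
    simp only [this, indicator_of_mem ht]
    rw [integral_indicator measurableSet_ball, setIntegral_const, measureReal_def,
      Measure.addHaar_ball_of_pos _ _ hs, ENNReal.toReal_mul, ENNReal.toReal_ofReal (by positivity),
      measureReal_def]
    simp only [finrank_euclideanSpace, Fintype.card_fin, smul_eq_mul]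
    ring
  · have : ∀ z : E m, (ball (0 : E (m + 1)) ρ).indicator (fun z => z 0 ^ j) (capmomCons t z) =
        0 := by
      intro z
      refine indicator_of_notMem (fun h => ht ?_) _
      rw [key] at h
      exact abs_lt.1 (abs_lt_of_sq_lt_sq (by nlinarith [norm_nonneg z]) hρ.le)
    simp [this, indicator_of_notMem ht]

lemma capmom_ball (m j : ℕ) {ρ : ℝ} (hρ : 0 < ρ) :
    ∫ z in ball (0 : E (m + 1)) ρ, z 0 ^ (2 * j) =
      (volume : Measure (E (m + 1))).real (ball 0 1) * ρ ^ (m + 1) * ((ρ ^ 2) ^ j * gam (m + 2) j) := by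
  induction j with
  | zero =>
    simp only [mul_zero, pow_zero, gam, setIntegral_const, smul_eq_mul, mul_one]
    rw [measureReal_def, Measure.addHaar_ball_of_pos _ _ hρ, ENNReal.toReal_mul,
      ENNReal.toReal_ofReal (by positivity), measureReal_def]
    simp only [finrank_euclideanSpace, Fintype.card_fin]
    ring
  | succ j ih =>
    have h := capmom_rec m j hρ
    rw [capmom_ball_slice m _ hρ] at ih ⊢
    have hp : (0 : ℝ) < 2 * j + m + 3 := by positivity
    rw [mul_comm, ← eq_div_iff hp.ne'] at h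
    rw [h, gam]
    push_cast
    rw [show (2 * j + (m + 2) + 1 : ℝ) = 2 * j + m + 3 by ring]
    field_simp
    linear_combination ρ ^ 2 * ih

lemma capmom_even_odd (f : ℕ → ℝ) (N : ℕ) :
    ∑ i ∈ Finset.range (2 * N), f i = ∑ j ∈ Finset.range N, (f (2 * j) + f (2 * j + 1)) := by
  induction N with
  | zero => simp
  | succ N ih => rw [mul_add, mul_one, Finset.sum_range_succ, Finset.sum_range_succ, ih,
      Finset.sum_range_succ, add_assoc]

lemma capmom_re (a b : ℝ) (k : ℕ) : (((a : ℂ) + (b : ℂ) * Complex.I) ^ k).re =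
    ∑ j ∈ Finset.range (k / 2 + 1),
      (-1) ^ j * (k.choose (2 * j) : ℝ) * a ^ (k - 2 * j) * b ^ (2 * j) := by
  have h : (((a : ℂ) + (b : ℂ) * Complex.I) ^ k).re =
      ∑ i ∈ Finset.range (k + 1), (k.choose i : ℝ) * a ^ (k - i) * b ^ i * (Complex.I ^ i).re := by
    rw [add_comm, add_pow, Complex.re_sum]
    refine Finset.sum_congr rfl fun i _ => ?_
    rw [← Complex.re_ofReal_mul]
    congr 1
    push_cast
    ring
  rw [h, Finset.sum_subset (Finset.range_subset_range.2 (show k + 1 ≤ 2 * (k / 2 + 1) by omega))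
    (fun i _ hi => by
      rw [Nat.choose_eq_zero_of_lt (by simpa using hi)]
      simp), capmom_even_odd]
  refine Finset.sum_congr rfl fun j _ => ?_
  have e : Complex.I ^ (2 * j) = (((-1 : ℝ) ^ j : ℝ) : ℂ) := by
    rw [pow_mul, Complex.I_sq]
    push_cast
    rfl
  rw [pow_succ Complex.I, e, Complex.re_ofReal_mul, Complex.I_re, Complex.ofReal_re]
  ring

lemma capmom_int (m j : ℕ) (ρ : ℝ) : IntegrableOn (fun z : E (m + 1) => z 0 ^ j) (ball 0 ρ) :=
  (ContinuousOn.integrableOn_compact (isCompact_closedBall 0 ρ) (by fun_prop)).mono_set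
    ball_subset_closedBall

lemma capmom_disc (m k : ℕ) {l c : ℝ} (h0 : 0 < l) (h1 : l < 1) (hc : 0 < c) :
    ∫ z in ball (0 : E (m + 1)) (c * √(1 - l ^ 2)),
      ((((c * l : ℝ) : ℂ) + ((z 0 : ℝ) : ℂ) * Complex.I) ^ k).re =
      c ^ (k + (m + 1)) * ((volume : Measure (E (m + 1))).real (ball 0 1) *
        √(1 - l ^ 2) ^ (m + 1) * QQ (m + 2) k l) := by
  have hp : 0 < 1 - l ^ 2 := by nlinarith
  have hR := Real.sqrt_pos.2 hp
  simp only [capmom_re]
  rw [integral_finsetSum _ fun j _ => (capmom_int m _ _).const_mul _, QQ, Finset.mul_sum,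
    Finset.mul_sum]
  refine Finset.sum_congr rfl fun j hj => ?_
  obtain ⟨r, rfl⟩ : ∃ r, k = 2 * j + r := ⟨k - 2 * j, by
    have := Finset.mem_range.1 hj
    omega⟩
  rw [integral_const_mul, capmom_ball m j (by positivity), Nat.add_sub_cancel_left, mul_pow c _ 2,
    Real.sq_sqrt hp.le, mul_pow (c ^ 2)]
  ring

lemma capmom_cone (m k : ℕ) {l : ℝ} (h0 : 0 < l) (h1 : l < 1) :
    (k + (m + 2 : ℕ) : ℝ) * ∫ y in {y : E (m + 2) | l * ‖y‖ < y 0 ∧ y 0 < l},
      ((((y 0 : ℝ) : ℂ) + ((y 1 : ℝ) : ℂ) * Complex.I) ^ k).re =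
      l * ((volume : Measure (E (m + 1))).real (ball 0 1) * √(1 - l ^ 2) ^ (m + 1) *
        QQ (m + 2) k l) := by
  have hp : 0 < 1 - l ^ 2 := by nlinarith
  have hR := Real.sqrt_pos.2 hp
  have eR := Real.sq_sqrt hp.le
  have hm : MeasurableSet {y : E (m + 2) | l * ‖y‖ < y 0 ∧ y 0 < l} :=
    ((isOpen_lt (f := fun y : E (m + 2) => l * ‖y‖) (g := fun y => y 0) (by fun_prop)
      (by fun_prop)).inter (isOpen_lt (f := fun y : E (m + 2) => y 0) (g := fun _ => l)
        (by fun_prop) (by fun_prop))).measurableSet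
  have hi : IntegrableOn (fun y : E (m + 2) =>
      ((((y 0 : ℝ) : ℂ) + ((y 1 : ℝ) : ℂ) * Complex.I) ^ k).re)
      {y : E (m + 2) | l * ‖y‖ < y 0 ∧ y 0 < l} :=
    (ContinuousOn.integrableOn_compact (isCompact_closedBall 0 1) (by fun_prop)).mono_set
      fun y hy => mem_closedBall_zero_iff.2 (by nlinarith [hy.1, hy.2])
  rw [← integral_indicator hm, capmom_slice ((integrable_indicator_iff hm).2 hi)]
  set C := (volume : Measure (E (m + 1))).real (ball 0 1) * √(1 - l ^ 2) ^ (m + 1) *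
    QQ (m + 2) k l with hC
  have e0 : ∀ (t : ℝ) (z : E (m + 1)), capmomCons t z 0 = t := fun t z => rfl
  have e1 : ∀ (t : ℝ) (z : E (m + 1)), capmomCons t z 1 = z 0 := fun t z => rfl
  have hs : ∀ t : ℝ, ∫ z : E (m + 1), {y : E (m + 2) | l * ‖y‖ < y 0 ∧ y 0 < l}.indicator
      (fun y => ((((y 0 : ℝ) : ℂ) + ((y 1 : ℝ) : ℂ) * Complex.I) ^ k).re) (capmomCons t z) =
      (Ioo 0 l).indicator (fun t => (t / l) ^ (k + (m + 1)) * C) t := by
    intro t
    by_cases ht : t ∈ Ioo 0 l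
    · obtain ⟨c, rfl⟩ : ∃ c, t = c * l := ⟨t / l, by field_simp⟩
      have hc : 0 < c := (mul_pos_iff_of_pos_right h0).1 ht.1
      rw [indicator_of_mem ht, mul_div_cancel_right₀ _ h0.ne', hC, ← capmom_disc m k h0 h1 hc,
        ← integral_indicator measurableSet_ball]
      refine integral_congr_ae (Filter.Eventually.of_forall fun z => ?_)
      have : capmomCons (c * l) z ∈ {y : E (m + 2) | l * ‖y‖ < y 0 ∧ y 0 < l} ↔
          z ∈ ball (0 : E (m + 1)) (c * √(1 - l ^ 2)) := by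
        rw [mem_ofPred_eq, e0, and_iff_left ht.2, mul_comm c l, mul_lt_mul_iff_right₀ h0,
          mem_ball_zero_iff, ← sq_lt_sq₀ (norm_nonneg _) hc.le, capmom_norm,
          ← sq_lt_sq₀ (norm_nonneg _) (by positivity), mul_pow c, eR]
        constructor <;> intro h <;> nlinarith
      by_cases hz : z ∈ ball (0 : E (m + 1)) (c * √(1 - l ^ 2))
      · simp only [indicator_of_mem hz, indicator_of_mem (this.2 hz), e0, e1]
      · simp only [indicator_of_notMem hz, indicator_of_notMem (fun h => hz (this.1 h))]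
    · rw [indicator_of_notMem ht]
      refine (integral_congr_ae (Filter.Eventually.of_forall fun z => ?_)).trans (integral_zero _ _)
      refine indicator_of_notMem (fun h => ht ⟨?_, h.2⟩) _
      exact lt_of_le_of_lt (by positivity) h.1
  simp only [hs]
  rw [integral_indicator measurableSet_Ioo, ← integral_Ioc_eq_integral_Ioo,
    ← intervalIntegral.integral_of_le h0.le, intervalIntegral.integral_mul_const]
  simp only [div_pow]
  rw [intervalIntegral.integral_div, integral_pow]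
  push_cast
  rw [zero_pow (by omega)]
  field_simp
  ring

lemma capmom_tail (m k j : ℕ) (hjk : 2 * j ≤ k) {l : ℝ} (h0 : 0 < l) (h1 : l < 1) :
    |(volume : Measure (E (m + 1))).real (ball 0 1) * √(1 - l ^ 2) ^ (m + 1) * QQ (m + 2) k l| ≤
      (volume : Measure (E (m + 1))).real (ball 0 1) * √(1 - l ^ 2) ^ (m + 1) *
        tl (m + 2) j l := by
  have hp : 0 < 1 - l ^ 2 := by nlinarith
  have hR := Real.sqrt_pos.2 hp
  have eR := Real.sq_sqrt hp.le
  have h := capmom_disc m k h0 h1 one_pos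
  simp only [one_mul, one_pow] at h
  have hexp : ∀ z : E (m + 1), (l ^ 2 + z 0 ^ 2) ^ j =
      ∑ i ∈ Finset.range (j + 1), (j.choose i : ℝ) * (l ^ 2) ^ (j - i) * z 0 ^ (2 * i) := by
    intro z
    rw [add_comm, add_pow]
    refine Finset.sum_congr rfl fun i _ => ?_
    rw [pow_mul]
    ring
  have h2 : ∫ z in ball (0 : E (m + 1)) √(1 - l ^ 2), (l ^ 2 + z 0 ^ 2) ^ j =
      (volume : Measure (E (m + 1))).real (ball 0 1) * √(1 - l ^ 2) ^ (m + 1) *
        tl (m + 2) j l := by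
    simp only [hexp]
    rw [integral_finsetSum _ fun i _ => (capmom_int m _ _).const_mul _, tl, Finset.mul_sum]
    refine Finset.sum_congr rfl fun i _ => ?_
    rw [integral_const_mul, capmom_ball m i hR, eR]
    ring
  rw [← h, ← h2, ← Real.norm_eq_abs]
  refine norm_integral_le_of_norm_le ?_ ?_
  · exact (ContinuousOn.integrableOn_compact (isCompact_closedBall 0 _) (by fun_prop)).mono_set
      ball_subset_closedBall
  · filter_upwards [ae_restrict_mem measurableSet_ball] with z hz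
    have hz0 : z 0 ^ 2 ≤ 1 - l ^ 2 := by
      have a1 : ‖z 0‖ ≤ ‖z‖ := PiLp.norm_apply_le z 0
      rw [mem_ball_zero_iff] at hz
      rw [← eR, ← sq_abs]
      exact pow_le_pow_left₀ (abs_nonneg _) (a1.trans hz.le) 2
    have hn : ‖(l : ℂ) + ((z 0 : ℝ) : ℂ) * Complex.I‖ ^ 2 = l ^ 2 + z 0 ^ 2 := by
      rw [Complex.sq_norm, Complex.normSq_add_mul_I]
    have hn1 : ‖(l : ℂ) + ((z 0 : ℝ) : ℂ) * Complex.I‖ ≤ 1 :=
      (sq_le_one_iff₀ (norm_nonneg _)).1 (by linarith)
    rw [Real.norm_eq_abs, ← hn, ← pow_mul]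
    refine (Complex.abs_re_le_norm _).trans ?_
    rw [norm_pow]
    exact pow_le_pow_of_le_one (norm_nonneg _) hn1 hjk

theorem cone_mom (m : ℕ) {l : ℝ} (h0 : 0 < l) (h1 : l < 1) :
    ∃ V : ℝ, 0 < V ∧
      (∀ k : ℕ, (k + (m + 2 : ℕ) : ℝ) *
        ∫ y in {y : E (m + 2) | l * ‖y‖ < y 0 ∧ y 0 < l},
          ((((y 0 : ℝ) : ℂ) + ((y 1 : ℝ) : ℂ) * Complex.I) ^ k).re = V * QQ (m + 2) k l) ∧
      (∀ k j : ℕ, 2 * j ≤ k → |(k + (m + 2 : ℕ) : ℝ) *
        ∫ y in {y : E (m + 2) | l * ‖y‖ < y 0 ∧ y 0 < l},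
          ((((y 0 : ℝ) : ℂ) + ((y 1 : ℝ) : ℂ) * Complex.I) ^ k).re| ≤ V * tl (m + 2) j l) := by
  have hR : 0 < √(1 - l ^ 2) := Real.sqrt_pos.2 (by nlinarith)
  have hω : 0 < (volume : Measure (E (m + 1))).real (ball 0 1) :=
    ENNReal.toReal_pos (measure_ball_pos _ _ one_pos).ne' measure_ball_lt_top.ne
  refine ⟨l * ((volume : Measure (E (m + 1))).real (ball 0 1) * √(1 - l ^ 2) ^ (m + 1)),
    by positivity, fun k => ?_, fun k j hjk => ?_⟩
  · rw [capmom_cone m k h0 h1]
    ring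
  · rw [capmom_cone m k h0 h1, abs_mul, abs_of_pos h0, mul_assoc l]
    exact mul_le_mul_of_nonneg_left (capmom_tail m k j hjk h0 h1) h0.le

end Pool.Agent.Lib.MP_5b78b3_gt
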