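import Mathlib
import Pool.Agent.Lib.MP_5b78b3_gt.Ana2

/-! A fixed point of the rescaled floating body map gives a body homothetic to its floating body. -/

namespace Pool.Agent.Lib.MP_5b78b3_gt

open MeasureTheory Metric Set Filter Topology

variable {d : ℕ}

lemma exists_polar (hd : 0 < d) (y : E d) : ∃ v : S d, y = ‖y‖ • (v : E d) := by
  by_cases h : y = 0
  · refine ⟨⟨EuclideanSpace.single ⟨0, hd⟩ 1, by simp⟩, by simp [h]⟩
  · have h' : ‖y‖ ≠ 0 := norm_ne_zero_iff.2 h
    refine ⟨⟨‖y‖⁻¹ • y, by simp [norm_smul, h']⟩, ?_⟩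
    simp [smul_smul, h']

lemma mem_body (hd : 0 < d) {p : X d} (hp : ∀ v, 0 ≤ p v) (v : S d) {r : ℝ} (hr : 0 ≤ r) :
    r • (v : E d) ∈ body p ↔ r ^ d ≤ p v := by
  constructor
  · rintro ⟨w, s, hs, hs', h⟩
    have h1 : r = s := by
      have := congrArg norm h
      rwa [norm_smul, norm_smul, norm_S, norm_S, mul_one, mul_one, Real.norm_of_nonneg hr,
        Real.norm_of_nonneg hs] at this
    subst h1
    rcases hr.eq_or_lt with h0 | h0
    · rw [← h0, zero_pow hd.ne']; exact hp v
    · have : v = w := Subtype.ext (smul_right_injective _ h0.ne' h)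
      rwa [this]
  · exact fun h => ⟨v, r, hr, h, rfl⟩

/-- `d`-th root -/
noncomputable def rt (d : ℕ) (x : ℝ) : ℝ := x ^ ((d : ℝ)⁻¹)

lemma rt_pos {x : ℝ} (h : 0 < x) : 0 < rt d x := Real.rpow_pos_of_pos h _

lemma rt_pow (hd : 0 < d) {x : ℝ} (h : 0 ≤ x) : rt d x ^ d = x :=
  Real.rpow_inv_natCast_pow h hd.ne'

lemma volume_cut (hd : 0 < d) {l : ℝ} (h0 : 0 < l) {p : X d} (hp : ‖p - 1‖ ≤ 1 / 4)
    (hm : MeasurableSet (body p)) {t : ℝ} (ht : 0 < t) (ht' : 3 / 4 ≤ t ^ d) (u : E d) :
    volume (body p \ {y | inner ℝ u y ≤ l * t}) = ENNReal.ofReal (FF l p (t ^ d) u / d) := by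
  have hp0 : ∀ v, 0 ≤ p v := fun v => by linarith [(abs_le.1 (abs_sub_one_le hp v)).1]
  have hcc := cont_hh_inner l u
  have hm' : MeasurableSet (body p \ {y | inner ℝ u y ≤ l * t}) :=
    hm.diff (isClosed_le (by fun_prop) continuous_const).measurableSet
  rw [volume_polar hd hm' (fun v => t ^ d * hh d (inner ℝ u (v : E d) / l)) p
    (fun v => mul_nonneg (pow_pos ht d).le (hh_pos _).le) ?_]
  · unfold FF
    rw [← integral_div, ofReal_integral_eq_lintegral_ofReal (integrable_cont (by fun_prop))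
      (Eventually.of_forall fun v => div_nonneg (le_max_right _ _) (Nat.cast_nonneg d))]
    congr 1
    ext v
    rcases le_total (p v - t ^ d * hh d (inner ℝ u (v : E d) / l)) 0 with h | h
    · rw [max_eq_right h, zero_div, ENNReal.ofReal_zero, ENNReal.ofReal_eq_zero]
      exact div_nonpos_of_nonpos_of_nonneg h (Nat.cast_nonneg d)
    · rw [max_eq_left h]
  · intro v r hr
    rw [Set.mem_sdiff, mem_body hd hp0 v hr.le, and_comm]
    refine and_congr_left fun hv => ?_
    simp only [mem_ofPred_eq, not_le, inner_smul_right]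
    set s := inner ℝ u (v : E d) with hs
    rcases le_total (1 / 2) (s / l) with h | h
    · have hs0 : 0 < s / l := by linarith
      have hs1 : 0 < s := by
        have := mul_pos hs0 h0
        rwa [div_mul_cancel₀ _ h0.ne'] at this
      rw [hh_of_ge h, ← mul_pow, pow_lt_pow_iff_left₀ (by positivity) hr.le hd.ne', inv_div,
        ← mul_div_assoc, div_lt_iff₀ hs1, mul_comm t l]
    · have h2 : (2 : ℝ) ≤ 2 ^ d := le_self_pow₀ (by norm_num) hd.ne'
      have h3 : p v ≤ t ^ d * 2 ^ d := by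
        nlinarith [(abs_le.1 (abs_sub_one_le hp v)).2]
      rw [hh_of_le h]
      refine iff_of_false (fun h4 => ?_) (by linarith)
      have h5 : s ≤ l / 2 := by
        rw [div_le_iff₀ h0] at h; linarith
      have h6 : t * 2 < r := by
        by_contra h7
        push Not at h7
        nlinarith [mul_le_mul_of_nonneg_left h5 hr.le]
      have h8 := pow_lt_pow_left₀ h6 (by positivity) hd.ne'
      rw [mul_pow] at h8
      linarith

theorem fixed_geometry {a b B r : ℝ} (c : Ctx d a b B r) :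
    ∃ r1 > 0, ∀ l ∈ Icc a b, ∀ p : X d, ‖p - 1‖ ≤ r1 → Psi l p = p →
      IsClosed (body p) ∧ Convex ℝ (body p) ∧ ∃ δ > 0,
        (⋂ (u : E d) (t : ℝ) (_ : u ≠ 0)
          (_ : volume (body p \ {y | inner ℝ u y ≤ t}) ≤ ENNReal.ofReal δ),
          {y : E d | inner ℝ u y ≤ t}) = (fun y => l • y + (0 : E d)) '' body p := by
  have hr := c.hr
  have hr4 := c.hr4
  have hB := c.hB
  have hd := c.hd
  have hd' : (0 : ℝ) < d := by exact_mod_cast hd
  have hσ : 0 ≤ (sig d).real univ := measureReal_nonneg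
  refine ⟨min r (r / 2 * B / 2 / ((sig d).real univ + 1)), by positivity, fun l hl p hp hfix => ?_⟩
  have h0 : 0 < l := c.ha.trans_le hl.1
  have h1 : l < 1 := hl.2.trans_lt c.hb
  have hp1 : ‖p - 1‖ ≤ r := hp.trans (min_le_left _ _)
  have hp2 : ‖p - 1‖ * (sig d).real univ ≤ r / 2 * B / 2 := by
    have := hp.trans (min_le_right _ _)
    rw [le_div_iff₀ (by positivity)] at this
    nlinarith [norm_nonneg (p - 1)]
  have hp0 : ∀ v, 0 ≤ p v := fun v => by linarith [(abs_le.1 (abs_sub_one_le hp1 v)).1]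
  have s := kk_spec c hl (by positivity) (half_lt_self hr) hp1 hp2
  obtain ⟨hc, hP⟩ := Psi_apply c hl (by positivity) (half_lt_self hr) hp1 hp2
  rw [hfix] at hP
  set k : S d → ℝ := fun u => kk l p (u : E d) with hk
  have hk1 : ∀ u, 3 / 4 < k u := fun u => by linarith [(abs_le.1 (s u).1).1]
  have hk0 : ∀ u, 0 < k u := fun u => by linarith [hk1 u]
  have hbody : body p = ⋂ u : S d, {y : E d | inner ℝ (u : E d) y ≤ rt d (k u)} := by
    ext y
    obtain ⟨v, hv⟩ := exists_polar hd y
    rw [hv, mem_body hd hp0 v (norm_nonneg y), mem_iInter, hP]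
    simp only [mem_ofPred_eq, inner_smul_right]
    obtain ⟨u, hu, hu'⟩ := HH_spec hc v
    constructor
    · intro h w
      have h2 := h.trans (hu' w)
      have hm : (0 : ℝ) < max (inner ℝ (w : E d) (v : E d)) (1 / 2) :=
        lt_of_lt_of_le (by norm_num) (le_max_right _ _)
      unfold hh at h2
      rw [← rt_pow hd (hk0 w).le, ← mul_pow,
        pow_le_pow_iff_left₀ (norm_nonneg y) (by have := rt_pos (d := d) (hk0 w); positivity) hd.ne',
        ← div_eq_mul_inv, le_div_iff₀ hm] at h2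
      exact le_trans (mul_le_mul_of_nonneg_left (le_max_left _ _) (norm_nonneg y)) h2
    · intro h
      have l1 := HH_min_loc hd (ρ := r / 2) (ε := 1 / 2) (by linarith) le_rfl (by linarith)
        (fun w => (s w).1) (hu ▸ hu' v)
      have h2 : 1 / 2 ≤ inner ℝ (u : E d) (v : E d) := by linarith [l1.2]
      rw [hu, hh_of_ge h2, ← rt_pow hd (hk0 u).le, ← mul_pow]
      refine pow_le_pow_left₀ (norm_nonneg y) ?_ d
      rw [← div_eq_mul_inv, le_div_iff₀ (by linarith)]
      exact h u
  have hclosed : IsClosed (body p) := by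
    rw [hbody]
    exact isClosed_iInter fun u => isClosed_le (by fun_prop) continuous_const
  have hconv : Convex ℝ (body p) := by
    rw [hbody]
    exact convex_iInter fun u => convex_halfSpace_le (innerSL ℝ (u : E d)).isLinear _
  obtain ⟨e, -⟩ := exists_polar hd 0
  refine ⟨hclosed, hconv, FF l 1 1 (e : E d) / d, div_pos (FF_pos hd h0 h1 e) hd', ?_⟩
  have hFF : ∀ u : S d, FF l 1 1 (u : E d) = FF l (1 : X d) 1 (e : E d) :=
    fun u => FF_one_eq l (by rw [norm_S, norm_S])
  have hcut := fun t ht ht' u =>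
    volume_cut hd h0 (hp1.trans hr4) hclosed.measurableSet (t := t) ht ht' u
  ext y
  simp only [mem_iInter, mem_ofPred_eq, add_zero, mem_image]
  constructor
  · intro h
    refine ⟨l⁻¹ • y, ?_, by rw [smul_smul, mul_inv_cancel₀ h0.ne', one_smul]⟩
    rw [hbody, mem_iInter]
    intro u
    have hu0 : (u : E d) ≠ 0 := by
      intro h'
      have := norm_S u
      rw [h', norm_zero] at this
      exact zero_ne_one this
    have h2 := h u (l * rt d (k u)) hu0 (by
      rw [hcut _ (rt_pos (hk0 u)) (by rw [rt_pow hd (hk0 u).le]; exact (hk1 u).le),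
        rt_pow hd (hk0 u).le, (s u).2.1, hFF])
    simp only [mem_ofPred_eq, inner_smul_right]
    rw [← div_eq_inv_mul, div_le_iff₀ h0, mul_comm]
    exact h2
  · rintro ⟨x, hx, rfl⟩ w τ hw hvol
    obtain ⟨u, hu⟩ := exists_polar hd w
    have hw0 : 0 < ‖w‖ := norm_pos_iff.2 hw
    have hset : {y : E d | inner ℝ w y ≤ τ} = {y : E d | inner ℝ (u : E d) y ≤ τ / ‖w‖} := by
      ext z
      simp only [mem_ofPred_eq]
      rw [le_div_iff₀ hw0]
      conv_lhs => rw [hu, inner_smul_left]
      simp [mul_comm]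
    have hx' : inner ℝ (u : E d) x ≤ rt d (k u) := by
      rw [hbody, mem_iInter] at hx
      exact hx u
    have hkey : l * rt d (k u) ≤ τ / ‖w‖ := by
      by_contra hlt
      push Not at hlt
      have h34 : 0 < rt d (3 / 4) := rt_pos (by norm_num)
      set t1 := max (τ / ‖w‖ / l) (rt d (3 / 4)) with ht1
      have ht10 : 0 < t1 := h34.trans_le (le_max_right _ _)
      have h3 : t1 < rt d (k u) := by
        refine max_lt (by rw [div_lt_iff₀ h0]; linarith) ?_
        refine lt_of_pow_lt_pow_left₀ d (rt_pos (hk0 u)).le ?_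
        rw [rt_pow hd (by norm_num), rt_pow hd (hk0 u).le]
        exact hk1 u
      have h4 : t1 ^ d < k u := by
        rw [← rt_pow hd (hk0 u).le]
        exact pow_lt_pow_left₀ h3 ht10.le hd.ne'
      have h5 : 3 / 4 ≤ t1 ^ d := by
        rw [← rt_pow hd (x := 3 / 4) (by norm_num)]
        exact pow_le_pow_left₀ h34.le (le_max_right _ _) d
      have h6 := (s u).2.2 _ h4
      have h7 : volume (body p \ {y | inner ℝ (u : E d) y ≤ l * t1})
          ≤ volume (body p \ {y | inner ℝ w y ≤ τ}) := by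
        rw [hset]
        refine measure_mono (sdiff_subset_sdiff_right fun z hz => ?_)
        have := le_max_left (τ / ‖w‖ / l) (rt d (3 / 4))
        rw [div_le_iff₀ h0] at this
        have hz' : inner ℝ (u : E d) z ≤ τ / ‖w‖ := hz
        show inner ℝ (u : E d) z ≤ l * t1
        linarith
      rw [hcut _ ht10 h5] at h7
      have h8 := h7.trans hvol
      rw [ENNReal.ofReal_le_ofReal_iff (div_pos (FF_pos hd h0 h1 e) hd').le,
        div_le_div_iff_of_pos_right hd', ← hFF u] at h8
      linarith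
    have : l • x ∈ {y : E d | inner ℝ w y ≤ τ} := by
      rw [hset]
      simp only [mem_ofPred_eq, inner_smul_right]
      exact le_trans (mul_le_mul_of_nonneg_left hx' h0.le) hkey
    exact this

lemma body_between (hd : 0 < d) {p : X d} {ε : ℝ} (hε : ε ≤ 1) (hp : ‖p - 1‖ ≤ ε) :
    closedBall 0 (1 - ε) ⊆ body p ∧ body p ⊆ closedBall 0 (1 + ε) := by
  have hε0 : 0 ≤ ε := (norm_nonneg _).trans hp
  have hp0 : ∀ v, 0 ≤ p v := fun v => by linarith [(abs_le.1 (abs_sub_one_le hp v)).1]
  constructor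
  · intro y hy
    rw [mem_closedBall_zero_iff] at hy
    obtain ⟨v, hv⟩ := exists_polar hd y
    rw [hv, mem_body hd hp0 v (norm_nonneg y)]
    have := pow_le_of_le_one (norm_nonneg y) (by linarith) hd.ne'
    linarith [(abs_le.1 (abs_sub_one_le hp v)).1]
  · intro y hy
    rw [mem_closedBall_zero_iff]
    obtain ⟨v, hv⟩ := exists_polar hd y
    rw [hv, mem_body hd hp0 v (norm_nonneg y)] at hy
    by_contra h
    push Not at h
    have := le_self_pow₀ (by linarith : 1 ≤ ‖y‖) hd.ne'
    linarith [(abs_le.1 (abs_sub_one_le hp v)).2]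

lemma body_rot (hd : 0 < d) {p : X d} (hp0 : ∀ v, 0 ≤ p v) (g : E d ≃ₗᵢ[ℝ] E d)
    (hp : p.comp (rot g) = p) (y : E d) : g y ∈ body p ↔ y ∈ body p := by
  obtain ⟨v, hv⟩ := exists_polar hd y
  have h1 : g y = ‖y‖ • ((rot g v : S d) : E d) := by
    conv_lhs => rw [hv, map_smul]
    rfl
  rw [h1, mem_body hd hp0 _ (norm_nonneg y)]
  conv_rhs => rw [hv, mem_body hd hp0 _ (norm_nonneg y), ← hp]
  rfl

lemma translate_eq_zero {K : Set (E d)} (hK : IsCompact K) (hne : K.Nonempty) {w : E d}
    (h : ∀ y ∈ K, y + w ∈ K) : w = 0 := by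
  obtain ⟨y, hy, hy'⟩ := hK.exists_isMaxOn hne (f := fun y => inner ℝ w y) (by fun_prop)
  have h1 : inner ℝ w (y + w) ≤ inner ℝ w y := hy' (h y hy)
  rw [inner_add_right] at h1
  exact real_inner_self_nonpos.1 (by linarith)

theorem even_of_ellipsoid (hd : 0 < d) {G : Type} [Group G] (ρ : G →* (E d ≃ₗᵢ[ℝ] E d))
    (hfix : ∀ x : E d, (∀ g, ρ g x = x) → x = 0) {p : X d} (hp0 : ∀ v, 0 ≤ p v)
    (hinv : ∀ g, p.comp (rot (ρ g)) = p) (A : E d ≃ᵃ[ℝ] E d)
    (hA : body p = A '' closedBall 0 1) : p.comp (rot (LinearIsometryEquiv.neg ℝ)) = p := by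
  have hK : IsCompact (body p) := by
    rw [hA]
    exact (isCompact_closedBall 0 1).image A.toAffineMap.continuous_of_finiteDimensional
  have hne : (body p).Nonempty := by
    rw [hA]; exact (nonempty_closedBall.2 zero_le_one).image _
  have hsym : ∀ y ∈ body p, A 0 + A 0 - y ∈ body p := by
    rw [hA]
    rintro _ ⟨x, hx, rfl⟩
    refine ⟨-x, by simpa using hx, ?_⟩
    have h1 := A.map_vadd 0 x
    have h2 := A.map_vadd 0 (-x)
    simp only [vadd_eq_add, add_zero, map_neg] at h1 h2
    rw [h1, h2]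
    abel
  have hc : A 0 = 0 := by
    refine hfix _ fun g => ?_
    have h3 : (ρ g (A 0) + ρ g (A 0)) - (A 0 + A 0) = 0 := by
      refine translate_eq_zero hK hne fun y hy => ?_
      have h4 : (ρ g).symm (A 0 + A 0 - y) ∈ body p := by
        rw [← body_rot hd hp0 (ρ g) (hinv g), LinearIsometryEquiv.apply_symm_apply]
        exact hsym y hy
      have h5 := (body_rot hd hp0 (ρ g) (hinv g) _).2 (hsym _ h4)
      rw [map_sub, map_add, LinearIsometryEquiv.apply_symm_apply] at h5
      convert h5 using 1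
      abel
    have h6 : (2 : ℝ) • (ρ g (A 0) - A 0) = 0 := by
      rw [two_smul]
      refine Eq.trans ?_ h3
      abel
    exact sub_eq_zero.1 ((smul_eq_zero.1 h6).resolve_left two_ne_zero)
  have key : ∀ v : S d, p v ≤ p (rot (LinearIsometryEquiv.neg ℝ) v) := by
    intro v
    have hr : 0 ≤ rt d (p v) := Real.rpow_nonneg (hp0 v) _
    have h1 := (mem_body hd hp0 v hr).2 (rt_pow hd (hp0 v)).le
    have h2 := hsym _ h1
    rw [hc, add_zero, zero_sub, ← smul_neg] at h2
    have h3 := (mem_body hd hp0 (rot (LinearIsometryEquiv.neg ℝ) v) hr).1 h2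
    rwa [rt_pow hd (hp0 v)] at h3
  ext v
  refine le_antisymm ?_ (key v)
  have := key (rot (LinearIsometryEquiv.neg ℝ) v)
  have h4 : rot (LinearIsometryEquiv.neg ℝ) (rot (LinearIsometryEquiv.neg ℝ) v) = v := by
    ext1; simp
  rwa [h4] at this

end Pool.Agent.Lib.MP_5b78b3_gt
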