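import Mathlib

/-! An abstract bifurcation lemma (Lyapunov-Schmidt reduction at a simple crossing). -/

namespace Pool.Agent.Lib.MP_5b78b3_gt

open Set

theorem bifurcation {Z : Type} [NormedAddCommGroup Z] [NormedSpace ℝ Z] [CompleteSpace Z]
    (Y : Submodule ℝ Z) (hY : IsClosed (Y : Set Z)) {a b : ℝ} (hab : a ≤ b)
    (Φ : ℝ → Z → Z) (T : ℝ → Z →L[ℝ] Z) (φ : Z) (ℓ : Z →L[ℝ] ℝ) (μ : ℝ → ℝ) (C : ℝ)
    (hφ : φ ∈ Y) (hℓ : ℓ φ = 1)
    (hΦY : ∀ l ∈ Icc a b, ∀ y ∈ Y, Φ l y ∈ Y)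
    (hTY : ∀ l ∈ Icc a b, ∀ y ∈ Y, T l y ∈ Y)
    (hTφ : ∀ l ∈ Icc a b, T l φ = μ l • φ)
    (hTℓ : ∀ l ∈ Icc a b, ∀ y, ℓ (T l y) = μ l * ℓ y)
    (hsurj : ∀ l ∈ Icc a b, ∀ z ∈ Y, ℓ z = 0 → ∃ w ∈ Y, ℓ w = 0 ∧ w - T l w = z)
    (hbd : ∀ l ∈ Icc a b, ∀ w ∈ Y, ℓ w = 0 → ‖w‖ ≤ C * ‖w - T l w‖)
    (h0 : ∀ l ∈ Icc a b, Φ l 0 = 0)
    (hdiff : ∀ θ > 0, ∃ r > 0, ∀ l ∈ Icc a b, ∀ y y' : Z, ‖y‖ ≤ r → ‖y'‖ ≤ r →
      ‖Φ l y - Φ l y' - T l (y - y')‖ ≤ θ * ‖y - y'‖)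
    (hcont : ∃ r > 0, ∀ y : Z, ‖y‖ ≤ r → ContinuousOn (fun l => Φ l y) (Icc a b))
    (ha : 1 < μ a) (hb : μ b < 1) {r : ℝ} (hr : 0 < r) :
    ∃ l ∈ Icc a b, ∃ y ∈ Y, ‖y‖ ≤ r ∧ ℓ y ≠ 0 ∧ Φ l y = y := by
  obtain ⟨C', hC0, hC⟩ : ∃ C' > 0, ∀ l ∈ Icc a b, ∀ w ∈ Y, ℓ w = 0 → ‖w‖ ≤ C' * ‖w - T l w‖ :=
    ⟨max C 1, lt_max_of_lt_right one_pos, fun l hl w hw h => (hbd l hl w hw h).trans
      (mul_le_mul_of_nonneg_right (le_max_left _ _) (norm_nonneg _))⟩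
  obtain ⟨π, hπ⟩ : ∃ π : Z →L[ℝ] Z, ∀ z, π z = z - ℓ z • φ :=
    ⟨ContinuousLinearMap.id ℝ Z - ℓ.smulRight φ, fun _ => rfl⟩
  obtain ⟨P, hP0, hP⟩ : ∃ P > 0, ∀ z, ‖π z‖ ≤ P * ‖z‖ := π.bound
  obtain ⟨L, hL0, hL⟩ : ∃ L > 0, ∀ z, ‖ℓ z‖ ≤ L * ‖z‖ := ℓ.bound
  obtain ⟨F, hF⟩ : ∃ F, F = ‖φ‖ + 1 := ⟨_, rfl⟩
  have hF1 : 1 ≤ F := by rw [hF]; exact le_add_of_nonneg_left (norm_nonneg _)
  have hF0 : 0 < F := by linarith
  obtain ⟨γ, hγ, hγa, hγb⟩ : ∃ γ > 0, γ ≤ μ a - 1 ∧ γ ≤ 1 - μ b :=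
    ⟨_, lt_min (by linarith) (by linarith), min_le_left _ _, min_le_right _ _⟩
  obtain ⟨θ, hθ, hθ1, hθ2⟩ : ∃ θ > 0, C' * P * θ * F ≤ 1 / 2 ∧ L * θ * F ≤ γ / 2 := by
    refine ⟨min (1 / 2 / (C' * P * F)) (γ / 2 / (L * F)), by positivity, ?_, ?_⟩
    · have := (le_div_iff₀ (by positivity)).1 (min_le_left (1 / 2 / (C' * P * F)) (γ / 2 / (L * F)))
      linarith
    · have := (le_div_iff₀ (by positivity)).1
        (min_le_right (1 / 2 / (C' * P * F)) (γ / 2 / (L * F)))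
      linarith
  have hθ3 : C' * P * θ ≤ 1 / 2 := (le_mul_of_one_le_right (by positivity) hF1).trans hθ1
  obtain ⟨r1, hr1, hd⟩ := hdiff θ hθ
  obtain ⟨r2, hr2, hc⟩ := hcont
  obtain ⟨ε, hε, e0, e1, e2⟩ : ∃ ε > 0, ε * F ≤ r ∧ ε * F ≤ r1 ∧ ε * F ≤ r2 := by
    refine ⟨min r (min r1 r2) / F, by positivity, ?_⟩
    rw [div_mul_cancel₀ _ hF0.ne']
    exact ⟨min_le_left _ _, (min_le_right _ _).trans (min_le_left _ _),
      (min_le_right _ _).trans (min_le_right _ _)⟩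
  have hη : ∀ w : Z, ‖w‖ ≤ ε → ‖ε • φ + w‖ ≤ ε * F := fun w hw => by
    refine (norm_add_le _ _).trans ?_
    rw [norm_smul, Real.norm_of_nonneg hε.le, hF]
    linarith
  have hN : ∀ l ∈ Icc a b, ∀ w : Z, ‖w‖ ≤ ε →
      ‖Φ l (ε • φ + w) - T l (ε • φ + w)‖ ≤ θ * (ε * F) := fun l hl w hw => by
    have := hd l hl _ 0 ((hη w hw).trans e1) (by simpa using hr1.le)
    rw [h0 l hl, sub_zero, sub_zero] at this
    exact this.trans (mul_le_mul_of_nonneg_left (hη w hw) hθ.le)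
  have hN' : ∀ l ∈ Icc a b, ∀ w w' : Z, ‖w‖ ≤ ε → ‖w'‖ ≤ ε →
      ‖Φ l (ε • φ + w) - Φ l (ε • φ + w') - T l (w - w')‖ ≤ θ * ‖w - w'‖ := fun l hl w w' h h' => by
    have := hd l hl _ _ ((hη w h).trans e1) ((hη w' h').trans e1)
    rwa [add_sub_add_left_eq_sub] at this
  have hex : ∀ l ∈ Icc a b, ∃ w ∈ Y, ℓ w = 0 ∧ ‖w‖ ≤ ε ∧ π (Φ l (ε • φ + w) - (ε • φ + w)) = 0 := by
    intro l hl
    choose! g g1 g2 g3 using hsurj l hl
    obtain ⟨A, hA⟩ : ∃ A : Z → Z, ∀ w, A w = π (Φ l (ε • φ + w) - T l (ε • φ + w)) :=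
      ⟨_, fun _ => rfl⟩
    have A1 : ∀ w ∈ Y, A w ∈ Y := fun w hw => by
      have h1 := Y.add_mem (Y.smul_mem ε hφ) hw
      rw [hA, hπ]
      exact Y.sub_mem (Y.sub_mem (hΦY l hl _ h1) (hTY l hl _ h1)) (Y.smul_mem _ hφ)
    have A2 : ∀ w, ℓ (A w) = 0 := fun w => by
      rw [hA, hπ, map_sub, map_smul, hℓ, smul_eq_mul, mul_one, sub_self]
    let s : Set Z := {w | w ∈ Y ∧ ℓ w = 0 ∧ ‖w‖ ≤ ε}
    have hs : IsClosed s := hY.inter ((isClosed_eq ℓ.continuous continuous_const).inter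
      (isClosed_le continuous_norm continuous_const))
    have hm : MapsTo (fun w => g (A w)) s s := fun w hw => by
      have h1 := A1 w hw.1
      refine ⟨g1 _ h1 (A2 w), g2 _ h1 (A2 w), (hC l hl _ (g1 _ h1 (A2 w)) (g2 _ h1 (A2 w))).trans ?_⟩
      rw [g3 _ h1 (A2 w), hA]
      calc _ ≤ C' * (P * (θ * (ε * F))) := by
            gcongr
            exact (hP _).trans (mul_le_mul_of_nonneg_left (hN l hl w hw.2.2) hP0.le)
        _ = C' * P * θ * F * ε := by ring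
        _ ≤ ε := mul_le_of_le_one_left hε.le (by linarith)
    have hk : ContractingWith (1 / 2) (hm.restrict _ s s) := by
      refine ⟨by norm_num, LipschitzWith.of_dist_le_mul fun w w' => ?_⟩
      obtain ⟨w, hw⟩ := w
      obtain ⟨w', hw'⟩ := w'
      have h1 := A1 w hw.1
      have h2 := A1 w' hw'.1
      change dist (g (A w)) (g (A w')) ≤ _ * dist w w'
      rw [dist_eq_norm, dist_eq_norm]
      refine (hC l hl _ (Y.sub_mem (g1 _ h1 (A2 w)) (g1 _ h2 (A2 w')))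
        (by rw [map_sub, g2 _ h1 (A2 w), g2 _ h2 (A2 w'), sub_self])).trans ?_
      have h3 : g (A w) - g (A w') - T l (g (A w) - g (A w')) =
          π (Φ l (ε • φ + w) - Φ l (ε • φ + w') - T l (w - w')) := by
        rw [map_sub, sub_sub_sub_comm, g3 _ h1 (A2 w), g3 _ h2 (A2 w'), hA, hA, ← map_sub]
        congr 1
        simp only [map_add, map_sub]
        abel
      rw [h3]
      calc _ ≤ C' * (P * (θ * ‖w - w'‖)) := by
            gcongr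
            exact (hP _).trans (mul_le_mul_of_nonneg_left (hN' l hl w w' hw.2.2 hw'.2.2) hP0.le)
        _ = C' * P * θ * ‖w - w'‖ := by ring
        _ ≤ _ := mul_le_mul_of_nonneg_right (by simpa using hθ3) (norm_nonneg _)
    obtain ⟨w, hw, h1, -⟩ := hk.exists_fixedPoint' hs.isComplete hm (x := 0)
      ⟨Y.zero_mem, map_zero _, by simpa using hε.le⟩ (edist_ne_top _ _)
    have h2 := g3 _ (A1 w hw.1) (A2 w)
    rw [show g (A w) = w from h1, hA] at h2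
    refine ⟨w, hw.1, hw.2.1, hw.2.2, ?_⟩
    rw [← sub_add_sub_cancel _ (T l (ε • φ + w)), map_add, ← h2, hπ]
    simp only [map_add, map_sub, map_smul, hTφ l hl, hTℓ l hl, hℓ, hw.2.1, smul_eq_mul]
    module
  choose! w w1 w2 w3 w4 using hex
  obtain ⟨G, hG⟩ : ∃ G : ℝ → ℝ, ∀ l, G l = ℓ (Φ l (ε • φ + w l) - (ε • φ + w l)) :=
    ⟨_, fun _ => rfl⟩
  have key : ∀ l ∈ Icc a b, ∀ l' ∈ Icc a b,
      ‖G l - G l'‖ ≤ (L * θ * (2 * C' * P) + L) * ‖Φ l (ε • φ + w l') - Φ l' (ε • φ + w l')‖ := by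
    intro l hl l' hl'
    have h1 : ℓ (w l - w l') = 0 := by rw [map_sub, w2 l hl, w2 l' hl', sub_self]
    have h2 := hN' l hl _ _ (w3 l hl) (w3 l' hl')
    have h3 := hC l hl _ (Y.sub_mem (w1 l hl) (w1 l' hl')) h1
    have h4 : w l - w l' - T l (w l - w l') =
        π (Φ l (ε • φ + w l) - Φ l (ε • φ + w l') - T l (w l - w l')) +
          π (Φ l (ε • φ + w l') - Φ l' (ε • φ + w l')) := by
      have h5 : π (w l - w l' - T l (w l - w l')) = w l - w l' - T l (w l - w l') := by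
        rw [hπ, map_sub ℓ, hTℓ l hl, h1, mul_zero, sub_zero, zero_smul, sub_zero]
      have h6 : π (Φ l' (ε • φ + w l') - (ε • φ + w l') - (Φ l (ε • φ + w l) - (ε • φ + w l))) =
          0 := by rw [map_sub, w4 l hl, w4 l' hl', sub_self]
      rw [← h5, ← map_add, ← sub_eq_zero, ← map_sub π, ← h6]
      congr 1
      abel
    have h5 : G l - G l' = ℓ (Φ l (ε • φ + w l) - Φ l (ε • φ + w l') - T l (w l - w l')) +
        ℓ (Φ l (ε • φ + w l') - Φ l' (ε • φ + w l')) := by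
      simp only [hG, map_add, map_sub, hTℓ l hl, w2 l hl, w2 l' hl']
      ring
    rw [h5]
    rw [h4] at h3
    generalize Φ l (ε • φ + w l') - Φ l' (ε • φ + w l') = D at *
    generalize Φ l (ε • φ + w l) - Φ l (ε • φ + w l') - T l (w l - w l') = E at *
    generalize ‖w l - w l'‖ = d at *
    have h6 : d ≤ 2 * C' * P * ‖D‖ := by
      have h7 : C' * ‖π E + π D‖ ≤ C' * (P * (θ * d) + P * ‖D‖) := by
        gcongr
        exact (norm_add_le _ _).trans (add_le_add ((hP _).trans (by gcongr)) (hP _))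
      have h8 : 0 ≤ d := le_of_mul_le_mul_left (by simpa using (norm_nonneg E).trans h2) hθ
      nlinarith [mul_le_mul_of_nonneg_right hθ3 h8]
    calc _ ≤ L * (θ * (2 * C' * P * ‖D‖)) + L * ‖D‖ :=
          (norm_add_le _ _).trans (add_le_add ((hL _).trans (by
            gcongr
            exact h2.trans (by gcongr))) (hL _))
      _ = _ := by ring
  have hGc : ContinuousOn G (Icc a b) := fun l' hl' => by
    refine tendsto_iff_norm_sub_tendsto_zero.2 (squeeze_zero' (.of_forall fun _ => norm_nonneg _)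
      (eventually_mem_nhdsWithin.mono fun l hl => key l hl l' hl') ?_)
    simpa using (tendsto_iff_norm_sub_tendsto_zero.1
      (hc _ ((hη _ (w3 l' hl')).trans e2) l' hl')).const_mul (L * θ * (2 * C' * P) + L)
  have hGe : ∀ l ∈ Icc a b, |G l - (μ l - 1) * ε| ≤ γ / 2 * ε := fun l hl => by
    have h1 : G l - (μ l - 1) * ε = ℓ (Φ l (ε • φ + w l) - T l (ε • φ + w l)) := by
      rw [hG, map_sub ℓ _ (T l _), hTℓ l hl]
      simp only [map_add, map_sub, map_smul, hℓ, w2 l hl, smul_eq_mul]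
      ring
    rw [h1]
    calc _ ≤ L * (θ * (ε * F)) :=
          (hL _).trans (mul_le_mul_of_nonneg_left (hN l hl _ (w3 l hl)) hL0.le)
      _ = L * θ * F * ε := by ring
      _ ≤ _ := mul_le_mul_of_nonneg_right hθ2 hε.le
  have h1 := (abs_le.1 (hGe a (left_mem_Icc.2 hab))).1
  have h2 := (abs_le.1 (hGe b (right_mem_Icc.2 hab))).2
  obtain ⟨l, hl, h3⟩ := intermediate_value_Icc' hab hGc (a := a) (b := b)
    (show (0 : ℝ) ∈ Icc (G b) (G a) from ⟨by nlinarith, by nlinarith⟩)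
  refine ⟨l, hl, ε • φ + w l, Y.add_mem (Y.smul_mem ε hφ) (w1 l hl), (hη _ (w3 l hl)).trans e0,
    ?_, ?_⟩
  · simpa [hℓ, w2 l hl] using hε.ne'
  · have h4 := w4 l hl
    rwa [hπ, ← hG, h3, zero_smul, sub_zero, sub_eq_zero] at h4

end Pool.Agent.Lib.MP_5b78b3_gt
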