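import Mathlib
import Pool.Agent.Lib.MP_5b78b3_gt.Once
import Pool.Agent.Lib.MP_5b78b3_gt.Defs

/-! Numerical facts about the multipliers. -/

namespace Pool.Agent.Lib.MP_5b78b3_gt

private lemma numer_Q0 (d : ℕ) (l : ℝ) : QQ d 0 l = 1 := by
  simp [QQ, gam]

private lemma numer_Q2 (d : ℕ) (l : ℝ) : QQ d 2 l = l ^ 2 - (1 - l ^ 2) * gam d 1 := by
  simp [QQ, Finset.sum_range_succ, show gam d 0 = 1 from rfl]; ring

private lemma numer_Q3 (d : ℕ) (l : ℝ) : QQ d 3 l = l ^ 3 - 3 * l * (1 - l ^ 2) * gam d 1 := by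
  simp [QQ, Finset.sum_range_succ, show gam d 0 = 1 from rfl, Nat.choose]; ring

private lemma numer_Q4 (d : ℕ) (l : ℝ) : QQ d 4 l =
    l ^ 4 - 6 * l ^ 2 * (1 - l ^ 2) * gam d 1 + (1 - l ^ 2) ^ 2 * gam d 2 := by
  simp [QQ, Finset.sum_range_succ, show gam d 0 = 1 from rfl, Nat.choose]; ring

private lemma numer_Q5 (d : ℕ) (l : ℝ) : QQ d 5 l =
    l ^ 5 - 10 * l ^ 3 * (1 - l ^ 2) * gam d 1 + 5 * l * (1 - l ^ 2) ^ 2 * gam d 2 := by
  simp [QQ, Finset.sum_range_succ, show gam d 0 = 1 from rfl, Nat.choose]; ring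

private lemma numer_tl (d : ℕ) (l : ℝ) : tl d 3 l = l ^ 6 + 3 * l ^ 4 * (1 - l ^ 2) * gam d 1 +
    3 * l ^ 2 * (1 - l ^ 2) ^ 2 * gam d 2 + (1 - l ^ 2) ^ 3 * gam d 3 := by
  simp [tl, Finset.sum_range_succ, show gam d 0 = 1 from rfl, Nat.choose]; ring

private lemma numer_gam {d : ℕ} (hd : 4 ≤ d) : 0 < gam d 1 ∧ gam d 1 ≤ 1 / 5 ∧ 0 < gam d 2 ∧
    gam d 2 ≤ 3 / 35 ∧ 0 < gam d 3 ∧ gam d 3 ≤ 5 / 9 * gam d 2 := by
  have h : (4 : ℝ) ≤ d := by exact_mod_cast hd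
  have e1 : gam d 1 = 1 / (d + 1) := by simp [gam]
  have e2 : gam d 2 = gam d 1 * (3 / (d + 3)) := by
    rw [show gam d 2 = gam d 1 * (2 * ((1 : ℕ) : ℝ) + 1) / (2 * ((1 : ℕ) : ℝ) + d + 1) from rfl]
    push_cast; ring
  have e3 : gam d 3 = gam d 2 * (5 / (d + 5)) := by
    rw [show gam d 3 = gam d 2 * (2 * ((2 : ℕ) : ℝ) + 1) / (2 * ((2 : ℕ) : ℝ) + d + 1) from rfl]
    push_cast; ring
  have a1 : 0 < gam d 1 := by rw [e1]; positivity
  have a2 : gam d 1 ≤ 1 / 5 := by rw [e1]; gcongr; linarith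
  have a3 : (3 : ℝ) / (d + 3) ≤ 3 / 7 := by gcongr; linarith
  have a4 : (5 : ℝ) / (d + 5) ≤ 5 / 9 := by gcongr; linarith
  have a5 : 0 < gam d 2 := by rw [e2]; positivity
  refine ⟨a1, a2, a5, ?_, by rw [e3]; positivity, ?_⟩
  · rw [e2]
    exact (mul_le_mul a2 a3 (by positivity) (by norm_num)).trans (by norm_num)
  · rw [e3, mul_comm]
    gcongr

private lemma numer_pow {l : ℝ} (h0 : 0 ≤ l) (h1 : l ≤ 1 / 10) (n : ℕ) :
    0 ≤ l ^ (n + 2) ∧ l ^ (n + 2) ≤ l / 10 := by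
  refine ⟨by positivity, ?_⟩
  have h2 : l ^ n ≤ 1 := pow_le_one₀ h0 (by linarith)
  have h3 : l * l ≤ l / 10 := by nlinarith
  calc l ^ (n + 2) = l ^ n * (l * l) := by ring
    _ ≤ 1 * (l / 10) := by gcongr
    _ = l / 10 := one_mul _

theorem num_high {d : ℕ} (hd : 4 ≤ d) : ∃ a b g : ℝ, Num d 4 3 a b g := by
  obtain ⟨x0, x1, y0, y1, z0, z1⟩ := numer_gam hd
  have key : ∀ l : ℝ, 0 < l → l ≤ 1 / 10 → 0 ≤ 1 - l ^ 2 ∧ 1 - l ^ 2 ≤ 1 := fun l h0 h1 =>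
    ⟨by nlinarith, by nlinarith⟩
  refine ⟨4 / 5 * gam d 2, gam d 2, gam d 2 / 10, by positivity, by linarith, by linarith,
    by positivity, ?_, ?_, fun l hl => ?_⟩
  · rw [numer_Q4]
    generalize gam d 1 = x, gam d 2 = y at *
    obtain ⟨u0, u1⟩ := key (4 / 5 * y) (by positivity) (by linarith)
    have h1 : (4 / 5 * y) ^ 2 ≤ y / 18 := by nlinarith
    have h2 : (1 - (4 / 5 * y) ^ 2) * x ≤ 1 / 5 := by nlinarith
    have h3 : (4 / 5 * y) ^ 2 * ((1 - (4 / 5 * y) ^ 2) * x) ≤ y / 18 * (1 / 5) := by gcongr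
    have h4 : (9 / 10 : ℝ) ≤ (1 - (4 / 5 * y) ^ 2) ^ 2 := by nlinarith
    have h5 : 9 / 10 * y ≤ (1 - (4 / 5 * y) ^ 2) ^ 2 * y := by gcongr
    have h6 : 0 ≤ (4 / 5 * y) ^ 4 := by positivity
    linarith
  · rw [numer_Q4]
    generalize gam d 1 = x, gam d 2 = y at *
    obtain ⟨u0, u1⟩ := key y y0 (by linarith)
    have h1 : 0 ≤ y ^ 2 * (1 - y ^ 2) * x := by positivity
    have h2 : 0 < y ^ 3 * (2 - y - y ^ 2) := mul_pos (by positivity) (by nlinarith)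
    nlinarith
  · obtain ⟨l0, l1⟩ := hl
    have l2 : 0 < l := by linarith
    have l3 : l ≤ 1 / 10 := by linarith
    obtain ⟨u0, u1⟩ := key l l2 l3
    have p := numer_pow l2.le l3
    have q2 : (1 - l ^ 2) ^ 2 ≤ 1 := pow_le_one₀ u0 u1
    have q3 : (1 - l ^ 2) ^ 3 ≤ 1 := pow_le_one₀ u0 u1
    refine ⟨fun k hk h1 h4 => ?_, ?_⟩
    · interval_cases k
      · rw [numer_Q0]
        exact le_abs.2 (Or.inl (by linarith))
      · exact absurd rfl h1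
      · rw [numer_Q2]
        have : 0 ≤ (1 - l ^ 2) * gam d 1 := by positivity
        exact le_abs.2 (Or.inr (by linarith [(p 0).2]))
      · rw [numer_Q3]
        have : 0 ≤ l * (1 - l ^ 2) * gam d 1 := by positivity
        exact le_abs.2 (Or.inr (by linarith [(p 1).2]))
      · exact absurd rfl h4
      · rw [numer_Q5]
        have h2 : 0 ≤ l ^ 3 * (1 - l ^ 2) * gam d 1 := by positivity
        have h3 : l * (1 - l ^ 2) ^ 2 * gam d 2 ≤ l * 1 * (3 / 35) := by gcongr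
        exact le_abs.2 (Or.inr (by linarith [(p 3).2]))
    · rw [numer_tl]
      have h0 : l ^ 2 ≤ 1 / 100 := by nlinarith
      have h1 : l ^ 4 * (1 - l ^ 2) * gam d 1 ≤ l ^ 4 * 1 * (1 / 5) := by gcongr
      have h2 : l ^ 2 * (1 - l ^ 2) ^ 2 * gam d 2 ≤ 1 / 100 * 1 * gam d 2 := by gcongr
      have h3 : (1 - l ^ 2) ^ 3 * gam d 3 ≤ 1 * gam d 3 := by gcongr
      have h4 : l ^ 2 * l ^ 2 ≤ 1 / 100 * (l / 10) := mul_le_mul h0 (p 0).2 (p 0).1 (by norm_num)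
      have h5 : l ^ 2 * l ^ 4 ≤ 1 / 100 * (l / 10) := mul_le_mul h0 (p 2).2 (p 2).1 (by norm_num)
      nlinarith

theorem num_three : ∃ a b g : ℝ, Num 3 8 5 a b g := by
  refine ⟨48 / 1000, 50 / 1000, 1 / 1000, by norm_num, by norm_num, by norm_num, by norm_num,
    by norm_num [QQ, Finset.sum_range_succ, gam, Nat.choose],
    by norm_num [QQ, Finset.sum_range_succ, gam, Nat.choose], fun l hl => ?_⟩
  obtain ⟨l0, l1⟩ := hl
  have l2 : 0 ≤ l := by linarith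
  have p : ∀ n : ℕ, 0 ≤ l ^ n ∧ l ^ n ≤ (50 / 1000) ^ n := fun n =>
    ⟨by positivity, pow_le_pow_left₀ l2 l1 n⟩
  obtain ⟨a2, b2⟩ := p 2
  obtain ⟨a3, b3⟩ := p 3
  obtain ⟨a4, b4⟩ := p 4
  obtain ⟨a5, b5⟩ := p 5
  obtain ⟨a6, b6⟩ := p 6
  obtain ⟨a7, b7⟩ := p 7
  obtain ⟨a8, b8⟩ := p 8
  obtain ⟨a9, b9⟩ := p 9
  obtain ⟨a10, b10⟩ := p 10
  refine ⟨fun k hk h1 h8 => le_abs.2 ?_, ?_⟩
  · interval_cases k
    all_goals first
      | exact absurd rfl h1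
      | exact absurd rfl h8
      | (left; norm_num [QQ, Finset.sum_range_succ, gam, Nat.choose]; linarith)
      | (right; norm_num [QQ, Finset.sum_range_succ, gam, Nat.choose]; linarith)
  · norm_num [tl, Finset.sum_range_succ, gam, Nat.choose]
    linarith

end Pool.Agent.Lib.MP_5b78b3_gt
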