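import Mathlib
import Pool.Agent.Lib.MP_5b78b3_gt.Base

/-! The rotation group of the cube has its first odd invariant in degree nine. -/

namespace Pool.Agent.Lib.MP_5b78b3_gt

open Equiv Finset

/-- frame coordinates -/
noncomputable def octT (v : E 3) : Fin 4 → ℝ :=
  ![(v 0 + v 1 + v 2) / 2, (v 0 - v 1 - v 2) / 2, (-v 0 + v 1 - v 2) / 2, (-v 0 - v 1 + v 2) / 2]

/-- synthesis from frame coordinates -/
noncomputable def octS (y : Fin 4 → ℝ) : E 3 :=
  !₂[(y 0 + y 1 - y 2 - y 3) / 2, (y 0 - y 1 + y 2 - y 3) / 2, (y 0 - y 1 - y 2 + y 3) / 2]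

lemma oct_ST (v : E 3) : octS (octT v) = v := by
  ext i
  fin_cases i <;> simp [octS, octT] <;> ring

lemma oct_TS {y : Fin 4 → ℝ} (h : ∑ i, y i = 0) : octT (octS y) = y := by
  rw [Fin.sum_univ_four] at h
  ext i
  fin_cases i <;> simp [octS, octT] <;> linarith

lemma oct_sumT (v : E 3) : ∑ i, octT v i = 0 := by
  simp [octT, Fin.sum_univ_four]
  ring

lemma oct_inner3 (a v : E 3) : inner ℝ a v = a 0 * v 0 + a 1 * v 1 + a 2 * v 2 := by
  simp [PiLp.inner_apply, Fin.sum_univ_three, mul_comm]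

lemma oct_inner (a v : E 3) : inner ℝ a v = ∑ i, octT a i * octT v i := by
  rw [oct_inner3]
  simp [octT, Fin.sum_univ_four]
  ring

/-- the action of a permutation -/
noncomputable def octM (p : Perm (Fin 4)) (v : E 3) : E 3 :=
  octS fun i => ((Perm.sign p : ℤ) : ℝ) * octT v (p⁻¹ i)

lemma oct_TM (p : Perm (Fin 4)) (v : E 3) (i : Fin 4) :
    octT (octM p v) i = ((Perm.sign p : ℤ) : ℝ) * octT v (p⁻¹ i) := by
  rw [octM, oct_TS]
  rw [← mul_sum, Equiv.sum_comp p⁻¹ (octT v), oct_sumT, mul_zero]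

lemma oct_mul (p q : Perm (Fin 4)) (v : E 3) : octM (p * q) v = octM p (octM q v) := by
  rw [octM, octM]
  congr 1
  ext i
  rw [oct_TM, map_mul, mul_inv_rev, Perm.mul_apply]
  push_cast
  ring

lemma oct_one (v : E 3) : octM 1 v = v := by
  simp [octM, oct_ST]

lemma oct_norm (p : Perm (Fin 4)) (v : E 3) : ‖octM p v‖ = ‖v‖ := by
  have h : ((Perm.sign p : ℤ) : ℝ) * ((Perm.sign p : ℤ) : ℝ) = 1 := by
    rcases Int.units_eq_one_or (Perm.sign p) with h | h <;> simp [h]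
  rw [norm_eq_sqrt_real_inner, norm_eq_sqrt_real_inner v, oct_inner, oct_inner,
    ← Equiv.sum_comp p⁻¹ fun i => octT v i * octT v i]
  simp only [oct_TM]
  congr 1
  exact sum_congr rfl fun i _ => by linear_combination octT v (p⁻¹ i) * octT v (p⁻¹ i) * h

lemma oct_Tadd (v w : E 3) (i : Fin 4) : octT (v + w) i = octT v i + octT w i := by
  fin_cases i <;> simp [octT] <;> ring

lemma oct_Tsmul (c : ℝ) (v : E 3) (i : Fin 4) : octT (c • v) i = c * octT v i := by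
  fin_cases i <;> simp [octT] <;> ring

/-- the isometry given by a permutation -/
noncomputable def octI (p : Perm (Fin 4)) : E 3 ≃ₗᵢ[ℝ] E 3 where
  toFun := octM p
  invFun := octM p⁻¹
  map_add' v w := by
    ext i
    fin_cases i <;> simp [octM, octS, oct_Tadd] <;> ring
  map_smul' c v := by
    ext i
    fin_cases i <;> simp [octM, octS, oct_Tsmul] <;> ring
  left_inv v := by rw [← oct_mul, inv_mul_cancel, oct_one]
  right_inv v := by rw [← oct_mul, mul_inv_cancel, oct_one]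
  norm_map' := oct_norm p

/-- the representation -/
noncomputable def octR : Perm (Fin 4) →* (E 3 ≃ₗᵢ[ℝ] E 3) :=
  MonoidHom.mk' octI fun p q => LinearIsometryEquiv.ext fun v => oct_mul p q v

lemma oct_list : (univ : Finset (Perm (Fin 4))).val.map
    (fun p => ((Perm.sign p : ℤ), p⁻¹ 0, p⁻¹ 1, p⁻¹ 2, p⁻¹ 3)) =
    (([(1, 0, 1, 2, 3), (-1, 0, 1, 3, 2), (-1, 0, 2, 1, 3), (1, 0, 2, 3, 1), (1, 0, 3, 1, 2),
      (-1, 0, 3, 2, 1), (-1, 1, 0, 2, 3), (1, 1, 0, 3, 2), (1, 1, 2, 0, 3), (-1, 1, 2, 3, 0),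
      (-1, 1, 3, 0, 2), (1, 1, 3, 2, 0), (1, 2, 0, 1, 3), (-1, 2, 0, 3, 1), (-1, 2, 1, 0, 3),
      (1, 2, 1, 3, 0), (1, 2, 3, 0, 1), (-1, 2, 3, 1, 0), (-1, 3, 0, 1, 2), (1, 3, 0, 2, 1),
      (1, 3, 1, 0, 2), (-1, 3, 1, 2, 0), (-1, 3, 2, 0, 1), (1, 3, 2, 1, 0)] :
      List (ℤ × Fin 4 × Fin 4 × Fin 4 × Fin 4)) : Multiset _) := by
  decide +kernel

lemma oct_sum (F : ℝ → ℝ) (a v : E 3) : ∑ p, F (inner ℝ a (octR p v)) =
    (([(1, 0, 1, 2, 3), (-1, 0, 1, 3, 2), (-1, 0, 2, 1, 3), (1, 0, 2, 3, 1), (1, 0, 3, 1, 2),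
      (-1, 0, 3, 2, 1), (-1, 1, 0, 2, 3), (1, 1, 0, 3, 2), (1, 1, 2, 0, 3), (-1, 1, 2, 3, 0),
      (-1, 1, 3, 0, 2), (1, 1, 3, 2, 0), (1, 2, 0, 1, 3), (-1, 2, 0, 3, 1), (-1, 2, 1, 0, 3),
      (1, 2, 1, 3, 0), (1, 2, 3, 0, 1), (-1, 2, 3, 1, 0), (-1, 3, 0, 1, 2), (1, 3, 0, 2, 1),
      (1, 3, 1, 0, 2), (-1, 3, 1, 2, 0), (-1, 3, 2, 0, 1), (1, 3, 2, 1, 0)] :
      List (ℤ × Fin 4 × Fin 4 × Fin 4 × Fin 4)).map fun t => F ((t.1 : ℝ) *
        (octT a 0 * octT v t.2.1 + octT a 1 * octT v t.2.2.1 + octT a 2 * octT v t.2.2.2.1 +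
          octT a 3 * octT v t.2.2.2.2))).sum := by
  rw [← Multiset.sum_coe, ← Multiset.map_coe, ← oct_list, Multiset.map_map, Finset.sum]
  congr 2
  ext p
  change F (inner ℝ a (octM p v)) = _
  rw [oct_inner, Fin.sum_univ_four]
  simp only [oct_TM, Function.comp]
  congr 1
  ring

/-- the invariant of degree nine -/
def octJ (x : E 3) : ℝ :=
  x 0 * x 1 * x 2 * (x 0 ^ 2 - x 1 ^ 2) * (x 1 ^ 2 - x 2 ^ 2) * (x 2 ^ 2 - x 0 ^ 2)

lemma oct_pow (a v : E 3) : (∑ p, inner ℝ a (octR p v) ^ 1 = 0) ∧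
    (∑ p, inner ℝ a (octR p v) ^ 3 = 0) ∧ (∑ p, inner ℝ a (octR p v) ^ 5 = 0) ∧
    (∑ p, inner ℝ a (octR p v) ^ 7 = 0) ∧
    (∑ p, inner ℝ a (octR p v) ^ 2 = 8 * inner ℝ a a * inner ℝ v v) ∧
    (∑ p, inner ℝ a (octR p v) ^ 9 = 2016 * octJ a * octJ v) := by
  rw [oct_sum (· ^ 1), oct_sum (· ^ 3), oct_sum (· ^ 5), oct_sum (· ^ 7), oct_sum (· ^ 2),
    oct_sum (· ^ 9), oct_inner3, oct_inner3]
  simp only [List.map, List.sum_cons, List.sum_nil, octT, octJ, Matrix.cons_val, Int.cast_neg,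
    Int.cast_one]
  refine ⟨?_, ?_, ?_, ?_, ?_, ?_⟩ <;> ring

lemma oct_apply (a : E 3) (k : ℕ) (v : S 3) :
    sumG octR (lin a ^ k) v = ∑ p, inner ℝ a (octR p (v : E 3)) ^ k := by
  rw [sumG, ContinuousMap.sum_apply]
  rfl

theorem good_three :
    ∃ (G : Type) (_ : Group G) (_ : Fintype G) (ρ : G →* (E 3 ≃ₗᵢ[ℝ] E 3)), Good 9 ρ := by
  refine ⟨Perm (Fin 4), inferInstance, inferInstance, octR, fun x hx => ?_, fun a => ?_, ?_⟩
  · have h := (oct_pow x x).1
    simp only [hx, pow_one, sum_const, card_univ, nsmul_eq_mul, mul_eq_zero, Nat.cast_eq_zero,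
      Fintype.card_ne_zero, false_or] at h
    exact inner_self_eq_zero.1 h
  · have h : sumG octR (lin a ^ 2) = (8 * inner ℝ a a) • lin (0 : E 3) ^ 0 := by
      ext v
      rw [oct_apply, (oct_pow a v).2.2.2.2.1, real_inner_self_eq_norm_sq (v : E 3),
        norm_eq_of_mem_sphere v]
      simp
    rw [h]
    exact Submodule.smul_mem _ _ (Submodule.subset_span ⟨0, 0, zero_le_one, rfl⟩)
  obtain ⟨b, hb⟩ : ∃ b : E 3, octJ b ≠ 0 ∧ ‖b‖ = 1 := by
    refine ⟨!₂[2 / 7, 3 / 7, 6 / 7], by simp [octJ]; norm_num, ?_⟩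
    rw [norm_eq_sqrt_real_inner, oct_inner3]
    simp
    norm_num
  have hf : ∀ (a : E 3) (v : S 3), sumG octR (lin a ^ 9) v = 2016 * octJ a * octJ v := fun a v => by
    rw [oct_apply, (oct_pow a v).2.2.2.2.2]
  have hinv : ∀ (g : Perm (Fin 4)) (v : S 3),
      sumG octR (lin b ^ 9) (rot (octR g) v) = sumG octR (lin b ^ 9) v := fun g v => by
    rw [oct_apply, oct_apply, ← Equiv.sum_comp (Equiv.mulRight g)
      fun p => inner ℝ b (octR p (v : E 3)) ^ 9]
    simp only [Equiv.coe_mulRight, map_mul]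
    rfl
  refine ⟨sumG octR (lin b ^ 9), Submodule.sum_mem _ fun g _ => Submodule.subset_span
    ⟨(octR g).symm b, 9, le_rfl, ?_⟩, fun g => ContinuousMap.ext (hinv g), fun h => ?_, fun a => ?_⟩
  · ext v
    change inner ℝ b (octR g (v : E 3)) ^ 9 = inner ℝ ((octR g).symm b) (v : E 3) ^ 9
    rw [← (octR g).inner_map_map ((octR g).symm b), LinearIsometryEquiv.apply_symm_apply]
  · obtain ⟨u, hu⟩ : ∃ u : S 3, (u : E 3) = b := ⟨⟨b, mem_sphere_zero_iff_norm.2 hb.2⟩, rfl⟩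
    have key : ∀ f ∈ PP 3 (9 - 1), sumG octR f (-u) = sumG octR f u := by
      intro f hf
      induction hf using Submodule.span_induction with
      | mem f hf =>
        obtain ⟨a, k, hk, rfl⟩ := hf
        obtain ⟨h1, h3, h5, h7, -⟩ := oct_pow a u
        obtain ⟨g1, g3, g5, g7, -⟩ := oct_pow a (-u : S 3)
        rw [oct_apply, oct_apply]
        rcases k.even_or_odd with he | ho
        · simp only [coe_neg_sphere, map_neg, inner_neg_right, he.neg_pow]
        · obtain ⟨j, rfl⟩ := ho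
          have hj : j < 4 := by omega
          interval_cases j
          exacts [g1.trans h1.symm, g3.trans h3.symm, g5.trans h5.symm, g7.trans h7.symm]
      | zero => simp [sumG]
      | add f g _ _ h1 h2 =>
        simp only [sumG, ContinuousMap.sum_apply, ContinuousMap.comp_apply,
          ContinuousMap.add_apply, sum_add_distrib] at h1 h2 ⊢
        rw [h1, h2]
      | smul c f _ h1 =>
        simp only [sumG, ContinuousMap.sum_apply, ContinuousMap.comp_apply,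
          ContinuousMap.smul_apply, smul_eq_mul, ← mul_sum] at h1 ⊢
        rw [h1]
    have h2 := key _ h
    rw [sumG, ContinuousMap.sum_apply, ContinuousMap.sum_apply] at h2
    simp only [ContinuousMap.comp_apply, hinv, sum_const, card_univ, nsmul_eq_mul] at h2
    have h3 := mul_left_cancel₀ (Nat.cast_ne_zero.2 Fintype.card_ne_zero) h2
    have h4 : octJ (-b) = -octJ b := by
      simp only [octJ, PiLp.neg_apply]
      ring
    rw [hf, hf, coe_neg_sphere, hu, h4] at h3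
    exact hb.1 (by nlinarith)
  · have h : sumG octR (lin a ^ 9) = (octJ a / octJ b) • sumG octR (lin b ^ 9) := by
      ext v
      have := hb.1
      rw [ContinuousMap.smul_apply, hf, hf, smul_eq_mul]
      field_simp
    rw [h]
    exact Submodule.mem_sup_left (Submodule.smul_mem _ _ (Submodule.mem_span_singleton_self _))

end Pool.Agent.Lib.MP_5b78b3_gt
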