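import Mathlib
import Pool.Agent.Lib.MP_5b78b3_gt.Base

/-! The symmetry group of the regular simplex has exactly one new invariant in degree five. -/

namespace Pool.Agent.Lib.MP_5b78b3_gt

open Equiv Finset

section key

variable {R : Type*} [CommRing R] {ι : Type*} [Fintype ι] [DecidableEq ι]

lemma simplex_perm (x : ι → R) (e : ι → ℕ) (τ : Perm ι) :
    ∑ p : Perm ι, ∏ i, x (p i) ^ e (τ i) = ∑ p : Perm ι, ∏ i, x (p i) ^ e i := by
  rw [← Equiv.sum_comp (Equiv.mulRight τ) fun p : Perm ι => ∏ i, x (p i) ^ e (τ i)]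
  refine sum_congr rfl fun p _ => ?_
  rw [← Equiv.prod_comp τ fun i => x (p i) ^ e i]
  rfl

lemma simplex_mul (x : ι → R) (e : ι → ℕ) (k : ℕ) :
    (∑ p : Perm ι, ∏ i, x (p i) ^ e i) * ∑ j, x j ^ k =
      ∑ j, ∑ p : Perm ι, ∏ i, x (p i) ^ (e i + if i = j then k else 0) := by
  rw [sum_mul, sum_comm]
  refine sum_congr rfl fun p _ => ?_
  rw [← Equiv.sum_comp p fun j => x j ^ k, mul_sum]
  refine sum_congr rfl fun j _ => ?_
  simp only [pow_add, prod_mul_distrib, pow_ite, pow_zero, prod_ite_eq', mem_univ, if_true]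

lemma simplex_key [Algebra ℝ R] (x : ι → R) (A : ℕ → Submodule ℝ R) (N : ℕ) (h0 : (1 : R) ∈ A 0)
    (hm : ∀ n k, 1 ≤ k → n + k ≤ N → ∀ f ∈ A n, f * ∑ i, x i ^ k ∈ A (n + k)) (s : ℕ) :
    ∀ e : ι → ℕ, (univ.filter fun i => e i ≠ 0).card = s → ∑ i, e i ≤ N →
      ∑ p : Perm ι, ∏ i, x (p i) ^ e i ∈ A (∑ i, e i) := by
  induction s with
  | zero =>
    intro e he _
    have h : ∀ i, e i = 0 := fun i => by
      by_contra hi
      have : i ∈ univ.filter fun i => e i ≠ 0 := by simpa using hi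
      rw [card_eq_zero.1 he] at this
      simp at this
    simp only [h, pow_zero, prod_const_one, sum_const_zero]
    exact Submodule.sum_mem _ fun _ _ => h0
  | succ s ih =>
    intro e he hN
    obtain ⟨i0, hi0⟩ : (univ.filter fun i => e i ≠ 0).Nonempty := card_pos.1 (by omega)
    have hk : e i0 ≠ 0 := (mem_filter.1 hi0).2
    set e' : ι → ℕ := fun i => if i = i0 then 0 else e i with he'
    have hsum : ∑ i, e' i + e i0 = ∑ i, e i := by
      have : ∀ i, e i = e' i + if i = i0 then e i0 else 0 := fun i => by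
        by_cases h : i = i0 <;> simp [he', h]
      rw [sum_congr rfl fun i _ => this i, sum_add_distrib]
      simp
    have hsupp : (univ.filter fun i => e' i ≠ 0) = (univ.filter fun i => e i ≠ 0).erase i0 := by
      ext i
      by_cases h : i = i0 <;> simp [he', h]
    have hcard : (univ.filter fun i => e' i ≠ 0).card = s := by
      rw [hsupp, card_erase_of_mem hi0, he]
      rfl
    have h1 := hm _ _ (Nat.one_le_iff_ne_zero.2 hk) (hsum ▸ hN) _ (ih e' hcard (by omega))
    rw [simplex_mul, hsum, ← sum_filter_add_sum_filter_not univ (fun i => e' i ≠ 0) fun j =>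
      ∑ p : Perm ι, ∏ i, x (p i) ^ (e' i + if i = j then e i0 else 0)] at h1
    have h2 : ∑ j ∈ univ.filter (fun i => e' i ≠ 0),
        ∑ p : Perm ι, ∏ i, x (p i) ^ (e' i + if i = j then e i0 else 0) ∈ A (∑ i, e i) := by
      refine Submodule.sum_mem _ fun j hj => ?_
      have hj' : e' j ≠ 0 := (mem_filter.1 hj).2
      have hs : ∑ i, (e' i + if i = j then e i0 else 0) = ∑ i, e i := by
        rw [sum_add_distrib, ← hsum]
        simp
      rw [← hs]
      refine ih _ ?_ (hs ▸ hN)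
      rw [← hcard]
      congr 1
      ext i
      by_cases h : i = j
      · simp [h, hj']
      · simp [h]
    have h3 := (Submodule.add_mem_iff_right _ h2).1 h1
    have h4 : ∀ j ∈ univ.filter (fun i => ¬e' i ≠ 0),
        ∑ p : Perm ι, ∏ i, x (p i) ^ (e' i + if i = j then e i0 else 0) =
          ∑ p : Perm ι, ∏ i, x (p i) ^ e i := by
      intro j hj
      have hj' : e' j = 0 := not_not.1 (mem_filter.1 hj).2
      rw [← simplex_perm x e (swap i0 j)]
      refine sum_congr rfl fun p _ => prod_congr rfl fun i _ => ?_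
      congr 1
      by_cases h : i = j
      · rw [h, hj', swap_apply_right]
        simp
      · by_cases h' : i = i0
        · have hj0 : j ≠ i0 := fun h0 => h (h'.trans h0.symm)
          rw [if_neg h, h', swap_apply_left]
          simpa [he', hj0] using hj'.symm
        · rw [swap_apply_of_ne_of_ne h' h]
          simp [he', h, h']
    rw [sum_congr rfl h4, sum_const, ← Nat.cast_smul_eq_nsmul ℝ] at h3
    refine (Submodule.smul_mem_iff _ (Nat.cast_ne_zero.2 ?_)).1 h3
    exact (card_pos.2 ⟨i0, by simp [he']⟩).ne'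

lemma simplex_pow [Algebra ℝ R] (x : ι → R) (A : ℕ → Submodule ℝ R) (N : ℕ) (h0 : (1 : R) ∈ A 0)
    (hm : ∀ n k, 1 ≤ k → n + k ≤ N → ∀ f ∈ A n, f * ∑ i, x i ^ k ∈ A (n + k))
    (α : ι → ℝ) {k : ℕ} (hk : k ≤ N) :
    ∑ p : Perm ι, (∑ i, α i • x (p i)) ^ k ∈ A k := by
  simp only [Finset.sum_pow_eq_sum_piAntidiag]
  rw [sum_comm]
  refine Submodule.sum_mem _ fun e he => ?_
  have hs : ∑ i, e i = k := (mem_piAntidiag.1 he).1
  simp only [smul_pow, prod_smul]
  rw [← mul_sum, ← smul_sum, ← nsmul_eq_mul]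
  refine Submodule.smul_of_tower_mem _ _ (Submodule.smul_mem _ _ ?_)
  rw [← hs]
  exact simplex_key x A N h0 hm _ e rfl (hs ▸ hk)

end key

lemma simplex_frame (d : ℕ) : ∃ T : E d →ₗ[ℝ] (Fin (d + 1) → ℝ), (∀ v, ∑ i, T v i = 0) ∧
    (∀ a v, inner ℝ a v = ∑ i, T a i * T v i) ∧ ∀ y, ∑ i, y i = 0 → ∃ v, T v = y := by
  let o : E (d + 1) := WithLp.toLp 2 fun _ => 1
  have ho : o ≠ 0 := fun h => by simpa [o] using congrArg (fun z : E (d + 1) => z 0) h
  have : Fact (Module.finrank ℝ (E (d + 1)) = d + 1) := ⟨finrank_euclideanSpace_fin⟩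
  let φ := (OrthonormalBasis.fromOrthogonalSpanSingleton (𝕜 := ℝ) d ho).repr
  have hmem : ∀ z : E (d + 1), z ∈ (ℝ ∙ o)ᗮ ↔ ∑ i, z i = 0 := fun z => by
    rw [Submodule.mem_orthogonal_singleton_iff_inner_right]
    simp [PiLp.inner_apply, o]
  refine ⟨(WithLp.linearEquiv 2 ℝ (Fin (d + 1) → ℝ)).toLinearMap ∘ₗ (ℝ ∙ o)ᗮ.subtype ∘ₗ
    φ.symm.toLinearEquiv.toLinearMap, fun v => (hmem _).1 (φ.symm v).2, fun a v => ?_,
    fun y hy => ⟨φ ⟨WithLp.toLp 2 y, (hmem _).2 hy⟩, ?_⟩⟩
  · rw [← φ.symm.inner_map_map, Submodule.coe_inner, PiLp.inner_apply]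
    simp [mul_comm]
  · simp

lemma simplex_rep (d : ℕ) : ∃ (ρ : Perm (Fin (d + 1)) →* (E d ≃ₗᵢ[ℝ] E d))
    (A : Fin (d + 1) → E d), (∀ v, ∑ i, inner ℝ (A i) v = 0) ∧
    (∀ a v, inner ℝ a v = ∑ i, inner ℝ (A i) a * inner ℝ (A i) v) ∧
    (∀ y : Fin (d + 1) → ℝ, ∑ i, y i = 0 → ∃ v, ∀ i, inner ℝ (A i) v = y i) ∧
    ∀ p v i, inner ℝ (A i) (ρ p v) = inner ℝ (A (p⁻¹ i)) v := by
  obtain ⟨T, h0, hin, hs⟩ := simplex_frame d
  have hinj : ∀ v w, T v = T w → v = w := fun v w h => by
    rw [← sub_eq_zero, ← inner_self_eq_zero (𝕜 := ℝ), hin, map_sub, h]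
    simp
  have hM : ∀ (p : Perm (Fin (d + 1))) (v : E d), ∃ w, T w = fun i => T v (p⁻¹ i) :=
    fun p v => hs _ (by rw [Equiv.sum_comp p⁻¹ (T v), h0])
  choose M hM using hM
  have hmul : ∀ p q v, M (p * q) v = M p (M q v) := fun p q v => hinj _ _ (by
    simp only [hM, mul_inv_rev, Perm.mul_apply])
  have hone : ∀ v, M 1 v = v := fun v => hinj _ _ (by simp [hM])
  let I : Perm (Fin (d + 1)) → (E d ≃ₗᵢ[ℝ] E d) := fun p =>
    { toFun := M p
      invFun := M p⁻¹
      map_add' := fun v w => hinj _ _ (by ext i; simp [hM])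
      map_smul' := fun c v => hinj _ _ (by ext i; simp [hM])
      left_inv := fun v => by rw [← hmul, inv_mul_cancel, hone]
      right_inv := fun v => by rw [← hmul, mul_inv_cancel, hone]
      norm_map' := fun v => by
        change ‖M p v‖ = ‖v‖
        rw [norm_eq_sqrt_real_inner, norm_eq_sqrt_real_inner v, hin, hin, hM,
          ← Equiv.sum_comp p⁻¹ fun i => T v i * T v i] }
  have hA : ∀ i, ∃ a, ∀ v, inner ℝ a v = T v i := fun i => by
    obtain ⟨a, ha⟩ := hs (fun j => (if j = i then 1 else 0) - 1 / ((d : ℝ) + 1)) (by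
      have : (d : ℝ) + 1 ≠ 0 := by positivity
      simp
      field_simp
      ring)
    refine ⟨a, fun v => ?_⟩
    rw [hin, ha]
    simp only [sub_mul, sum_sub_distrib, ← mul_sum, h0]
    simp
  choose A hA using hA
  refine ⟨MonoidHom.mk' I fun p q => LinearIsometryEquiv.ext fun v => hmul p q v, A, ?_, ?_, ?_, ?_⟩
  · simpa only [hA] using h0
  · simpa only [hA] using hin
  · intro y hy
    obtain ⟨v, hv⟩ := hs y hy
    exact ⟨v, fun i => by rw [hA, hv]⟩
  · intro p v i
    rw [hA, hA]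
    exact congrFun (hM p v) i

/-- the spaces containing the invariants of each degree -/
noncomputable def simplexA {d : ℕ} (p : ℕ → X d) : ℕ → Submodule ℝ (X d)
  | 0 => Submodule.span ℝ {1}
  | 1 => ⊥
  | 2 => Submodule.span ℝ {1}
  | 3 => Submodule.span ℝ {p 3}
  | 4 => ⊤
  | _ + 5 => Submodule.span ℝ {p 5} ⊔ PP d 4

lemma simplex_table {d : ℕ} (p : ℕ → X d) (h1 : p 1 = 0) (h2 : p 2 = 1) (h3 : p 3 ∈ PP d 4)
    (n k : ℕ) (hk : 1 ≤ k) (hn : n + k ≤ 5) (f : X d) (hf : f ∈ simplexA p n) :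
    f * p k ∈ simplexA p (n + k) := by
  have hk5 : k ≤ 5 := by omega
  have hn4 : n ≤ 4 := by omega
  interval_cases k
  · simp [h1]
  · have hn3 : n ≤ 3 := by omega
    rw [h2, mul_one]
    interval_cases n
    · exact hf
    · rw [(Submodule.mem_bot ℝ).1 hf]
      exact Submodule.zero_mem _
    · trivial
    · obtain ⟨c, rfl⟩ := Submodule.mem_span_singleton.1 hf
      exact Submodule.mem_sup_right (Submodule.smul_mem _ _ h3)
  · have hn3 : n ≤ 2 := by omega
    interval_cases n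
    · obtain ⟨c, rfl⟩ := Submodule.mem_span_singleton.1 hf
      rw [smul_mul_assoc, one_mul]
      exact Submodule.smul_mem _ _ (Submodule.mem_span_singleton_self _)
    · trivial
    · obtain ⟨c, rfl⟩ := Submodule.mem_span_singleton.1 hf
      rw [smul_mul_assoc, one_mul]
      exact Submodule.mem_sup_right (Submodule.smul_mem _ _ h3)
  · have hn3 : n ≤ 1 := by omega
    interval_cases n
    · trivial
    · rw [(Submodule.mem_bot ℝ).1 hf, zero_mul]
      exact Submodule.zero_mem _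
  · obtain rfl : n = 0 := by omega
    obtain ⟨c, rfl⟩ := Submodule.mem_span_singleton.1 hf
    rw [smul_mul_assoc, one_mul]
    exact Submodule.mem_sup_left (Submodule.smul_mem _ _ (Submodule.mem_span_singleton_self _))

theorem good_high {d : ℕ} (hd : 4 ≤ d) :
    ∃ (G : Type) (_ : Group G) (_ : Fintype G) (ρ : G →* (E d ≃ₗᵢ[ℝ] E d)), Good 5 ρ := by
  obtain ⟨ρ, A, h0, hin, hs, hρ⟩ := simplex_rep d
  obtain ⟨P, hP⟩ : ∃ P : ℕ → X d, ∀ k, P k = ∑ i, lin (A i) ^ k := ⟨_, fun _ => rfl⟩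
  have hPv : ∀ (k : ℕ) (v : S d), P k v = ∑ i, inner ℝ (A i) (v : E d) ^ k := fun k v => by
    rw [hP, ContinuousMap.sum_apply]
    rfl
  have hPP : ∀ k n, k ≤ n → P k ∈ PP d n := fun k n h => by
    rw [hP]
    exact Submodule.sum_mem _ fun i _ => Submodule.subset_span ⟨A i, k, h, rfl⟩
  have h1 : P 1 = 0 := by
    ext v
    simp [hPv, h0]
  have h2 : P 2 = 1 := by
    ext v
    rw [hPv, ContinuousMap.one_apply]
    simp only [sq]
    rw [← hin, inner_S_self]
  have hinv : ∀ (k : ℕ) (g : Perm (Fin (d + 1))) (v : S d), P k (rot (ρ g) v) = P k v :=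
    fun k g v => by
      rw [hPv, hPv, ← Equiv.sum_comp g⁻¹ fun i => inner ℝ (A i) (v : E d) ^ k]
      simp only [rot_coe, hρ]
  have key : ∀ (a : E d) (k : ℕ), k ≤ 5 → sumG ρ (lin a ^ k) ∈ simplexA P k := fun a k hk => by
    have h := simplex_pow (fun i => lin (A i)) (simplexA P) 5 (Submodule.mem_span_singleton_self _)
      (fun n k hk hn f hf => hP k ▸ simplex_table P h1 h2 (hPP 3 4 (by norm_num)) n k hk hn f hf)
      (fun i => inner ℝ (A i) a) hk
    rw [← Equiv.sum_comp (Equiv.inv (Perm (Fin (d + 1))))] at h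
    convert h using 1
    refine sum_congr rfl fun g _ => ?_
    ext v
    simp only [ContinuousMap.comp_apply, ContinuousMap.pow_apply, lin_apply, rot_coe,
      ContinuousMap.sum_apply, ContinuousMap.smul_apply, smul_eq_mul, Equiv.inv_apply]
    rw [hin]
    simp only [hρ]
  refine ⟨Perm (Fin (d + 1)), inferInstance, inferInstance, ρ, fun x hx => ?_, fun a => ?_,
    P 5, hPP 5 5 le_rfl, fun g => ContinuousMap.ext (hinv 5 g), fun h => ?_,
    fun a => key a 5 le_rfl⟩
  · have hc : ∀ i, inner ℝ (A i) x = inner ℝ (A 0) x := fun i => by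
      have := hρ (swap 0 i) x i
      rwa [hx, swap_inv, swap_apply_right] at this
    have h := h0 x
    simp only [hc, sum_const, card_univ, nsmul_eq_mul, mul_eq_zero, Nat.cast_eq_zero,
      Fintype.card_ne_zero, false_or] at h
    rw [← inner_self_eq_zero (𝕜 := ℝ), hin]
    simp only [hc, h, mul_zero, sum_const_zero]
  · obtain ⟨c, hc⟩ := Submodule.mem_span_singleton.1 (key a 2 (by norm_num))
    rw [← hc]
    exact Submodule.smul_mem _ _ (Submodule.subset_span ⟨0, 0, zero_le_one, (pow_zero _).symm⟩)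
  obtain ⟨u, hu3, hu5⟩ : ∃ u : S d, P 3 u = 0 ∧ P 5 u ≠ 0 := by
    obtain ⟨m, rfl⟩ := Nat.exists_eq_add_of_le' hd
    obtain ⟨c, hc, hc0⟩ : ∃ c : ℝ, c ^ 2 * 220 = 1 ∧ 0 < c :=
      ⟨(√220)⁻¹, by rw [inv_pow, Real.sq_sqrt (by norm_num)]; norm_num, by positivity⟩
    obtain ⟨v, hv⟩ := hs (Matrix.vecCons (-8 * c) (Matrix.vecCons (-7 * c) (Matrix.vecCons c
      (Matrix.vecCons (5 * c) (Matrix.vecCons (9 * c) fun _ : Fin m => 0))))) (by
        simp [Fin.sum_univ_succ]
        ring)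
    have hn : ‖v‖ = 1 := by
      rw [norm_eq_sqrt_real_inner, hin, Real.sqrt_eq_one]
      simp [hv, Fin.sum_univ_succ]
      linear_combination hc
    refine ⟨⟨v, mem_sphere_zero_iff_norm.2 hn⟩, ?_, ?_⟩
    · rw [hPv]
      simp [hv, Fin.sum_univ_succ]
      ring
    · have : P 5 ⟨v, mem_sphere_zero_iff_norm.2 hn⟩ = 12600 * c ^ 5 := by
        rw [hPv]
        simp [hv, Fin.sum_univ_succ]
        ring
      rw [this]
      positivity
  have hodd : ∀ k, Odd k → P k (-u) = -P k u := fun k hk => by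
    simp only [hPv, coe_neg_sphere, inner_neg_right, hk.neg_pow, sum_neg_distrib]
  have hev : ∀ f ∈ PP d (5 - 1), sumG ρ f (-u) = sumG ρ f u := by
    intro f hf
    induction hf using Submodule.span_induction with
    | mem f hf =>
      obtain ⟨a, k, hk, rfl⟩ := hf
      rcases k.even_or_odd with he | ho
      · simp only [sumG, ContinuousMap.sum_apply, ContinuousMap.comp_apply,
          ContinuousMap.pow_apply, lin_apply, rot_coe, coe_neg_sphere, map_neg, inner_neg_right,
          he.neg_pow]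
      · obtain rfl | rfl : k = 1 ∨ k = 3 := by
          obtain ⟨j, rfl⟩ := ho
          omega
        · rw [(Submodule.mem_bot ℝ).1 (key a 1 (by norm_num))]
          rfl
        · obtain ⟨c, hc⟩ := Submodule.mem_span_singleton.1 (key a 3 (by norm_num))
          rw [← hc, ContinuousMap.smul_apply, ContinuousMap.smul_apply, hodd 3 (by decide), hu3,
            neg_zero]
    | zero => simp [sumG]
    | add f g _ _ h1 h2 =>
      simp only [sumG, ContinuousMap.sum_apply, ContinuousMap.comp_apply,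
        ContinuousMap.add_apply, sum_add_distrib] at h1 h2 ⊢
      rw [h1, h2]
    | smul c f _ h1 =>
      simp only [sumG, ContinuousMap.sum_apply, ContinuousMap.comp_apply,
        ContinuousMap.smul_apply, smul_eq_mul, ← mul_sum] at h1 ⊢
      rw [h1]
  have h2 := hev _ h
  rw [sumG, ContinuousMap.sum_apply, ContinuousMap.sum_apply] at h2
  simp only [ContinuousMap.comp_apply, hinv, sum_const, card_univ, nsmul_eq_mul] at h2
  have h3 := mul_left_cancel₀ (Nat.cast_ne_zero.2 Fintype.card_ne_zero) h2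
  rw [hodd 5 (by decide)] at h3
  exact hu5 (by linarith)

end Pool.Agent.Lib.MP_5b78b3_gt
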