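import Mathlib

/-! Abstract spectral analysis of a symmetric operator that is triangular for a filtration. -/

namespace Pool.Agent.Lib.MP_5b78b3_gt

open Set

variable {Y : Type*} [NormedAddCommGroup Y] [NormedSpace ℝ Y]

theorem specA_zero (B : Y →L[ℝ] Y →L[ℝ] ℝ) (Bp : ∀ x, x ≠ 0 → 0 < B x x) {x : Y}
    (h : B x x = 0) : x = 0 := by
  by_contra hx
  exact (Bp x hx).ne' h

theorem specA_nonneg (B : Y →L[ℝ] Y →L[ℝ] ℝ) (Bp : ∀ x, x ≠ 0 → 0 < B x x) (x : Y) :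
    0 ≤ B x x := by
  by_cases hx : x = 0
  · simp [hx]
  · exact (Bp x hx).le

theorem specA_proj (B : Y →L[ℝ] Y →L[ℝ] ℝ) (Bp : ∀ x, x ≠ 0 → 0 < B x x) (W : Submodule ℝ Y)
    [FiniteDimensional ℝ W] (f : Y) : ∃ p ∈ W, ∀ w ∈ W, B (f - p) w = 0 := by
  let L : W →ₗ[ℝ] Module.Dual ℝ W := LinearMap.mk₂ ℝ (fun p w : W => B p w)
    (fun _ _ _ => by simp) (fun _ _ _ => by simp) (fun _ _ _ => by simp) (fun _ _ _ => by simp)
  have hinj : Function.Injective L := by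
    rw [injective_iff_map_eq_zero]
    intro p hp
    have h1 : L p p = 0 := by rw [hp]; rfl
    exact Subtype.ext (specA_zero B Bp h1)
  have hsurj : Function.Surjective L :=
    (LinearMap.injective_iff_surjective_of_finrank_eq_finrank
      (Subspace.dual_finrank_eq).symm).1 hinj
  obtain ⟨p, hp⟩ := hsurj ((B f).toLinearMap.comp W.subtype)
  refine ⟨p, p.2, fun w hw => ?_⟩
  have h1 : B p w = B f w := congrArg (fun φ : Module.Dual ℝ W => φ ⟨w, hw⟩) hp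
  rw [map_sub, sub_apply, h1, sub_self]

/-- the norm of a bilinear form -/
noncomputable def specN (B : Y →L[ℝ] Y →L[ℝ] ℝ) : ℝ := ‖B‖

/-- the hypotheses on the filtration and on the operator -/
structure SpecH (B : Y →L[ℝ] Y →L[ℝ] ℝ) (V : ℕ → Submodule ℝ Y) (T : Y →L[ℝ] Y) (μ : ℕ → ℝ) :
    Prop where
  Bs : ∀ x y, B x y = B y x
  Bp : ∀ x, x ≠ 0 → 0 < B x x
  mono : Monotone V
  zero : ∀ h ∈ V 0, T h = μ 0 • h
  tri : ∀ n, ∀ h ∈ V (n + 1), T h - μ (n + 1) • h ∈ V n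
  symm : ∀ x y, B (T x) y = B x (T y)

variable {B : Y →L[ℝ] Y →L[ℝ] ℝ} {V : ℕ → Submodule ℝ Y} {T : Y →L[ℝ] Y} {μ : ℕ → ℝ}

theorem SpecH.maps (H : SpecH B V T μ) (n : ℕ) : ∀ h ∈ V n, T h ∈ V n := by
  intro h hh
  cases n with
  | zero => rw [H.zero h hh]; exact Submodule.smul_mem _ _ hh
  | succ n =>
    have h1 := add_mem (H.mono (Nat.le_succ n) (H.tri n h hh)) (Submodule.smul_mem _ (μ (n + 1)) hh)
    simpa using h1

theorem SpecH.eig (H : SpecH B V T μ) {n : ℕ} {h : Y} (hh : h ∈ V (n + 1))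
    (ho : ∀ w ∈ V n, B h w = 0) : T h = μ (n + 1) • h := by
  have h1 := H.tri n h hh
  rw [← sub_eq_zero]
  apply specA_zero B H.Bp
  have key : ∀ w ∈ V n, B (T h - μ (n + 1) • h) w = 0 := by
    intro w hw
    rw [map_sub, map_smul, sub_apply, smul_apply, H.symm, ho w hw, ho _ (H.maps n w hw)]
    simp
  exact key _ h1

theorem SpecH.l2 (H : SpecH B V T μ) (fd : ∀ n, FiniteDimensional ℝ (V n)) {k : ℕ} (hk : 1 ≤ k)
    {φ : Y} (hφ : φ ∈ V k) (hφo : ∀ w ∈ V (k - 1), B φ w = 0)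
    (hk' : ∀ h ∈ V k, ∃ c : ℝ, h - c • φ ∈ V (k - 1)) (h2 : V 2 ≤ V 1) {g : ℝ} (hg : 0 < g)
    (hgap : ∀ n : ℕ, n ≠ 2 → n ≠ k → g ≤ |μ n - 1|) (n : ℕ) :
    ∀ w ∈ V n, B φ w = 0 → g ^ 2 * B w w ≤ B (w - T w) (w - T w) := by
  have hsq : ∀ n : ℕ, n ≠ 2 → n ≠ k → g ^ 2 ≤ (1 - μ n) ^ 2 := by
    intro n a b
    have h1 := pow_le_pow_left₀ hg.le (hgap n a b) 2
    rw [sq_abs] at h1
    nlinarith
  induction n with
  | zero =>
    intro w hw _
    have e : w - T w = (1 - μ 0) • w := by rw [H.zero w hw, sub_smul, one_smul]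
    rw [e, map_smul, map_smul, smul_apply, smul_eq_mul, smul_eq_mul, ← mul_assoc, ← sq]
    exact mul_le_mul_of_nonneg_right (hsq 0 (by omega) (by omega)) (specA_nonneg B H.Bp w)
  | succ n ih =>
    intro w hw hwo
    obtain ⟨p, hp, ho⟩ := specA_proj B H.Bp (V n) w
    obtain ⟨h, rfl⟩ : ∃ h, w = h + p := ⟨w - p, by abel⟩
    rw [add_sub_cancel_right] at ho
    have hh : h ∈ V (n + 1) := by
      simpa using sub_mem hw (H.mono (Nat.le_succ n) hp)
    rw [map_add] at hwo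
    have hpo : B φ p = 0 := by
      rcases le_or_gt k n with hkn | hkn
      · have h1 := ho φ (H.mono hkn hφ)
        rw [H.Bs] at h1
        linarith
      · exact hφo p (H.mono (by omega) hp)
    have hho : B φ h = 0 := by linarith
    have hsq' : g ^ 2 * B h h ≤ (1 - μ (n + 1)) ^ 2 * B h h := by
      by_cases a : n + 1 = 2
      · have e : n = 1 := by omega
        subst e
        rw [ho h (h2 hh)]; simp
      by_cases b : n + 1 = k
      · subst b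
        obtain ⟨c, hc⟩ := hk' h hh
        have h1 := ho _ hc
        rw [map_sub, map_smul, H.Bs h φ, hho, smul_zero, sub_zero] at h1
        rw [h1]; simp
      exact mul_le_mul_of_nonneg_right (hsq _ a b) (specA_nonneg B H.Bp h)
    have e : h + p - T (h + p) = (1 - μ (n + 1)) • h + (p - T p) := by
      rw [map_add, H.eig hh ho, sub_smul, one_smul]; abel
    have hq : B h (p - T p) = 0 := ho _ (sub_mem hp (H.maps n p hp))
    have hq' : B (p - T p) h = 0 := by rw [H.Bs, hq]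
    have hr : B h p = 0 := ho p hp
    have hr' : B p h = 0 := by rw [H.Bs, hr]
    have ih' := ih p hp hpo
    rw [e]
    generalize p - T p = q at hq hq' ih'
    simp only [map_add, map_smul, add_apply, smul_apply, smul_eq_mul, hq, hq', hr, hr']
    nlinarith

theorem spec_abs [CompleteSpace Y] (H : SpecH B V T μ) (fd : ∀ n, FiniteDimensional ℝ (V n))
    {k : ℕ} (hk : 1 ≤ k) {φ : Y} (hφ0 : φ ≠ 0) (hφ : φ ∈ V k) (hφo : ∀ w ∈ V (k - 1), B φ w = 0)
    (hk' : ∀ h ∈ V k, ∃ c : ℝ, h - c • φ ∈ V (k - 1)) (h2 : V 2 ≤ V 1) {g : ℝ} (hg : 0 < g)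
    (hgap : ∀ n : ℕ, n ≠ 2 → n ≠ k → g ≤ |μ n - 1|) {M : ℝ}
    (hbd : ∀ η, ‖T η‖ ≤ M * √(B η η)) (I : Submodule ℝ Y) (hI : IsClosed (I : Set Y))
    (hVI : ∀ n, V n ≤ I) (hd : ∀ w ∈ I, w ∈ closure {p | ∃ n, p ∈ V n}) :
    T φ = μ k • φ ∧ (∀ y, B φ (T y) = μ k * B φ y) ∧
      (∀ z ∈ I, B φ z = 0 → ∃ w ∈ I, B φ w = 0 ∧ w - T w = z) ∧
      (∀ w ∈ I, B φ w = 0 → ‖w‖ ≤ (1 + |M| * √‖B‖ / g) * ‖w - T w‖) := by
  have hT : T φ = μ k • φ := by
    obtain ⟨j, rfl⟩ : ∃ j, k = j + 1 := ⟨k - 1, by omega⟩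
    exact H.eig hφ hφo
  have hTl : ∀ y, B φ (T y) = μ k * B φ y := by
    intro y
    rw [← H.symm, hT, map_smul, smul_apply, smul_eq_mul]
  have hpos := H.Bp φ hφ0
  have hU : ∀ w ∈ I, B φ w = 0 → w ∈ closure {p | ∃ n, p ∈ V n ∧ B φ p = 0} := by
    intro w hw hwo
    have hc : Continuous fun p : Y => p - (B φ p / B φ φ) • φ := by fun_prop
    have h1 := map_mem_closure hc (hd w hw) (t := {p | ∃ n, p ∈ V n ∧ B φ p = 0}) (by
      rintro p ⟨n, hn⟩
      refine ⟨max n k, sub_mem (H.mono (le_max_left _ _) hn)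
        (Submodule.smul_mem _ _ (H.mono (le_max_right _ _) hφ)), ?_⟩
      rw [map_sub, map_smul, smul_eq_mul, div_mul_cancel₀ _ hpos.ne', sub_self])
    simpa [hwo] using h1
  have hb0 : ∀ n, ∀ w ∈ V n, B φ w = 0 → ‖w‖ ≤ (1 + |M| * √‖B‖ / g) * ‖w - T w‖ := by
    intro n w hw hwo
    have h1 := H.l2 fd hk hφ hφo hk' h2 hg hgap n w hw hwo
    have h3 : B (w - T w) (w - T w) ≤ ‖B‖ * ‖w - T w‖ * ‖w - T w‖ :=
      (le_abs_self _).trans (B.le_opNorm₂ _ _)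
    have h4 : √(B w w) ≤ √‖B‖ / g * ‖w - T w‖ := by
      apply Real.sqrt_le_iff.2 ⟨by positivity, ?_⟩
      rw [mul_pow, div_pow, Real.sq_sqrt B.opNorm_nonneg, div_mul_eq_mul_div,
        le_div_iff₀ (by positivity)]
      nlinarith
    have h5 : ‖T w‖ ≤ |M| * (√‖B‖ / g * ‖w - T w‖) :=
      (hbd w).trans ((mul_le_mul_of_nonneg_right (le_abs_self M) (Real.sqrt_nonneg _)).trans
        (mul_le_mul_of_nonneg_left h4 (abs_nonneg M)))
    have h6 : ‖w‖ ≤ ‖w - T w‖ + ‖T w‖ := by simpa using norm_add_le (w - T w) (T w)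
    calc ‖w‖ ≤ ‖w - T w‖ + |M| * (√‖B‖ / g * ‖w - T w‖) := by linarith
      _ = _ := by ring
  have hb : ∀ w ∈ I, B φ w = 0 → ‖w‖ ≤ (1 + |M| * √‖B‖ / g) * ‖w - T w‖ := by
    intro w hw hwo
    have hcl : IsClosed {w : Y | ‖w‖ ≤ (1 + |M| * √‖B‖ / g) * ‖w - T w‖} :=
      isClosed_le (by fun_prop) (by fun_prop)
    exact hcl.closure_subset_iff.2 (by rintro p ⟨n, hn, ho⟩; exact hb0 n p hn ho) (hU w hw hwo)
  refine ⟨hT, hTl, ?_, hb⟩
  intro z hz hzo
  let K : Submodule ℝ Y := I ⊓ LinearMap.ker (B φ).toLinearMap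
  have hK : IsClosed (K : Set Y) := hI.inter (B φ).isClosed_ker
  have : CompleteSpace K := hK.completeSpace_coe
  let A : K →L[ℝ] Y := (ContinuousLinearMap.id ℝ Y - T).comp K.subtypeL
  have hA : AntilipschitzWith ⟨1 + |M| * √‖B‖ / g, by positivity⟩ A :=
    AddMonoidHomClass.antilipschitz_of_bound A fun w => hb w w.2.1 w.2.2
  have hcl := hA.isClosed_range A.uniformContinuous
  have hsub : {p | ∃ n, p ∈ V n ∧ B φ p = 0} ⊆ range A := by
    rintro p ⟨n, hn, ho⟩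
    let W : Submodule ℝ Y := V n ⊓ LinearMap.ker (B φ).toLinearMap
    have := fd n
    have : FiniteDimensional ℝ W := Submodule.finiteDimensional_inf_left _ _
    have hm : ∀ w ∈ W, (LinearMap.id - T.toLinearMap : Y →ₗ[ℝ] Y) w ∈ W := by
      intro w hw
      refine ⟨sub_mem hw.1 (H.maps n w hw.1), ?_⟩
      have h1 : B φ w = 0 := hw.2
      change B φ (w - T w) = 0
      rw [map_sub, hTl, h1]; simp
    have hinj : Function.Injective ((LinearMap.id - T.toLinearMap : Y →ₗ[ℝ] Y).restrict hm) := by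
      rw [injective_iff_map_eq_zero]
      intro w hw
      have h1 : (w : Y) - T w = 0 := congrArg Subtype.val hw
      have h3 := hb0 n w w.2.1 w.2.2
      rw [h1, norm_zero, mul_zero] at h3
      exact Subtype.ext (norm_le_zero_iff.1 h3)
    obtain ⟨w, hw⟩ := LinearMap.injective_iff_surjective.1 hinj ⟨p, hn, ho⟩
    exact ⟨⟨w, hVI n w.2.1, w.2.2⟩, congrArg Subtype.val hw⟩
  obtain ⟨w, hw⟩ := hcl.closure_subset_iff.2 hsub (hU z hz hzo)
  exact ⟨w, w.2.1, w.2.2, hw⟩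

end Pool.Agent.Lib.MP_5b78b3_gt
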