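import Mathlib
import Pool.Agent.Lib.MP_5b78b3_gt.Base
import Pool.Agent.Lib.MP_5b78b3_gt.SpecA

/-! Spectral analysis of a symmetric operator that is triangular on polynomials. -/

namespace Pool.Agent.Lib.MP_5b78b3_gt

open MeasureTheory Metric Set

variable {d : ℕ}

/-- invariant functions -/
def Inv {G : Type} [Group G] (ρ : G →* (E d ≃ₗᵢ[ℝ] E d)) : Submodule ℝ (X d) where
  carrier := {f | ∀ g, f.comp (rot (ρ g)) = f}
  add_mem' := by
    intro f h hf hh g
    rw [ContinuousMap.add_comp, hf g, hh g]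
  zero_mem' := fun g => rfl
  smul_mem' := by
    intro c f hf g
    rw [ContinuousMap.smul_comp, hf g]

theorem isClosed_Inv {G : Type} [Group G] (ρ : G →* (E d ≃ₗᵢ[ℝ] E d)) :
    IsClosed ((Inv ρ : Submodule ℝ (X d)) : Set (X d)) := by
  have e : ((Inv ρ : Submodule ℝ (X d)) : Set (X d)) =
      ⋂ g, {f : X d | f.comp (rot (ρ g)) = f} := by
    ext f; simp only [mem_iInter]; rfl
  rw [e]
  exact isClosed_iInter fun g => isClosed_eq (ContinuousMap.continuous_precomp _) continuous_id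

/-- integration as a continuous linear form -/
noncomputable def specJ (d : ℕ) : X d →L[ℝ] ℝ :=
  LinearMap.mkContinuous
    { toFun := fun f => ∫ v, f v ∂(sig d)
      map_add' := fun f h => integral_add (integrable_cont f.continuous)
        (integrable_cont h.continuous)
      map_smul' := fun c f => integral_smul c (fun v => f v) }
    ((sig d).real univ) fun f => by
      rw [mul_comm]
      exact norm_integral_le_of_norm_le_const (Filter.Eventually.of_forall f.norm_coe_le_norm)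

/-- the inner product of `L2` -/
noncomputable def specB (d : ℕ) : X d →L[ℝ] X d →L[ℝ] ℝ :=
  (ContinuousLinearMap.compL ℝ (X d) (X d) ℝ (specJ d)).comp (ContinuousLinearMap.mul ℝ (X d))

theorem specB_apply (f h : X d) : specB d f h = ∫ v, f v * h v ∂(sig d) := rfl

theorem specB_symm (f h : X d) : specB d f h = specB d h f := by
  simp only [specB_apply, mul_comm]

theorem specB_pos (f : X d) (hf : f ≠ 0) : 0 < specB d f f := by
  obtain ⟨v, hv⟩ : ∃ v, f v ≠ 0 := by
    by_contra h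
    push Not at h
    exact hf (ContinuousMap.ext h)
  rw [specB_apply]
  exact Continuous.integral_pos_of_hasCompactSupport_nonneg_nonzero (by fun_prop)
    (HasCompactSupport.of_compactSpace _) (fun v => mul_self_nonneg _) (x := v) (mul_ne_zero hv hv)

/-- composition with an isometry -/
noncomputable def specR (g : E d ≃ₗᵢ[ℝ] E d) : X d →L[ℝ] X d where
  toFun f := f.comp (rot g)
  map_add' _ _ := rfl
  map_smul' _ _ := rfl
  cont := ContinuousMap.continuous_precomp _

theorem specR_apply (g : E d ≃ₗᵢ[ℝ] E d) (f : X d) : specR g f = f.comp (rot g) := rfl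

theorem specB_rot (g : E d ≃ₗᵢ[ℝ] E d) (f h : X d) :
    specB d (specR g f) (specR g h) = specB d f h :=
  integral_rot g fun v => f v * h v

theorem specR_lin (g : E d ≃ₗᵢ[ℝ] E d) (a : E d) (n : ℕ) :
    specR g (lin a ^ n) = lin (g.symm a) ^ n := by
  ext v
  change (inner ℝ a (g (v : E d))) ^ n = (inner ℝ (g.symm a) (v : E d)) ^ n
  rw [← g.inner_map_map (g.symm a), g.apply_symm_apply]

theorem spec_gen (a : E d) {j n : ℕ} (h : j ≤ n) : lin a ^ j ∈ PP d n :=
  Submodule.subset_span ⟨a, j, h, rfl⟩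

theorem spec_map {n : ℕ} (L : X d →L[ℝ] X d) (W : Submodule ℝ (X d))
    (h : ∀ a j, j ≤ n → L (lin a ^ j) ∈ W) : ∀ f ∈ PP d n, L f ∈ W := by
  have h1 : PP d n ≤ W.comap L.toLinearMap := by
    rw [PP, Submodule.span_le]
    rintro _ ⟨a, j, hj, rfl⟩
    exact h a j hj
  exact fun f hf => h1 hf

theorem spec_mono : Monotone (PP d) := fun _ _ h =>
  Submodule.span_mono fun _ ⟨a, j, hj, e⟩ => ⟨a, j, hj.trans h, e⟩

theorem specR_PP (g : E d ≃ₗᵢ[ℝ] E d) (n : ℕ) : ∀ f ∈ PP d n, specR g f ∈ PP d n :=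
  spec_map _ _ fun a j hj => by rw [specR_lin]; exact spec_gen _ hj

/-- `lin` as a linear map -/
noncomputable def specL (d : ℕ) : E d →ₗ[ℝ] X d where
  toFun := lin
  map_add' a b := by ext v; exact inner_add_left a b (v : E d)
  map_smul' c a := by ext v; exact real_inner_smul_left a (v : E d) c

theorem spec_fd (n : ℕ) : FiniteDimensional ℝ (PP d n) := by
  let L : Submodule ℝ (X d) := Submodule.span ℝ {1} ⊔ LinearMap.range (specL d)
  have hL : L.FG := (Submodule.fg_span_singleton _).sup (Module.Finite.iff_fg.1 inferInstance)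
  have : FiniteDimensional ℝ (L ^ n : Submodule ℝ (X d)) := Module.Finite.iff_fg.2 (hL.pow n)
  refine Submodule.finiteDimensional_of_le (S₂ := L ^ n) ?_
  rw [PP, Submodule.span_le]
  rintro _ ⟨a, j, hj, rfl⟩
  have h1 : (1 : X d) ∈ L := Submodule.mem_sup_left (Submodule.mem_span_singleton_self _)
  have h2 : lin a ∈ L := Submodule.mem_sup_right ⟨a, rfl⟩
  have h3 := Submodule.mul_mem_mul (Submodule.pow_mem_pow _ h1 (n - j))
    (Submodule.pow_mem_pow _ h2 j)
  rwa [one_pow, one_mul, ← pow_add, Nat.sub_add_cancel hj] at h3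

theorem spec_dense (w : X d) : w ∈ closure {p | ∃ n, p ∈ PP d n} := by
  let U : Submodule ℝ (X d) := ⨆ n, PP d n
  have hU : (U : Set (X d)) = {p | ∃ n, p ∈ PP d n} := by
    ext p
    exact Submodule.mem_iSup_of_directed _ spec_mono.directed_le
  rw [← hU]
  let e : E d → X d := fun a => ⟨fun v => Real.exp (inner ℝ a (v : E d)), by fun_prop⟩
  have he : ∀ a, e a ∈ U.topologicalClosure := by
    intro a
    have h1 := NormedSpace.exp_series_hasSum_exp' (𝕂 := ℝ) (lin a)
    have h2 : NormedSpace.exp (lin a) = e a := by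
      ext v
      have h3 := (ContinuousMap.evalCLM ℝ v).hasSum h1
      have h4 := NormedSpace.exp_series_hasSum_exp' (𝕂 := ℝ) (inner ℝ a (v : E d))
      rw [← Real.exp_eq_exp_ℝ] at h4
      exact h3.unique h4
    rw [← h2]
    refine U.isClosed_topologicalClosure.mem_of_tendsto h1 (Filter.Eventually.of_forall fun s => ?_)
    refine U.le_topologicalClosure (Submodule.sum_mem _ fun n _ => Submodule.smul_mem _ _ ?_)
    exact Submodule.mem_iSup_of_mem n (spec_gen a le_rfl)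
  have hA : (Algebra.adjoin ℝ (range e)).toSubmodule ≤ U.topologicalClosure := by
    rw [Algebra.adjoin_eq_span, Submodule.span_le]
    intro f hf
    obtain ⟨a, rfl⟩ : f ∈ range e := by
      induction hf using Submonoid.closure_induction with
      | mem f hf => exact hf
      | one => exact ⟨0, by ext v; simp [e]⟩
      | mul f h _ _ hf hh =>
        obtain ⟨a, rfl⟩ := hf
        obtain ⟨b, rfl⟩ := hh
        exact ⟨a + b, by ext v; simp [e, inner_add_left, Real.exp_add]⟩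
    exact he a
  have hsep : (Algebra.adjoin ℝ (range e)).SeparatesPoints := by
    intro x y hxy
    refine ⟨_, ⟨e ((x : E d) - y), Algebra.subset_adjoin ⟨_, rfl⟩, rfl⟩, fun h => hxy ?_⟩
    have h1 : inner ℝ ((x : E d) - y) (x : E d) = inner ℝ ((x : E d) - y) (y : E d) :=
      Real.exp_injective h
    rw [← sub_eq_zero, ← inner_sub_right, inner_self_eq_zero, sub_eq_zero] at h1
    exact Subtype.ext h1
  have htop := ContinuousMap.subalgebra_topologicalClosure_eq_top_of_separatesPoints _ hsep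
  have hw : w ∈ closure ((Algebra.adjoin ℝ (range e) : Subalgebra ℝ (X d)) : Set (X d)) := by
    rw [← Subalgebra.topologicalClosure_coe, htop]; trivial
  exact U.isClosed_topologicalClosure.closure_subset_iff.2 (fun f hf => hA hf) hw

section Group

variable {G : Type} [Group G] [Fintype G] (ρ : G →* (E d ≃ₗᵢ[ℝ] E d))

/-- the average over the group -/
noncomputable def specAv : X d →L[ℝ] X d := (Fintype.card G : ℝ)⁻¹ • ∑ g, specR (ρ g)

theorem specAv_apply (f : X d) : specAv ρ f = (Fintype.card G : ℝ)⁻¹ • sumG ρ f := by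
  simp [specAv, sumG, specR_apply]

theorem specAv_mem (f : X d) : specAv ρ f ∈ Inv ρ := by
  rw [specAv_apply]
  refine Submodule.smul_mem _ _ fun g => ?_
  rw [← specR_apply, sumG, map_sum]
  refine Fintype.sum_equiv (Equiv.mulRight g) _ _ fun h => ?_
  ext v
  simp only [specR_apply, ContinuousMap.comp_apply, rot_rot, Equiv.coe_mulRight, map_mul]

theorem specAv_fix {f : X d} (hf : f ∈ Inv ρ) : specAv ρ f = f := by
  rw [specAv_apply, sumG, Finset.sum_congr rfl fun g _ => hf g, Finset.sum_const,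
    Finset.card_univ, ← Nat.cast_smul_eq_nsmul ℝ, smul_smul, inv_mul_cancel₀, one_smul]
  exact_mod_cast Fintype.card_ne_zero

theorem specAv_PP (n : ℕ) : ∀ f ∈ PP d n, specAv ρ f ∈ PP d n := by
  intro f hf
  rw [specAv_apply]
  exact Submodule.smul_mem _ _ (Submodule.sum_mem _ fun g _ => specR_PP _ n f hf)

theorem specAv_le {n : ℕ} (W : Submodule ℝ (X d)) (hW : PP d n ≤ W)
    (h : ∀ a, sumG ρ (lin a ^ (n + 1)) ∈ W) : PP d (n + 1) ⊓ Inv ρ ≤ W := by
  intro f hf
  rw [← specAv_fix ρ hf.2]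
  refine spec_map _ _ (fun a j hj => ?_) f hf.1
  rcases hj.eq_or_lt with rfl | hj
  · rw [specAv_apply]; exact Submodule.smul_mem _ _ (h a)
  · exact hW (specAv_PP ρ n _ (spec_gen a (by omega)))

omit [Fintype G] in
theorem spec_neg_Inv {f : X d} (hf : f ∈ Inv ρ) :
    specR (LinearIsometryEquiv.neg ℝ) f ∈ Inv ρ := by
  intro g
  ext v
  have h1 := congrArg (fun h : X d => h (rot (LinearIsometryEquiv.neg ℝ) v)) (hf g)
  simp only [ContinuousMap.comp_apply, specR_apply] at h1 ⊢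
  rw [← h1]
  congr 1
  apply Subtype.ext
  simp [rot]

end Group

theorem spec_neg_neg (f : X d) :
    specR (LinearIsometryEquiv.neg ℝ) (specR (LinearIsometryEquiv.neg ℝ) f) = f := by
  ext v
  simp only [ContinuousMap.comp_apply, specR_apply]
  congr 1
  apply Subtype.ext
  simp [rot]

theorem spec_odd {n : ℕ} (hn : Odd (n + 1)) : ∀ f ∈ PP d (n + 1),
    f + specR (LinearIsometryEquiv.neg ℝ) f ∈ PP d n := by
  refine spec_map (ContinuousLinearMap.id ℝ (X d) + specR (LinearIsometryEquiv.neg ℝ)) _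
    fun a j hj => ?_
  change lin a ^ j + specR (LinearIsometryEquiv.neg ℝ) (lin a ^ j) ∈ _
  rcases hj.eq_or_lt with rfl | hj
  · have e : lin ((LinearIsometryEquiv.neg ℝ : E d ≃ₗᵢ[ℝ] E d).symm a) = -lin a := by
      rw [LinearIsometryEquiv.symm_neg]
      exact (specL d).map_neg a
    rw [specR_lin, e, hn.neg_pow, add_neg_cancel]
    exact zero_mem _
  · have h1 : lin a ^ j ∈ PP d n := spec_gen a (by omega)
    exact add_mem h1 (specR_PP _ n _ h1)

theorem spectral {G : Type} [Group G] [Fintype G] (ρ : G →* (E d ≃ₗᵢ[ℝ] E d)) {k : ℕ}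
    (hk : Odd k) (hk3 : 3 ≤ k) (hG : Good k ρ) (Λ : Set ℝ) (T : ℝ → X d →L[ℝ] X d)
    (μ : ℝ → ℕ → ℝ) (M g : ℝ) (hg : 0 < g)
    (hone : ∀ l ∈ Λ, T l 1 = μ l 0 • (1 : X d))
    (htri : ∀ l ∈ Λ, ∀ (a : E d) (n : ℕ),
      T l (lin a ^ (n + 1)) - μ l (n + 1) • lin a ^ (n + 1) ∈ PP d n)
    (hsymm : ∀ l ∈ Λ, ∀ η ζ : X d,
      ∫ v, T l η v * ζ v ∂(sig d) = ∫ v, η v * T l ζ v ∂(sig d))
    (hrot : ∀ l ∈ Λ, ∀ (η : X d) (f : E d ≃ₗᵢ[ℝ] E d),
      T l (η.comp (rot f)) = (T l η).comp (rot f))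
    (hbd : ∀ l ∈ Λ, ∀ η : X d, ‖T l η‖ ≤ M * √(∫ v, η v ^ 2 ∂(sig d)))
    (hgap : ∀ l ∈ Λ, ∀ n : ℕ, n ≠ 2 → n ≠ k → g ≤ |μ l n - 1|) :
    ∃ (φ : X d) (ℓ : X d →L[ℝ] ℝ) (C : ℝ), φ ∈ Inv ρ ∧ ℓ φ = 1 ∧
      (∀ f : X d, f.comp (rot (LinearIsometryEquiv.neg ℝ)) = f → ℓ f = 0) ∧
      ∀ l ∈ Λ, T l φ = μ l k • φ ∧ (∀ y, ℓ (T l y) = μ l k * ℓ y) ∧
        (∀ z ∈ Inv ρ, ℓ z = 0 → ∃ w ∈ Inv ρ, ℓ w = 0 ∧ w - T l w = z) ∧
        (∀ w ∈ Inv ρ, ℓ w = 0 → ‖w‖ ≤ C * ‖w - T l w‖) := by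
  obtain ⟨m, rfl⟩ : ∃ m, k = m + 1 := ⟨k - 1, by omega⟩
  obtain ⟨f, hf, hfi, hfn, hfs⟩ := hG.ex
  simp only [Nat.add_sub_cancel] at hfn hfs
  let V : ℕ → Submodule ℝ (X d) := fun n => PP d n ⊓ Inv ρ
  have fd : ∀ n, FiniteDimensional ℝ (V n) := fun n => by
    have := spec_fd (d := d) n
    exact Submodule.finiteDimensional_inf_left _ _
  have Vmono : Monotone V := fun a b h => inf_le_inf_right _ (spec_mono h)
  have := fd m
  obtain ⟨q, hq, hφo⟩ := specA_proj (specB d) specB_pos (V m) f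
  set φ := f - q with hφ
  have hφV : φ ∈ V (m + 1) := sub_mem ⟨hf, hfi⟩ (Vmono (Nat.le_succ m) hq)
  have hφ0 : φ ≠ 0 := fun e => hfn (by rw [sub_eq_zero.1 e]; exact hq.1)
  have hk' : ∀ h ∈ V (m + 1), ∃ c : ℝ, h - c • φ ∈ V m := by
    intro h hh
    obtain ⟨y, hy, p, hp, e⟩ := Submodule.mem_sup.1 (specAv_le ρ _ le_sup_right hfs hh)
    obtain ⟨c, rfl⟩ := Submodule.mem_span_singleton.1 hy
    refine ⟨c, ?_, sub_mem hh.2 (Submodule.smul_mem _ _ hφV.2)⟩
    have e2 : h - c • φ = p + c • q := by rw [← e, hφ, smul_sub]; abel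
    rw [e2]
    exact add_mem hp (Submodule.smul_mem _ _ hq.1)
  have h2 : V 2 ≤ V 1 := le_inf (specAv_le ρ _ le_rfl hG.two) inf_le_right
  have hd : ∀ w ∈ Inv ρ, w ∈ closure {p | ∃ n, p ∈ V n} := by
    intro w hw
    have h1 := map_mem_closure (specAv ρ).continuous (spec_dense w) (t := {p | ∃ n, p ∈ V n})
      (fun p ⟨n, hn⟩ => ⟨n, specAv_PP ρ n p hn, specAv_mem ρ p⟩)
    rwa [specAv_fix ρ hw] at h1
  have hodd : specR (LinearIsometryEquiv.neg ℝ) φ = -φ := by
    have h1 : φ + specR (LinearIsometryEquiv.neg ℝ) φ ∈ V m :=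
      ⟨spec_odd hk φ hφV.1, add_mem hφV.2 (spec_neg_Inv ρ hφV.2)⟩
    have h3 : ∀ w ∈ V m, specB d (φ + specR (LinearIsometryEquiv.neg ℝ) φ) w = 0 := by
      intro w hw
      have h4 := specB_rot (LinearIsometryEquiv.neg ℝ) φ (specR (LinearIsometryEquiv.neg ℝ) w)
      rw [spec_neg_neg, hφo _ ⟨specR_PP _ m w hw.1, spec_neg_Inv ρ hw.2⟩] at h4
      rw [map_add, add_apply, hφo w hw, h4, add_zero]
    exact eq_neg_of_add_eq_zero_right (specA_zero _ specB_pos (h3 _ h1))
  have hpos := specB_pos φ hφ0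
  have hl : ∀ y, ((specB d φ φ)⁻¹ • specB d φ) y = 0 ↔ specB d φ y = 0 := by
    intro y
    rw [smul_apply, smul_eq_mul, mul_eq_zero, inv_eq_zero, or_iff_right hpos.ne']
  refine ⟨φ, (specB d φ φ)⁻¹ • specB d φ, 1 + |M| * √(specN (specB d)) / g, hφV.2, ?_, ?_, ?_⟩
  · rw [smul_apply, smul_eq_mul, inv_mul_cancel₀ hpos.ne']
  · intro y hy
    have h4 := specB_rot (LinearIsometryEquiv.neg ℝ) φ y
    rw [hodd, specR_apply, hy, map_neg, neg_apply] at h4
    rw [hl]
    linarith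
  intro l hlΛ
  have hz : ∀ h ∈ PP d 0, T l h = μ l 0 • h := by
    intro h hh
    rw [← sub_eq_zero]
    refine spec_map (T l - μ l 0 • ContinuousLinearMap.id ℝ _) ⊥ (fun a j hj => ?_) h hh
    obtain rfl : j = 0 := by omega
    change T l (lin a ^ 0) - μ l 0 • lin a ^ 0 = 0
    rw [pow_zero, hone l hlΛ, sub_self]
  have hgen : ∀ (a : E d) j n, j ≤ n → T l (lin a ^ j) ∈ PP d n := by
    intro a j n hj
    cases j with
    | zero =>
      rw [hz _ (spec_gen a le_rfl)]
      exact Submodule.smul_mem _ _ (spec_gen a hj)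
    | succ j =>
      have h1 := add_mem (spec_mono (show j ≤ n by omega) (htri l hlΛ a j))
        (Submodule.smul_mem _ (μ l (j + 1)) (spec_gen a hj))
      rwa [sub_add_cancel] at h1
  have H : SpecH (specB d) V (T l) (μ l) := by
    refine ⟨specB_symm, specB_pos, Vmono, fun h hh => hz h hh.1, fun n h hh => ⟨?_, ?_⟩,
      hsymm l hlΛ⟩
    · refine spec_map (T l - μ l (n + 1) • ContinuousLinearMap.id ℝ _) _ (fun a j hj => ?_) h hh.1
      change T l (lin a ^ j) - μ l (n + 1) • lin a ^ j ∈ _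
      rcases hj.eq_or_lt with rfl | hj
      · exact htri l hlΛ a n
      · exact sub_mem (hgen a j n (by omega)) (Submodule.smul_mem _ _ (spec_gen a (by omega)))
    · refine sub_mem (fun γ => ?_) (Submodule.smul_mem _ _ hh.2)
      rw [← hrot l hlΛ, hh.2 γ]
  obtain ⟨a1, a2, a3, a4⟩ := spec_abs H fd (by omega : 1 ≤ m + 1) hφ0 hφV hφo hk' h2 hg
    (hgap l hlΛ) (M := M) (fun η => by simpa only [specB_apply, sq] using hbd l hlΛ η) (Inv ρ)
    (isClosed_Inv ρ) (fun n => inf_le_right) hd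
  refine ⟨a1, fun y => ?_, ?_, ?_⟩
  · rw [smul_apply, smul_apply, a2, smul_eq_mul, smul_eq_mul]; ring
  · simpa only [hl] using a3
  · exact fun w hw h => a4 w hw ((hl w).1 h)

end Pool.Agent.Lib.MP_5b78b3_gt
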