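import Mathlib
import Pool.Agent.Lib.MP_5b78b3_gt.Base

/-! The cap averaging operator is symmetric, equivariant and triangular on polynomials. -/

namespace Pool.Agent.Lib.MP_5b78b3_gt

open MeasureTheory Metric Set

variable {d : ℕ}

theorem T_one {l : ℝ} {T : X d →L[ℝ] X d} (hT : IsT l T) {e0 : E d} (e1 : E d) (he0 : ‖e0‖ = 1) :
    T 1 = (Ic l e0 e1 0 / Bc l e0) • (1 : X d) := by
  ext u
  obtain ⟨g, hg⟩ := exists_rot (u := e0) (w := (u : E d)) (by rw [he0, norm_S])
  rw [hT, ← hg, setIntegral_cap_rot, Bc_rot]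
  simp [Ic]

lemma tri_pow_mem (a : E d) {k n : ℕ} (h : k ≤ n) : lin a ^ k ∈ PP d n :=
  Submodule.subset_span ⟨a, k, h, rfl⟩

lemma tri_binom (a : E d) (c : ℝ) (n q : ℕ) : ∀ m : ℕ, m + 2 * q ≤ n + 1 →
    lin a ^ m * (c • (1 : X d) - lin a ^ 2) ^ q - ((-1 : ℝ) ^ q) • lin a ^ (m + 2 * q) ∈ PP d n := by
  induction q with
  | zero => intro m _; simp
  | succ q ih =>
    intro m hm
    have h1 := ih m (by omega)
    have h2 := ih (m + 2) (by omega)
    have h3 : lin a ^ (m + 2 * q) ∈ PP d n := tri_pow_mem a (by omega)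
    have h4 := (PP d n).sub_mem ((PP d n).add_mem ((PP d n).smul_mem c h1)
      ((PP d n).smul_mem (c * (-1) ^ q) h3)) h2
    convert h4 using 1
    ext v
    simp only [ContinuousMap.sub_apply, ContinuousMap.add_apply, ContinuousMap.mul_apply,
      ContinuousMap.pow_apply, ContinuousMap.smul_apply, ContinuousMap.one_apply, smul_eq_mul]
    ring

/-- mixed moments on a cap -/
noncomputable def triM (l : ℝ) (e0 e1 : E d) (i j : ℕ) : ℝ :=
  ∫ v in cap l e0, inner ℝ e1 (v : E d) ^ j * inner ℝ e0 (v : E d) ^ i ∂(sig d)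

lemma triM_odd (l : ℝ) {e0 e1 : E d} (he : inner ℝ e0 e1 = (0 : ℝ)) (i : ℕ) {j : ℕ}
    (hj : Odd j) : triM l e0 e1 i j = 0 := by
  obtain ⟨g, hg0, hg1⟩ := exists_rot2 (u := e0) (w := e0) (a := -e1) (b := e1) rfl (by simp)
    (by simp [he]) he
  have h := setIntegral_cap_rot g l e0
    (fun v : S d => inner ℝ e1 (v : E d) ^ j * inner ℝ e0 (v : E d) ^ i)
  rw [hg0] at h
  have h2 : ∀ v : S d, inner ℝ e1 ((rot g v : S d) : E d) ^ j *
      inner ℝ e0 ((rot g v : S d) : E d) ^ i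
      = -(inner ℝ e1 (v : E d) ^ j * inner ℝ e0 (v : E d) ^ i) := by
    intro v
    have a1 : inner ℝ e1 (g (v : E d)) = -inner ℝ e1 (v : E d) := by
      conv_lhs => rw [← hg1]
      rw [g.inner_map_map, inner_neg_left]
    have a0 : inner ℝ e0 (g (v : E d)) = inner ℝ e0 (v : E d) := by
      conv_lhs => rw [← hg0]
      rw [g.inner_map_map]
    rw [rot_coe, a1, a0, hj.neg_pow]
    ring
  simp only [h2, integral_neg] at h
  unfold triM
  linarith

lemma tri_Ic (l : ℝ) (e0 e1 : E d) (N : ℕ) :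
    Ic l e0 e1 N = ∑ j ∈ Finset.range (N + 1),
      (N.choose j : ℝ) * (Complex.I ^ j).re * triM l e0 e1 (N - j) j := by
  unfold Ic triM
  simp_rw [← integral_const_mul]
  rw [← integral_finsetSum]
  · congr 1
    ext v
    rw [add_comm, add_pow, Complex.re_sum]
    refine Finset.sum_congr rfl fun j _ => ?_
    have : (((inner ℝ e1 (v : E d) : ℝ) : ℂ) * Complex.I) ^ j *
        ((inner ℝ e0 (v : E d) : ℝ) : ℂ) ^ (N - j) * (N.choose j : ℂ)
        = (((N.choose j : ℝ) * (inner ℝ e1 (v : E d) ^ j * inner ℝ e0 (v : E d) ^ (N - j)) : ℝ) : ℂ)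
          * Complex.I ^ j := by
      push_cast
      ring
    rw [this, Complex.re_ofReal_mul]
    ring
  · intro j _
    exact (integrable_cont (by fun_prop)).integrableOn

lemma tri_cap (l : ℝ) {e0 e1 : E d} (he0 : ‖e0‖ = 1) (he1 : ‖e1‖ = 1)
    (he : inner ℝ e0 e1 = (0 : ℝ)) (a : E d) (N : ℕ) (u : S d) :
    ∫ v in cap l (u : E d), inner ℝ a (v : E d) ^ N ∂(sig d) = ∑ j ∈ Finset.range (N + 1),
      (N.choose j : ℝ) * triM l e0 e1 (N - j) j *
        (inner ℝ a (u : E d) ^ (N - j) * (‖a‖ ^ 2 - inner ℝ a (u : E d) ^ 2) ^ (j / 2)) := by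
  set α : ℝ := inner ℝ a (u : E d) with hα
  set a' : E d := a - α • (u : E d) with ha'
  have hua : inner ℝ (u : E d) a' = (0 : ℝ) := by
    rw [ha', inner_sub_right, inner_smul_right, inner_S_self, real_inner_comm, ← hα]
    ring
  have hβ : ‖a'‖ ^ 2 = ‖a‖ ^ 2 - α ^ 2 := by
    rw [ha', norm_sub_sq_real, inner_smul_right, ← hα, norm_smul, norm_S, Real.norm_eq_abs,
      mul_one, sq_abs]
    ring
  obtain ⟨g, hg0, hg1⟩ := exists_rot2 (u := e0) (w := (u : E d)) (a := ‖a'‖ • e1) (b := a')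
    (by rw [he0, norm_S]) (by rw [norm_smul, he1, norm_norm, mul_one])
    (by rw [inner_smul_right, he, mul_zero]) hua
  have key : ∀ v : S d, inner ℝ a ((rot g v : S d) : E d)
      = ‖a'‖ * inner ℝ e1 (v : E d) + α * inner ℝ e0 (v : E d) := by
    intro v
    have h1 : a = g (‖a'‖ • e1 + α • e0) := by
      rw [map_add, hg1, map_smul, hg0, ha']
      abel
    rw [rot_coe]
    conv_lhs => rw [h1]
    rw [g.inner_map_map, inner_add_left, real_inner_smul_left, real_inner_smul_left]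
  conv_lhs => rw [← hg0]
  rw [setIntegral_cap_rot]
  simp only [key, add_pow]
  rw [integral_finsetSum]
  · refine Finset.sum_congr rfl fun j _ => ?_
    have h2 : ∀ v : S d, (‖a'‖ * inner ℝ e1 (v : E d)) ^ j * (α * inner ℝ e0 (v : E d)) ^ (N - j)
        * (N.choose j : ℝ) = ((N.choose j : ℝ) * (α ^ (N - j) * ‖a'‖ ^ j)) *
          (inner ℝ e1 (v : E d) ^ j * inner ℝ e0 (v : E d) ^ (N - j)) := by
      intro v; ring
    simp only [h2]
    rw [integral_const_mul]
    change _ * triM l e0 e1 (N - j) j = _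
    rcases Nat.even_or_odd j with ⟨q, hq⟩ | hj
    · have h3 : j / 2 = q := by omega
      have h4 : ‖a'‖ ^ j = (‖a‖ ^ 2 - α ^ 2) ^ q := by
        rw [← hβ, ← pow_mul, hq, two_mul]
      rw [h3, h4]
      ring
    · rw [triM_odd l he _ hj]
      ring
  · intro j _
    exact (integrable_cont (by fun_prop)).integrableOn

theorem T_tri {l : ℝ} {T : X d →L[ℝ] X d} (hT : IsT l T) {e0 e1 : E d} (he0 : ‖e0‖ = 1)
    (he1 : ‖e1‖ = 1) (he : inner ℝ e0 e1 = (0 : ℝ)) (a : E d) (n : ℕ) :
    T (lin a ^ (n + 1)) - (Ic l e0 e1 (n + 1) / Bc l e0) • lin a ^ (n + 1) ∈ PP d n := by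
  have h1 : T (lin a ^ (n + 1)) - (Ic l e0 e1 (n + 1) / Bc l e0) • lin a ^ (n + 1)
      = ∑ j ∈ Finset.range (n + 1 + 1),
        (((n + 1).choose j : ℝ) * triM l e0 e1 (n + 1 - j) j / Bc l e0) •
          (lin a ^ (n + 1 - j) * ((‖a‖ ^ 2) • (1 : X d) - lin a ^ 2) ^ (j / 2)
            - (Complex.I ^ j).re • lin a ^ (n + 1)) := by
    ext u
    rw [ContinuousMap.sub_apply, hT, Bc_eq l (w := e0) (by rw [he0, norm_S]), tri_Ic]
    simp only [ContinuousMap.pow_apply, lin_apply]
    rw [tri_cap l he0 he1 he]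
    simp only [ContinuousMap.sum_apply, ContinuousMap.sub_apply, ContinuousMap.mul_apply,
      ContinuousMap.pow_apply, ContinuousMap.smul_apply, ContinuousMap.one_apply, smul_eq_mul,
      lin_apply, Finset.sum_div, Finset.sum_mul, ← Finset.sum_sub_distrib]
    refine Finset.sum_congr rfl fun j _ => ?_
    ring
  rw [h1]
  refine Submodule.sum_mem _ fun j hj => ?_
  have hj' : j ≤ n + 1 := Nat.lt_succ_iff.1 (Finset.mem_range.1 hj)
  rcases Nat.even_or_odd j with ⟨q, hq⟩ | hj
  · refine Submodule.smul_mem _ _ ?_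
    have h3 : j / 2 = q := by omega
    have h4 : (Complex.I ^ j).re = (-1 : ℝ) ^ q := by
      rw [hq, ← two_mul, pow_mul, Complex.I_sq]
      have : ((-1 : ℂ)) ^ q = (((-1 : ℝ) ^ q : ℝ) : ℂ) := by push_cast; rfl
      rw [this, Complex.ofReal_re]
    have h5 := tri_binom a (‖a‖ ^ 2) n q (n + 1 - j) (by omega)
    have h6 : n + 1 - j + 2 * q = n + 1 := by omega
    rw [h6] at h5
    rw [h3, h4]
    exact h5
  · rw [triM_odd l he _ hj]
    simp

theorem T_symm {l : ℝ} {T : X d →L[ℝ] X d} (hT : IsT l T) (η ζ : X d) :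
    ∫ v, T η v * ζ v ∂(sig d) = ∫ v, η v * T ζ v ∂(sig d) := by
  rcases isEmpty_or_nonempty (S d) with hS | ⟨⟨e⟩⟩
  · simp [integral_of_isEmpty]
  set B : ℝ := Bc l (e : E d) with hB
  have hB' : ∀ u : S d, Bc l (u : E d) = B := fun u => Bc_eq l (by rw [norm_S, norm_S])
  set A : Set (S d × S d) := {p | l < inner ℝ (p.1 : E d) (p.2 : E d)} with hA
  have hAm : MeasurableSet A := (isOpen_lt continuous_const (by fun_prop)).measurableSet
  set F : S d → S d → ℝ := fun u v => A.indicator (fun p => η p.2 * ζ p.1 / B) (u, v) with hF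
  have hint : Integrable (Function.uncurry F) ((sig d).prod (sig d)) := by
    have hc : Continuous fun p : S d × S d => η p.2 * ζ p.1 / B := by fun_prop
    exact (hc.integrable_of_hasCompactSupport (HasCompactSupport.of_compactSpace _)).indicator hAm
  have h1 : ∀ u : S d, T η u * ζ u = ∫ v, F u v ∂(sig d) := by
    intro u
    rw [hT, hB', div_mul_eq_mul_div, ← integral_mul_const, ← integral_div,
      ← integral_indicator (measurableSet_cap _ _)]
    congr 1
  have h2 : ∀ v : S d, η v * T ζ v = ∫ u, F u v ∂(sig d) := by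
    intro v
    rw [hT, hB', ← mul_div_assoc, ← integral_const_mul, ← integral_div,
      ← integral_indicator (measurableSet_cap _ _)]
    congr 1
    ext u
    have h3 : u ∈ cap l (v : E d) ↔ (u, v) ∈ A := by
      simp only [cap, hA, mem_ofPred_eq]
      rw [real_inner_comm]
    by_cases h : u ∈ cap l (v : E d)
    · simp only [hF]
      rw [indicator_of_mem h, indicator_of_mem (h3.1 h)]
    · simp only [hF]
      rw [indicator_of_notMem h, indicator_of_notMem (fun h' => h (h3.2 h'))]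
  simp only [h1, h2]
  exact integral_integral_swap hint

theorem T_rot {l : ℝ} {T : X d →L[ℝ] X d} (hT : IsT l T) (η : X d) (f : E d ≃ₗᵢ[ℝ] E d) :
    T (η.comp (rot f)) = (T η).comp (rot f) := by
  ext u
  rw [ContinuousMap.comp_apply, hT, hT, rot_coe, setIntegral_cap_rot, Bc_rot]
  rfl

lemma tri_cs (η : X d) :
    ∫ v, |η v| ∂(sig d) ≤ √((sig d).real univ) * √(∫ v, η v ^ 2 ∂(sig d)) := by
  have h1 : Integrable (fun v => |η v|) (sig d) := integrable_cont (by fun_prop)
  have h2 : Integrable (fun v => η v ^ 2) (sig d) := integrable_cont (by fun_prop)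
  have h : ∀ t : ℝ, 0 ≤ (sig d).real univ * (t * t) + (-2 * ∫ v, |η v| ∂(sig d)) * t
      + ∫ v, η v ^ 2 ∂(sig d) := by
    intro t
    have h3 : 0 ≤ ∫ v, (|η v| - t) ^ 2 ∂(sig d) := integral_nonneg fun v => sq_nonneg _
    have h4 : ∀ v, (|η v| - t) ^ 2 = t * t + (-2 * t) * |η v| + η v ^ 2 := by
      intro v
      rw [← sq_abs (η v)]
      ring
    simp only [h4] at h3
    have h6 : Integrable (fun v => t * t + (-2 * t) * |η v|) (sig d) :=
      (integrable_const _).add (h1.const_mul _)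
    rw [integral_add h6 h2,
      integral_add (integrable_const _) (h1.const_mul _), integral_const, integral_const_mul,
      smul_eq_mul] at h3
    linarith
  have h5 := discrim_le_zero h
  rw [← Real.sqrt_mul measureReal_nonneg]
  apply Real.le_sqrt_of_sq_le
  unfold discrim at h5
  nlinarith

theorem T_bound {l : ℝ} {T : X d →L[ℝ] X d} (hT : IsT l T) {e0 : E d} (he0 : ‖e0‖ = 1)
    {B : ℝ} (hB : 0 < B) (hB' : B ≤ Bc l e0) (η : X d) :
    ‖T η‖ ≤ √((sig d).real univ) / B * √(∫ v, η v ^ 2 ∂(sig d)) := by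
  rw [ContinuousMap.norm_le _ (by positivity)]
  intro u
  have h0 : 0 < Bc l e0 := hB.trans_le hB'
  have h1 : Integrable (fun v => |η v|) (sig d) := integrable_cont (by fun_prop)
  rw [hT, Bc_eq l (w := e0) (by rw [he0, norm_S]), Real.norm_eq_abs, abs_div, abs_of_pos h0,
    div_mul_eq_mul_div]
  have h2 : |∫ v in cap l (u : E d), η v ∂(sig d)| ≤ ∫ v, |η v| ∂(sig d) :=
    (abs_integral_le_integral_abs).trans
      (setIntegral_le_integral h1 (Filter.Eventually.of_forall fun v => abs_nonneg _))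
  exact div_le_div₀ (by positivity) (h2.trans (tri_cs η)) hB hB'

end Pool.Agent.Lib.MP_5b78b3_gt
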