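import Mathlib
import Pool.Agent.Lib.MP_5b78b3_gt.Geom
import Pool.Agent.Lib.MP_5b78b3_gt.LS
import Pool.Agent.Lib.MP_5b78b3_gt.Numer
import Pool.Agent.Lib.MP_5b78b3_gt.CapDiv
import Pool.Agent.Lib.MP_5b78b3_gt.CapMom
import Pool.Agent.Lib.MP_5b78b3_gt.Spec
import Pool.Agent.Lib.MP_5b78b3_gt.Tri
import Pool.Agent.Lib.MP_5b78b3_gt.Simplex
import Pool.Agent.Lib.MP_5b78b3_gt.Octa

/-! Assembly of the bifurcation argument. -/

namespace Pool.Agent.Lib.MP_5b78b3_gt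

open MeasureTheory Metric Set

/-- first basis vector -/
noncomputable def ee0 (m : ℕ) : E (m + 2) := EuclideanSpace.single 0 1

/-- second basis vector -/
noncomputable def ee1 (m : ℕ) : E (m + 2) := EuclideanSpace.single 1 1

lemma norm_ee0 (m : ℕ) : ‖ee0 m‖ = 1 := by simp [ee0]

lemma norm_ee1 (m : ℕ) : ‖ee1 m‖ = 1 := by simp [ee1]

lemma inner_ee0 (m : ℕ) (y : E (m + 2)) : inner ℝ (ee0 m) y = y 0 := by
  simp [ee0, EuclideanSpace.inner_single_left]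

lemma inner_ee1 (m : ℕ) (y : E (m + 2)) : inner ℝ (ee1 m) y = y 1 := by
  simp [ee1, EuclideanSpace.inner_single_left]

lemma inner_ee (m : ℕ) : inner ℝ (ee0 m) (ee1 m) = (0 : ℝ) := by
  rw [inner_ee0]; simp [ee1]

lemma QQ_zero (d : ℕ) (l : ℝ) : QQ d 0 l = 1 := by simp [QQ, gam]

theorem cap_formula (m : ℕ) {l : ℝ} (h0 : 0 < l) (h1 : l < 1) :
    0 < Bc l (ee0 m) ∧
      (∀ k, l * Ic l (ee0 m) (ee1 m) (k + 1) = Bc l (ee0 m) * QQ (m + 2) k l) ∧
      (∀ k j, 2 * j ≤ k → |l * Ic l (ee0 m) (ee1 m) (k + 1)| ≤ Bc l (ee0 m) * tl (m + 2) j l) ∧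
      Bc l (ee0 m) ≤ l * Ic l (ee0 m) (ee1 m) 0 := by
  obtain ⟨V, hV, hV1, hV2⟩ := cone_mom m h0 h1
  have hc := cap_div h0 h1 (norm_ee0 m) (norm_ee1 m) (inner_ee m)
  have hB := Bc_cone h0 h1 (norm_ee0 m)
  simp only [inner_ee0, inner_ee1] at hc hB
  have hBV : Bc l (ee0 m) = V := by
    have := hV1 0
    rw [QQ_zero, mul_one] at this
    rw [hB, ← this]
    simp
  have h2 : ∀ k, l * Ic l (ee0 m) (ee1 m) (k + 1) = Bc l (ee0 m) * QQ (m + 2) k l := fun k => by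
    rw [hc, hBV, hV1]
  refine ⟨hBV ▸ hV, h2, fun k j hj => by rw [hc, hBV]; exact hV2 k j hj, ?_⟩
  have h3 := h2 0
  rw [QQ_zero, mul_one] at h3
  rw [← h3]
  refine mul_le_mul_of_nonneg_left ?_ h0.le
  unfold Ic
  refine setIntegral_mono (integrable_cont (by fun_prop)).integrableOn
    (integrable_cont (by fun_prop)).integrableOn fun v => ?_
  have := abs_real_inner_le_norm (ee0 m) (v : E (m + 2))
  rw [norm_ee0, norm_S, mul_one] at this
  simpa using (abs_le.1 this).2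

theorem gap_of_Num (m : ℕ) {n j : ℕ} {a b g : ℝ} (hN : Num (m + 2) n j a b g) (hj : 0 < j)
    (hn : n ≠ 0) :
    (∀ l ∈ Icc a b, ∀ i : ℕ, i ≠ 2 → i ≠ n + 1 →
      g ≤ |Ic l (ee0 m) (ee1 m) i / Bc l (ee0 m) - 1|) ∧
    1 < Ic a (ee0 m) (ee1 m) (n + 1) / Bc a (ee0 m) ∧
    Ic b (ee0 m) (ee1 m) (n + 1) / Bc b (ee0 m) < 1 := by
  obtain ⟨ha, hab, hb, hg, hQa, hQb, hl⟩ := hN
  have key : ∀ l, 0 < l → l < 1 → ∀ k,
      Ic l (ee0 m) (ee1 m) (k + 1) / Bc l (ee0 m) = QQ (m + 2) k l / l := by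
    intro l h0 h1 k
    obtain ⟨hB, h2, -, -⟩ := cap_formula m h0 h1
    rw [div_eq_div_iff hB.ne' h0.ne', mul_comm, h2, mul_comm]
  refine ⟨fun l hl' i hi2 hin => ?_, ?_, ?_⟩
  · have h0 : 0 < l := ha.trans_le hl'.1
    have h1 : l < 1 := hl'.2.trans_lt hb
    obtain ⟨hB, h2, h3, h4⟩ := cap_formula m h0 h1
    obtain ⟨hl1, hl2⟩ := hl l hl'
    rcases i with _ | k
    · have h5 := hl1 0 (by omega) (by omega) (by omega)
      rw [QQ_zero, abs_of_pos (by linarith)] at h5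
      refine le_trans ?_ (le_abs_self _)
      rw [le_sub_iff_add_le, le_div_iff₀ hB]
      have h6 : 0 ≤ Ic l (ee0 m) (ee1 m) 0 := by nlinarith
      have h7 : (g + 1) * l ≤ 1 := by nlinarith [sq_nonneg (1 - l)]
      nlinarith [mul_le_mul_of_nonneg_left h4 (by linarith : 0 ≤ g + 1),
        mul_le_mul_of_nonneg_right h7 h6]
    · rcases lt_or_ge k (2 * j) with h5 | h5
      · have h6 := hl1 k h5 (by omega) (by omega)
        rw [key l h0 h1, div_sub_one h0.ne', abs_div, abs_of_pos h0, le_div_iff₀ h0]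
        nlinarith
      · have h6 := (le_abs_self _).trans (h3 k j h5)
        refine le_trans ?_ (neg_le_abs _)
        rw [neg_sub, le_sub_comm, div_le_iff₀ hB]
        have h7 : l * Ic l (ee0 m) (ee1 m) (k + 1) ≤ l * ((1 - g) * Bc l (ee0 m)) := by
          nlinarith [mul_le_mul_of_nonneg_left hl2 hB.le, mul_pos hg hB]
        exact le_of_mul_le_mul_left h7 h0
  · rw [key a ha (hab.trans hb), one_lt_div ha]; exact hQa
  · rw [key b (ha.trans hab) hb, div_lt_one (ha.trans hab)]; exact hQb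

theorem main_aux (m : ℕ) {n j : ℕ} {a b g : ℝ} (hN : Num (m + 2) n j a b g) (hj : 0 < j)
    (hn : 2 ≤ n) (hodd : Odd (n + 1)) {G : Type} [Group G] [Fintype G]
    (ρ : G →* (E (m + 2) ≃ₗᵢ[ℝ] E (m + 2))) (hG : Good (n + 1) ρ) {ε : ℝ} (hε : 0 < ε) :
    ∃ (K : Set (E (m + 2))) (δ c : ℝ), IsCompact K ∧ Convex ℝ K ∧ (interior K).Nonempty ∧
      closedBall 0 (1 - ε) ⊆ K ∧ K ⊆ closedBall 0 (1 + ε) ∧ 0 < δ ∧ 0 < c ∧
      (⋂ (u : E (m + 2)) (t : ℝ) (_ : u ≠ 0)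
          (_ : volume (K \ {y | inner ℝ u y ≤ t}) ≤ ENNReal.ofReal δ),
          {y : E (m + 2) | inner ℝ u y ≤ t}) = (fun y => c • y + (0 : E (m + 2))) '' K ∧
      ¬ ∃ A : E (m + 2) ≃ᵃ[ℝ] E (m + 2), K = A '' closedBall 0 1 := by
  obtain ⟨hgap, hμa, hμb⟩ := gap_of_Num m hN hj (by omega)
  obtain ⟨ha, hab, hb, hg, -, -, -⟩ := hN
  have hd : 0 < m + 2 := by omega
  obtain ⟨B, r, c⟩ := exists_Ctx hd ha hb
  have hTex : ∀ l : ℝ, l ∈ Icc a b → ∃ T : X (m + 2) →L[ℝ] X (m + 2), IsT l T :=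
    fun l hl => exists_T (ha.trans_le hl.1) (hl.2.trans_lt hb)
  choose! T hT using hTex
  have hlow : ∀ l ∈ Icc a b, B ≤ Bc l (ee0 m) := fun l hl =>
    c.low l hl ⟨ee0 m, by simp [norm_ee0]⟩
  obtain ⟨φ, ℓ, C, hφ, hℓ, heven, hsp⟩ := spectral ρ hodd (by omega) hG (Icc a b) T
    (fun l i => Ic l (ee0 m) (ee1 m) i / Bc l (ee0 m)) (√((sig (m + 2)).real univ) / B) g hg
    (fun l hl => T_one (hT l hl) (ee1 m) (norm_ee0 m))
    (fun l hl => T_tri (hT l hl) (norm_ee0 m) (norm_ee1 m) (inner_ee m))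
    (fun l hl => T_symm (hT l hl)) (fun l hl => T_rot (hT l hl))
    (fun l hl => T_bound (hT l hl) (norm_ee0 m) c.hB (hlow l hl)) hgap
  obtain ⟨r1, hr1, hgeo⟩ := fixed_geometry c
  obtain ⟨l, hl, y, hyY, hy, hℓy, hfix⟩ := bifurcation (Inv ρ) (isClosed_Inv ρ) hab.le
    (fun l y => Psi l (1 + y) - 1) T φ ℓ
    (fun l => Ic l (ee0 m) (ee1 m) (n + 1) / Bc l (ee0 m)) C hφ hℓ
    (fun l _ y hy f => by
      rw [ContinuousMap.sub_comp, Psi_inv l (1 + y) (ρ f)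
        (by rw [ContinuousMap.add_comp, hy f]; rfl)]
      rfl)
    (fun l hl y hy f => by rw [← T_rot (hT l hl), hy f])
    (fun l hl => (hsp l hl).1) (fun l hl => (hsp l hl).2.1) (fun l hl => (hsp l hl).2.2.1)
    (fun l hl => (hsp l hl).2.2.2)
    (fun l hl => by simp only [add_zero, Psi_one c hl, sub_self])
    (fun θ hθ => by
      obtain ⟨r2, hr2, h⟩ := strict_diff c hθ
      refine ⟨r2, hr2, fun l hl y y' hy hy' => ?_⟩
      have := h l hl (T l) (hT l hl) (1 + y) (1 + y') (by simpa using hy) (by simpa using hy')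
      simpa using this)
    (by
      obtain ⟨r2, hr2, h⟩ := Psi_cont c
      exact ⟨r2, hr2, fun y hy => (h (1 + y) (by simpa using hy)).sub continuousOn_const⟩)
    hμa hμb (r := min r1 (min ε (1 / 2))) (by positivity)
  have hfix' : Psi l (1 + y) = 1 + y := by
    have : Psi l (1 + y) - 1 = y := hfix
    rw [← this]; simp [this, ← sub_eq_iff_eq_add']
  have hp : ‖1 + y - 1‖ ≤ min r1 (min ε (1 / 2)) := by simpa using hy
  obtain ⟨hcl, hcv, δ, hδ, hfl⟩ := hgeo l hl (1 + y) (hp.trans (min_le_left _ _)) hfix'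
  obtain ⟨hb1, hb2⟩ := body_between hd (ε := min ε (1 / 2))
    ((min_le_right _ _).trans (by norm_num)) (hp.trans (min_le_right _ _))
  have hm1 := min_le_left ε (1 / 2)
  have hm2 := min_le_right ε (1 / 2)
  refine ⟨body (1 + y), δ, l, (isCompact_closedBall _ _).of_isClosed_subset hcl hb2, hcv, ?_,
    (closedBall_subset_closedBall (by linarith)).trans hb1,
    hb2.trans (closedBall_subset_closedBall (by linarith)), hδ, ha.trans_le hl.1, hfl, ?_⟩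
  · refine ⟨0, mem_interior_iff_mem_nhds.2 (Filter.mem_of_superset ?_ hb1)⟩
    exact closedBall_mem_nhds _ (by linarith)
  · rintro ⟨A, hA⟩
    have hp0 : ∀ v, 0 ≤ (1 + y) v := fun v => by
      linarith [(abs_le.1 (abs_sub_one_le (hp.trans (min_le_right _ _)) v)).1]
    have h1 := even_of_ellipsoid hd ρ hG.fix hp0
      (fun f => by rw [ContinuousMap.add_comp, hyY f]; rfl) A hA
    have h2 := heven _ h1
    have h3 := heven 1 rfl
    rw [map_add, h3, zero_add] at h2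
    exact hℓy h2

theorem main (d : ℕ) (hd : 3 ≤ d) {ε : ℝ} (hε : 0 < ε) :
    ∃ (K : Set (E d)) (δ c : ℝ), IsCompact K ∧ Convex ℝ K ∧ (interior K).Nonempty ∧
      closedBall 0 (1 - ε) ⊆ K ∧ K ⊆ closedBall 0 (1 + ε) ∧ 0 < δ ∧ 0 < c ∧
      (⋂ (u : E d) (t : ℝ) (_ : u ≠ 0)
          (_ : volume (K \ {y | inner ℝ u y ≤ t}) ≤ ENNReal.ofReal δ),
          {y : E d | inner ℝ u y ≤ t}) = (fun y => c • y + (0 : E d)) '' K ∧
      ¬ ∃ A : E d ≃ᵃ[ℝ] E d, K = A '' closedBall 0 1 := by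
  obtain ⟨m, rfl⟩ : ∃ m, d = m + 2 := ⟨d - 2, by omega⟩
  rcases hd.eq_or_lt with h | h
  · obtain rfl : m = 1 := by omega
    obtain ⟨a, b, g, hN⟩ := num_three
    obtain ⟨G, _, _, ρ, hG⟩ := good_three
    exact main_aux 1 hN (by norm_num) (by norm_num) (by decide) ρ hG hε
  · obtain ⟨a, b, g, hN⟩ := num_high (d := m + 2) h
    obtain ⟨G, _, _, ρ, hG⟩ := good_high (d := m + 2) h
    exact main_aux m hN (by norm_num) (by norm_num) (by decide) ρ hG hε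

end Pool.Agent.Lib.MP_5b78b3_gt
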